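import Pool.Agent.Helper462.OneRule.Low

set_option autoImplicit false
set_option linter.unusedSectionVars false

/-! Words of cells. A cell is a row of arguments, of which we only see whether they are the constant
`a`. The templates `lcs` and `rcs` are lists of cells whose entries are coded by numbers: `1` is the
constant `a`, `3` the constant `b`, and `2 * x` the variable `x`. -/

namespace Pool.Agent.Helper462.OneRule

open LowM

section Templates

variable {S Y : Type} [DecidableEq S] [DecidableEq Y] (A : LowM S Y) (n : ℕ) (pr : ℕ → S × Y)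
  (qs : S)

/-- number of arguments of a cell -/
def ar : ℕ := (A.L + 3) * n

/-- code of a constant -/
def bc (b : Bool) : ℕ := if b then 1 else 3

/-- state rows -/
def dat (q : S) (a : ℕ) : ℕ :=
  if a / n = 2 then bc (decide ((pr (a % n)).1 = q))
  else bc (decide ((A.spl q)[a / n - 3]? = some (pr (a % n)).2))

/-- next state of a pair -/
def nx (p : ℕ) : S := (A.δ (pr p).1 (pr p).2).getD qs

/-- symbol row of zero -/
def zrow (a : ℕ) : ℕ := bc (decide ((pr (a % n)).2 = A.z))

/-- a cell which becomes a head if both its flags are `a` -/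
def frameT (p a : ℕ) : ℕ :=
  if a = 0 then 2 * (A.K * ar A n + (2 * n + p))
  else if a = 1 then 2 * ((if A.dir (pr p).1 then 2 * A.K else 0) * ar A n + (n + p))
  else if a / n = 0 then 3
  else if a / n = 1 then zrow A n pr a
  else dat A n pr (nx A pr qs p) a

/-- a zero cell -/
def padT (a : ℕ) : ℕ :=
  if a / n = 0 then 3
  else if a / n = 1 then zrow A n pr a
  else dat A n pr qs a

/-- a payload cell -/
def loadT (i a : ℕ) : ℕ :=
  if a / n = 0 then 3
  else if a / n = 1 then 2 * (A.K * ar A n + ((3 + i) * n + a % n))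
  else dat A n pr qs a

/-- the pairs whose next state has the given direction -/
def frs (d : Bool) : List ℕ :=
  (List.range n).filter (fun p => decide ((A.δ (pr p).1 (pr p).2).map A.dir = some d))

/-- the left hand side -/
def lcs : List (ℕ → ℕ) :=
  (List.range A.K).map (fun c a => 2 * (c * ar A n + a)) ++
    (fun a => if a < 2 then 1 else 2 * (A.K * ar A n + a)) ::
      (List.range A.K).map (fun c a => 2 * ((A.K + 1 + c) * ar A n + a))

/-- the right hand side -/
def rcs : List (ℕ → ℕ) :=
  (frs A n pr false).map (frameT A n pr qs) ++ (List.replicate (3 * A.K) (padT A n pr qs) ++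
    ((List.range A.L).map (loadT A n pr qs) ++ (List.replicate (3 * A.K) (padT A n pr qs) ++
      (frs A n pr true).map (frameT A n pr qs))))

/-- value of a code -/
def ev (e : ℕ → Bool) (x : ℕ) : Bool := if x % 2 = 0 then e (x / 2) else decide (x = 1)

/-- cells -/
abbrev Cel := Fin (ar A n) → Bool

/-- instance of a template -/
def cel (e : ℕ → Bool) (T : ℕ → ℕ) : Cel A n := fun a => ev e (T a)

/-- one step on words of cells -/
def CStep (w w' : List (Cel A n)) : Prop :=
  ∃ u v e, w = u ++ ((lcs A n).map (cel A n e) ++ v) ∧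
    w' = u ++ ((rcs A n pr qs).map (cel A n e) ++ v)

end Templates

theorem ev_bc (e : ℕ → Bool) (b : Bool) : ev e (bc b) = b := by
  cases b <;> simp [ev, bc]

theorem ev_one (e : ℕ → Bool) : ev e 1 = true := by simp [ev]

theorem ev_three (e : ℕ → Bool) : ev e 3 = false := by simp [ev]

theorem ev_var (e : ℕ → Bool) (x : ℕ) : ev e (2 * x) = e x := by
  simp [ev]

theorem dv {n i p : ℕ} (h : p < n) : (i * n + p) / n = i ∧ (i * n + p) % n = p := by
  have hn : 0 < n := by omega
  constructor
  · rw [Nat.add_comm, Nat.add_mul_div_right _ _ hn, Nat.div_eq_of_lt h, Nat.zero_add]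
  · rw [Nat.add_comm, Nat.add_mul_mod_self_right, Nat.mod_eq_of_lt h]

section Sem

variable {S Y : Type} [DecidableEq S] [DecidableEq Y] {A : LowM S Y} {n : ℕ} {pr : ℕ → S × Y}
  {qs : S}

variable (A n pr)

/-- the cell carries a symbol -/
def IsSy (c : Cel A n) (s : Y) : Prop :=
  ∀ a : Fin (ar A n), a.1 / n = 1 → c a = decide ((pr (a.1 % n)).2 = s)

/-- the cell carries a state -/
def IsDa (c : Cel A n) (q : S) : Prop :=
  ∀ a : Fin (ar A n), 2 ≤ a.1 / n → c a = ev (fun _ => true) (dat A n pr q a)

/-- the cell is active -/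
def Act (c : Cel A n) : Prop := ∀ a : Fin (ar A n), a.1 < 2 → c a = true

variable {A n pr}

theorem ar_lt {i p : ℕ} (hi : i < A.L + 3) (hp : p < n) : i * n + p < ar A n := by
  have : (i + 1) * n ≤ (A.L + 3) * n := Nat.mul_le_mul_right _ hi
  unfold ar
  rw [Nat.add_mul] at this
  omega

theorem dat_ev (e e' : ℕ → Bool) (q : S) (a : ℕ) :
    ev e (dat A n pr q a) = ev e' (dat A n pr q a) := by
  unfold dat
  split <;> simp only [ev_bc]

theorem IsDa.uniq (hs : ∀ x, ∃ p < n, pr p = x) (y : Y) {c : Cel A n} {q q' : S}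
    (h : IsDa A n pr c q) (h' : IsDa A n pr c q') : q = q' := by
  obtain ⟨p, hp, e⟩ := hs (q, y)
  have h1 := h ⟨2 * n + p, ar_lt (by omega) hp⟩ (by simp only [(dv (i := 2) hp).1]; omega)
  have h2 := h' ⟨2 * n + p, ar_lt (by omega) hp⟩ (by simp only [(dv (i := 2) hp).1]; omega)
  rw [h1] at h2
  simp only [dat, (dv (i := 2) hp).1, (dv (i := 2) hp).2, if_true, ev_bc, e] at h2
  simpa using h2

theorem IsSy.uniq (hs : ∀ x, ∃ p < n, pr p = x) (q : S) {c : Cel A n} {s s' : Y}
    (h : IsSy A n pr c s) (h' : IsSy A n pr c s') : s = s' := by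
  obtain ⟨p, hp, e⟩ := hs (q, s)
  have h1 := h ⟨1 * n + p, ar_lt (by omega) hp⟩ (by simp only [(dv (i := 1) hp).1])
  have h2 := h' ⟨1 * n + p, ar_lt (by omega) hp⟩ (by simp only [(dv (i := 1) hp).1])
  rw [h1] at h2
  simp only [(dv (i := 1) hp).2, e] at h2
  simpa using h2

open Classical in
/-- letter of a cell -/
noncomputable def letter (A : LowM S Y) (n : ℕ) (pr : ℕ → S × Y) (c : Cel A n) : Lt S Y :=
  if h : ∃ x : S × Y, IsDa A n pr c x.1 ∧ IsSy A n pr c x.2 then
    (if Act A n c then .hd (some h.choose.1) else .ps h.choose.2)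
  else .hd none

theorem letter_act (hs : ∀ x, ∃ p < n, pr p = x) {c : Cel A n} {q : S} {s : Y}
    (h1 : IsDa A n pr c q) (h2 : IsSy A n pr c s) (h3 : Act A n c) :
    letter A n pr c = .hd (some q) := by
  have h : ∃ x : S × Y, IsDa A n pr c x.1 ∧ IsSy A n pr c x.2 := ⟨(q, s), h1, h2⟩
  unfold letter
  rw [dif_pos h, if_pos h3, h.choose_spec.1.uniq hs s h1]

theorem letter_pas (hs : ∀ x, ∃ p < n, pr p = x) {c : Cel A n} {q : S} {s : Y}
    (h1 : IsDa A n pr c q) (h2 : IsSy A n pr c s) (h3 : ¬ Act A n c) :
    letter A n pr c = .ps s := by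
  have h : ∃ x : S × Y, IsDa A n pr c x.1 ∧ IsSy A n pr c x.2 := ⟨(q, s), h1, h2⟩
  unfold letter
  rw [dif_pos h, if_neg h3, h.choose_spec.2.uniq hs q h2]

theorem of_letter_ps {c : Cel A n} {s : Y} (h : letter A n pr c = .ps s) :
    (∃ q, IsDa A n pr c q) ∧ IsSy A n pr c s ∧ ¬ Act A n c := by
  unfold letter at h
  split at h
  · rename_i hx
    split at h
    · cases h
    · rename_i ha
      simp only [Lt.ps.injEq] at h
      have := hx.choose_spec
      rw [h] at this
      exact ⟨⟨_, this.1⟩, this.2, ha⟩
  · cases h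

theorem of_letter_hd {c : Cel A n} {q : S} (h : letter A n pr c = .hd (some q)) :
    IsDa A n pr c q ∧ (∃ s, IsSy A n pr c s) ∧ Act A n c := by
  unfold letter at h
  split at h
  · rename_i hx
    split at h
    · rename_i ha
      simp only [Lt.hd.injEq, Option.some.injEq] at h
      have := hx.choose_spec
      rw [h] at this
      exact ⟨this.1, ⟨_, this.2⟩, ha⟩
    · cases h
  · cases h

/-- cells of the window -/
def wc (A : LowM S Y) (n : ℕ) (e : ℕ → Bool) (c : ℕ) : Cel A n := fun a => e (c * ar A n + a)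

theorem lcs_map (h2 : 2 ≤ n) (e : ℕ → Bool) :
    ∃ e' : ℕ → Bool, (lcs A n).map (cel A n e) =
      (List.range A.K).map (wc A n e') ++ wc A n e' A.K ::
        (List.range A.K).map (fun c => wc A n e' (A.K + 1 + c)) ∧ Act A n (wc A n e' A.K) ∧
      (rcs A n pr qs).map (cel A n e) = (rcs A n pr qs).map (cel A n e') := by
  have har : 2 < ar A n := by
    have := ar_lt (A := A) (i := 1) (p := 1) (by omega) (by omega : 1 < n)
    omega
  let e' : ℕ → Bool := fun x => if x = A.K * ar A n ∨ x = A.K * ar A n + 1 then true else e x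
  have hK := A.hK
  have hne : ∀ c, c ≠ A.K → ∀ a, a < ar A n → e' (c * ar A n + a) = e (c * ar A n + a) := by
    intro c hc a ha
    refine if_neg ?_
    have h1 := dv (i := c) ha
    have h2 := dv (i := A.K) (n := ar A n) (p := 0) (by omega)
    have h3 := dv (i := A.K) (n := ar A n) (p := 1) (by omega)
    rintro (h | h)
    · apply hc
      rw [← h1.1, ← h2.1, h, Nat.add_zero]
    · apply hc
      rw [← h1.1, ← h3.1, h]
  refine ⟨e', ?_, ?_, ?_⟩
  · simp only [lcs, List.map_append, List.map_cons, List.map_map]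
    congr 1
    · refine List.map_congr_left fun c hc => ?_
      rw [List.mem_range] at hc
      funext a
      simp only [Function.comp, cel, wc, ev_var]
      exact (hne c (by omega) a a.2).symm
    · congr 1
      · funext a
        simp only [cel, wc, e']
        by_cases ha : (a : ℕ) < 2
        · rw [if_pos ha, if_pos (by omega), ev_one]
        · rw [if_neg ha, if_neg (by omega), ev_var]
      · refine List.map_congr_left fun c hc => ?_
        rw [List.mem_range] at hc
        funext a
        simp only [Function.comp, cel, wc, ev_var]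
        exact (hne _ (by omega) a a.2).symm
  · intro a ha
    simp only [wc, e']
    rw [if_pos (by omega)]
  · refine List.map_congr_left fun T hT => ?_
    have hfr : ∀ p, p < n → cel A n e (frameT A n pr qs p) = cel A n e' (frameT A n pr qs p) := by
      intro p hp
      funext a
      simp only [cel, frameT]
      split
      · rw [ev_var, ev_var]
        simp only [e']
        rw [if_neg (by omega)]
      split
      · rw [ev_var, ev_var]
        refine (hne _ ?_ (n + p) ?_).symm
        · split <;> omega
        · have := ar_lt (A := A) (i := 1) (p := p) (by omega) hp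
          omega
      split
      · rw [ev_three, ev_three]
      split
      · simp only [zrow, ev_bc]
      · exact dat_ev _ _ _ _
    have hpad : cel A n e (padT A n pr qs) = cel A n e' (padT A n pr qs) := by
      funext a
      simp only [cel, padT]
      split
      · rw [ev_three, ev_three]
      split
      · simp only [zrow, ev_bc]
      · exact dat_ev _ _ _ _
    have hload : ∀ i, cel A n e (loadT A n pr qs i) = cel A n e' (loadT A n pr qs i) := by
      intro i
      funext a
      simp only [cel, loadT]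
      split
      · rw [ev_three, ev_three]
      split
      · rw [ev_var, ev_var]
        simp only [e']
        have : 3 * n ≤ (3 + i) * n := Nat.mul_le_mul_right _ (by omega)
        rw [if_neg (by omega)]
      · exact dat_ev _ _ _ _
    simp only [rcs, List.mem_append, List.mem_map, List.mem_replicate, frs, List.mem_filter,
      List.mem_range] at hT
    rcases hT with ⟨p, ⟨hp, _⟩, rfl⟩ | ⟨_, rfl⟩ | ⟨i, _, rfl⟩ | ⟨_, rfl⟩ | ⟨p, ⟨hp, _⟩, rfl⟩
    · exact hfr p hp
    · exact hpad
    · exact hload i
    · exact hpad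
    · exact hfr p hp

theorem frame_da (h2 : 2 ≤ n) (e : ℕ → Bool) (p : ℕ) :
    IsDa A n pr (cel A n e (frameT A n pr qs p)) (nx A pr qs p) := by
  intro a ha
  have h0 : a.1 ≠ 0 := by
    intro h; rw [h] at ha; simp at ha
  have h1 : a.1 ≠ 1 := by
    intro h
    rw [h, Nat.div_eq_of_lt (by omega)] at ha
    omega
  simp only [cel, frameT]
  rw [if_neg h0, if_neg h1, if_neg (by omega), if_neg (by omega)]
  exact dat_ev _ _ _ _

theorem pad_da (e : ℕ → Bool) : IsDa A n pr (cel A n e (padT A n pr qs)) qs := by
  intro a ha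
  simp only [cel, padT]
  rw [if_neg (by omega), if_neg (by omega)]
  exact dat_ev _ _ _ _

theorem load_da (e : ℕ → Bool) (i : ℕ) : IsDa A n pr (cel A n e (loadT A n pr qs i)) qs := by
  intro a ha
  simp only [cel, loadT]
  rw [if_neg (by omega), if_neg (by omega)]
  exact dat_ev _ _ _ _

theorem frame_sy (h2 : 2 ≤ n) (e : ℕ → Bool) (p : ℕ) :
    IsSy A n pr (cel A n e (frameT A n pr qs p)) A.z := by
  intro a ha
  have h0 : a.1 ≠ 0 := by
    intro h; rw [h] at ha; simp at ha
  have h1 : a.1 ≠ 1 := by
    intro h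
    rw [h, Nat.div_eq_of_lt (by omega)] at ha
    omega
  simp only [cel, frameT]
  rw [if_neg h0, if_neg h1, if_neg (by omega), if_pos ha]
  simp only [zrow, ev_bc]

theorem pad_sy (e : ℕ → Bool) : IsSy A n pr (cel A n e (padT A n pr qs)) A.z := by
  intro a ha
  simp only [cel, padT]
  rw [if_neg (by omega), if_pos ha]
  simp only [zrow, ev_bc]

theorem load_sy (h2 : 2 ≤ n) (e : ℕ → Bool) {q : S} (hq : IsDa A n pr (wc A n e A.K) q) {i : ℕ}
    (hi : i < A.L) :
    IsSy A n pr (cel A n e (loadT A n pr qs i)) ((A.spl q)[i]'(by rw [A.hL]; exact hi)) := by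
  intro a ha
  have hm : a.1 % n < n := Nat.mod_lt _ (by omega)
  simp only [cel, loadT]
  rw [if_neg (by omega), if_pos ha, ev_var]
  have h := hq ⟨(3 + i) * n + a.1 % n, ar_lt (by omega) hm⟩
    (by simp only [(dv (i := 3 + i) hm).1]; omega)
  simp only [wc] at h
  rw [h]
  simp only [dat, (dv (i := 3 + i) hm).1, (dv (i := 3 + i) hm).2]
  rw [if_neg (by omega), ev_bc, Nat.add_sub_cancel_left,
    List.getElem?_eq_getElem (by rw [A.hL]; exact hi)]
  simp only [Option.some.injEq, eq_comm]

theorem pad_act (h2 : 2 ≤ n) (e : ℕ → Bool) : ¬ Act A n (cel A n e (padT A n pr qs)) := by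
  intro h
  have h0 : 0 < ar A n := by
    have := ar_lt (A := A) (i := 0) (p := 0) (by omega) (by omega : 0 < n)
    omega
  have := h ⟨0, h0⟩ (by simp)
  simp [cel, padT, ev] at this

theorem load_act (h2 : 2 ≤ n) (e : ℕ → Bool) (i : ℕ) :
    ¬ Act A n (cel A n e (loadT A n pr qs i)) := by
  intro h
  have h0 : 0 < ar A n := by
    have := ar_lt (A := A) (i := 0) (p := 0) (by omega) (by omega : 0 < n)
    omega
  have := h ⟨0, h0⟩ (by simp)
  simp [cel, loadT, ev] at this

theorem frame_act (h2 : 2 ≤ n) (e : ℕ → Bool) {q : S} (hq : IsDa A n pr (wc A n e A.K) q)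
    {s : ℕ → Y} (hs : ∀ c, c ≤ 2 * A.K → IsSy A n pr (wc A n e c) (s c)) {p : ℕ} (hp : p < n) :
    Act A n (cel A n e (frameT A n pr qs p)) ↔
      pr p = (q, s (if A.dir q then 2 * A.K else 0)) := by
  have har : 1 < ar A n := by
    have := ar_lt (A := A) (i := 0) (p := 1) (by omega) (by omega : 1 < n)
    omega
  have e0 : cel A n e (frameT A n pr qs p) ⟨0, by omega⟩ = decide ((pr p).1 = q) := by
    have h := hq ⟨2 * n + p, ar_lt (by omega) hp⟩ (by simp only [(dv (i := 2) hp).1]; omega)
    simp only [wc] at h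
    simp only [cel, frameT, if_true, ev_var]
    rw [h]
    simp only [dat, (dv (i := 2) hp).1, (dv (i := 2) hp).2, if_true, ev_bc]
  have e1 : cel A n e (frameT A n pr qs p) ⟨1, har⟩ =
      decide ((pr p).2 = s (if A.dir (pr p).1 then 2 * A.K else 0)) := by
    have h := hs (if A.dir (pr p).1 then 2 * A.K else 0) (by split <;> omega)
      ⟨1 * n + p, ar_lt (by omega) hp⟩ (by simp only [(dv (i := 1) hp).1])
    simp only [wc, (dv (i := 1) hp).2] at h
    rw [Nat.one_mul] at h
    simp only [cel, frameT, if_true, ev_var, one_ne_zero, if_false]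
    exact h
  constructor
  · intro h
    have h0 := h ⟨0, by omega⟩ (by simp)
    have h1 := h ⟨1, har⟩ (by simp)
    rw [e0] at h0
    rw [e1] at h1
    simp only [decide_eq_true_eq] at h0 h1
    rw [h0] at h1
    exact Prod.ext h0 h1
  · intro h a ha
    have h3 : a.1 = 0 ∨ a.1 = 1 := by omega
    rcases h3 with h3 | h3
    · have : a = ⟨0, by omega⟩ := Fin.ext h3
      rw [this, e0, h]
      simp
    · have : a = ⟨1, har⟩ := Fin.ext h3
      rw [this, e1, h]
      simp

theorem rcs_da (h2 : 2 ≤ n) (e : ℕ → Bool) : ∀ c ∈ (rcs A n pr qs).map (cel A n e),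
    ∃ q, IsDa A n pr c q := by
  intro c hc
  simp only [rcs, List.map_append, List.map_map, List.mem_append, List.mem_map, List.map_replicate,
    List.mem_replicate, Function.comp] at hc
  rcases hc with ⟨p, _, rfl⟩ | ⟨_, rfl⟩ | ⟨i, _, rfl⟩ | ⟨_, rfl⟩ | ⟨p, _, rfl⟩
  · exact ⟨_, frame_da h2 e p⟩
  · exact ⟨_, pad_da e⟩
  · exact ⟨_, load_da e i⟩
  · exact ⟨_, pad_da e⟩
  · exact ⟨_, frame_da h2 e p⟩

theorem rcs_sy (h2 : 2 ≤ n) (e : ℕ → Bool) {q : S} (hq : IsDa A n pr (wc A n e A.K) q) :
    ∀ c ∈ (rcs A n pr qs).map (cel A n e), ∃ s, IsSy A n pr c s := by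
  intro c hc
  simp only [rcs, List.map_append, List.map_map, List.mem_append, List.mem_map, List.map_replicate,
    List.mem_replicate, Function.comp, List.mem_range] at hc
  rcases hc with ⟨p, _, rfl⟩ | ⟨_, rfl⟩ | ⟨i, hi, rfl⟩ | ⟨_, rfl⟩ | ⟨p, _, rfl⟩
  · exact ⟨_, frame_sy h2 e p⟩
  · exact ⟨_, pad_sy e⟩
  · exact ⟨_, load_sy h2 e hq hi⟩
  · exact ⟨_, pad_sy e⟩
  · exact ⟨_, frame_sy h2 e p⟩

theorem mem_frs {d : Bool} {p : ℕ} : p ∈ frs A n pr d ↔
    p < n ∧ (A.δ (pr p).1 (pr p).2).map A.dir = some d := by
  simp [frs]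

theorem rcs_none (h2 : 2 ≤ n) (e : ℕ → Bool) {q : S} (hq : IsDa A n pr (wc A n e A.K) q)
    {s : ℕ → Y} (hs : ∀ c, c ≤ 2 * A.K → IsSy A n pr (wc A n e c) (s c))
    (hδ : A.δ q (s (if A.dir q then 2 * A.K else 0)) = none) :
    ∀ c ∈ (rcs A n pr qs).map (cel A n e), ¬ Act A n c := by
  have hfr : ∀ d p, p ∈ frs A n pr d → ¬ Act A n (cel A n e (frameT A n pr qs p)) := by
    intro d p hp h
    rw [mem_frs] at hp
    rw [frame_act h2 e hq hs hp.1] at h
    rw [h, hδ] at hp
    simp at hp
  intro c hc
  simp only [rcs, List.map_append, List.map_map, List.mem_append, List.mem_map, List.map_replicate,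
    List.mem_replicate, Function.comp, List.mem_range] at hc
  rcases hc with ⟨p, hp, rfl⟩ | ⟨_, rfl⟩ | ⟨i, hi, rfl⟩ | ⟨_, rfl⟩ | ⟨p, hp, rfl⟩
  · exact hfr _ p hp
  · exact pad_act h2 e
  · exact load_act h2 e i
  · exact pad_act h2 e
  · exact hfr _ p hp

theorem map_const {α β : Type} (f : α → β) (b : β) (l : List α) (h : ∀ x ∈ l, f x = b) :
    l.map f = List.replicate l.length b := by
  rw [List.eq_replicate_iff]
  refine ⟨by simp, ?_⟩
  intro y hy
  rw [List.mem_map] at hy
  obtain ⟨x, hx, rfl⟩ := hy
  exact h x hx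

theorem rcs_letters (h2 : 2 ≤ n) (hn : n < A.K) (hsur : ∀ x, ∃ p < n, pr p = x)
    (hinj : ∀ p < n, ∀ p' < n, pr p = pr p' → p = p')
    (e : ℕ → Bool) {q : S} (hq : IsDa A n pr (wc A n e A.K) q)
    {s : ℕ → Y} (hs : ∀ c, c ≤ 2 * A.K → IsSy A n pr (wc A n e c) (s c)) {q' : S}
    (hδ : A.δ q (s (if A.dir q then 2 * A.K else 0)) = some q') :
    ∃ l1' l2' : List Y, ((rcs A n pr qs).map (cel A n e)).map (letter A n pr) =
      l1'.map .ps ++ .hd (some q') :: l2'.map .ps ∧
      A.Fire (q, bs ((List.range A.K).map s).reverse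
        ((List.range A.K).map (fun c => s (A.K + 1 + c)))) (q', bs l1'.reverse l2') := by
  set j := s (if A.dir q then 2 * A.K else 0) with hj
  obtain ⟨p0, hp0, hpr0⟩ := hsur (q, j)
  have hK := A.hK
  -- letters
  have f1 : ∀ p, p < n → p ≠ p0 → letter A n pr (cel A n e (frameT A n pr qs p)) = .ps A.z := by
    intro p hp hne
    refine letter_pas hsur (frame_da h2 e p) (frame_sy h2 e p) ?_
    rw [frame_act h2 e hq hs hp]
    intro h
    exact hne (hinj p hp p0 hp0 (h.trans hpr0.symm))
  have f0 : letter A n pr (cel A n e (frameT A n pr qs p0)) = .hd (some q') := by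
    have hnx : nx A pr qs p0 = q' := by
      simp only [nx, hpr0, hδ, Option.getD_some]
    have h := frame_da (A := A) (pr := pr) (qs := qs) h2 e p0
    rw [hnx] at h
    refine letter_act hsur h (frame_sy h2 e p0) ?_
    rw [frame_act h2 e hq hs hp0]
    exact hpr0
  have f3 : (letter A n pr ∘ cel A n e) (padT A n pr qs) = .ps A.z :=
    letter_pas hsur (pad_da e) (pad_sy e) (pad_act h2 e)
  have f4 : (List.range A.L).map (letter A n pr ∘ cel A n e ∘ loadT A n pr qs) =
      (A.spl q).map .ps := by
    refine List.ext_getElem (by simp [A.hL]) ?_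
    intro i h1 h3
    simp only [List.length_map, List.length_range] at h1
    simp only [List.getElem_map, List.getElem_range, Function.comp]
    exact letter_pas hsur (load_da e i) (load_sy h2 e hq h1) (load_act h2 e i)
  have hmem0 : p0 ∈ frs A n pr (A.dir q') := by
    rw [mem_frs, hpr0]
    exact ⟨hp0, by rw [hδ]; rfl⟩
  have hmem1 : p0 ∉ frs A n pr (!A.dir q') := by
    rw [mem_frs, hpr0, hδ]
    rintro ⟨_, h⟩
    simp at h
  have g1 : (frs A n pr (!A.dir q')).map (letter A n pr ∘ cel A n e ∘ frameT A n pr qs) =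
      List.replicate (frs A n pr (!A.dir q')).length (.ps A.z) := by
    refine map_const _ _ _ fun p hp => ?_
    refine f1 p (mem_frs.1 hp).1 ?_
    rintro rfl
    exact hmem1 hp
  obtain ⟨A1, A2, hA⟩ := List.append_of_mem hmem0
  have hnd : (frs A n pr (A.dir q')).Nodup := List.nodup_range.filter _
  have g2 : (frs A n pr (A.dir q')).map (letter A n pr ∘ cel A n e ∘ frameT A n pr qs) =
      List.replicate A1.length (.ps A.z) ++ .hd (some q') ::
        List.replicate A2.length (.ps A.z) := by
    have hnd' := hnd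
    rw [hA] at hnd'
    rw [hA, List.map_append, List.map_cons]
    have h3 : ∀ p ∈ A1, p ≠ p0 := by
      rintro p hp rfl
      exact (List.nodup_append.1 hnd').2.2 p hp p (by simp) rfl
    have h4 : ∀ p ∈ A2, p ≠ p0 := by
      rintro p hp rfl
      exact (List.nodup_cons.1 (List.nodup_append.1 hnd').2.1).1 hp
    have h5 : ∀ p ∈ A1, p < n := fun p hp => (mem_frs.1 (by rw [hA]; simp [hp])).1
    have h6 : ∀ p ∈ A2, p < n := fun p hp => (mem_frs.1 (by rw [hA]; simp [hp])).1
    rw [map_const (letter A n pr ∘ cel A n e ∘ frameT A n pr qs) _ A1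
        (fun p hp => f1 p (h5 p hp) (h3 p hp)),
      map_const (letter A n pr ∘ cel A n e ∘ frameT A n pr qs) _ A2
        (fun p hp => f1 p (h6 p hp) (h4 p hp))]
    congr 2
  have hlen : ∀ d, (frs A n pr d).length ≤ n := by
    intro d
    have := List.length_filter_le (fun p => decide ((A.δ (pr p).1 (pr p).2).map A.dir = some d))
      (List.range n)
    rw [List.length_range] at this
    exact this
  have hlA : A1.length + (A2.length + 1) ≤ n := by
    have := hlen (A.dir q')
    rw [hA] at this
    simpa using this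
  have hread : ((bs ((List.range A.K).map s).reverse
      ((List.range A.K).map (fun c => s (A.K + 1 + c)))) (A.dir q))[A.K - 1]? = some j := by
    cases hd : A.dir q with
    | true =>
      rw [bs_true, List.getElem?_map, List.getElem?_range (by omega), hj, hd]
      simp only [Option.map_some, if_true]
      congr 2
      omega
    | false =>
      rw [bs_false, List.getElem?_reverse (by simp; omega), hj, hd]
      simp only [List.length_map, List.length_range, Nat.sub_self, List.getElem?_map]
      rw [List.getElem?_range (by omega)]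
      simp
  cases hd : A.dir q' with
  | true =>
    rw [hd] at g1 g2 hA
    simp only [Bool.not_true] at g1
    refine ⟨List.replicate (frs A n pr false).length A.z ++ (List.replicate (3 * A.K) A.z ++
      (A.spl q ++ (List.replicate (3 * A.K) A.z ++ List.replicate A1.length A.z))),
      List.replicate A2.length A.z, ?_, ?_⟩
    · simp only [rcs, List.map_append, List.map_map] at g1 g2 ⊢
      rw [g1, g2, f4]
      simp only [List.map_replicate, f3, List.append_assoc]
    · refine ⟨by simp [bs], by simp [bs], j, hread, hδ, A2.length, by omega,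
        A1.length + 3 * A.K, 3 * A.K + (frs A n pr false).length, by omega, by omega, by omega,
        by have := hlen false; omega, ?_, ?_⟩
      · simp only [hd, bs_true]
        rw [List.drop_eq_nil_of_le (by simp), List.append_nil]
      · simp only [hd, Bool.not_true, bs_false, ori, if_true]
        rw [List.drop_eq_nil_of_le (by simp), List.append_nil, List.replicate_add,
          List.replicate_add]
        simp only [List.reverse_append, List.reverse_replicate, List.append_assoc]
  | false =>
    rw [hd] at g1 g2 hA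
    simp only [Bool.not_false] at g1
    refine ⟨List.replicate A1.length A.z, List.replicate A2.length A.z ++
      (List.replicate (3 * A.K) A.z ++ (A.spl q ++ (List.replicate (3 * A.K) A.z ++
        List.replicate (frs A n pr true).length A.z))), ?_, ?_⟩
    · simp only [rcs, List.map_append, List.map_map] at g1 g2 ⊢
      rw [g1, g2, f4]
      simp only [List.map_replicate, f3, List.append_assoc, List.cons_append]
    · refine ⟨by simp [bs], by simp [bs], j, hread, hδ, A1.length, by omega,
        A2.length + 3 * A.K, 3 * A.K + (frs A n pr true).length, by omega, by omega, by omega,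
        by have := hlen true; omega, ?_, ?_⟩
      · simp only [hd, bs_false]
        rw [List.drop_eq_nil_of_le (by simp), List.append_nil, List.reverse_replicate]
      · simp only [hd, Bool.not_false, bs_true, ori, Bool.false_eq_true, if_false]
        rw [List.drop_eq_nil_of_le (by simp), List.append_nil, List.replicate_add,
          List.replicate_add]
        simp only [List.append_assoc]

end Sem

end Pool.Agent.Helper462.OneRule
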