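import Pool.Agent.Helper462.OneRule.Cell

set_option autoImplicit false
set_option linter.unusedSectionVars false

/-! The step relation on words of cells is well founded if the one on words of letters is, and steps
of a single good head can be performed on words of cells. -/

namespace Pool.Agent.Helper462.OneRule

open LowM

variable {S Y : Type} [DecidableEq S] [DecidableEq Y] {A : LowM S Y} {n : ℕ} {pr : ℕ → S × Y}
  {qs : S}

open Classical in
/-- cells without state -/
noncomputable def g1 (A : LowM S Y) (n : ℕ) (pr : ℕ → S × Y) (w : List (Cel A n)) : ℕ :=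
  w.countP (fun c => decide (¬ ∃ q, IsDa A n pr c q))

open Classical in
/-- cells without symbol -/
noncomputable def g2 (A : LowM S Y) (n : ℕ) (pr : ℕ → S × Y) (w : List (Cel A n)) : ℕ :=
  w.countP (fun c => decide (¬ ∃ s, IsSy A n pr c s))

open Classical in
/-- active cells -/
noncomputable def g3 (A : LowM S Y) (n : ℕ) (w : List (Cel A n)) : ℕ :=
  w.countP (fun c => decide (Act A n c))

theorem act_count (hsur : ∀ x, ∃ p < n, pr p = x) (w : List (Cel A n))
    (h : ∀ c ∈ w, (∃ q, IsDa A n pr c q) ∧ ∃ s, IsSy A n pr c s) :
    g3 A n w = nh (w.map (letter A n pr)) := by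
  classical
  unfold g3
  induction w with
  | nil => rfl
  | cons c w ih =>
    obtain ⟨⟨q, hq⟩, s, hs⟩ := h c (by simp)
    have ih' := ih (fun c hc => h c (List.mem_cons_of_mem _ hc))
    by_cases hc : Act A n c
    · rw [List.countP_cons_of_pos (by simpa using hc), List.map_cons, letter_act hsur hq hs hc, ih']
      rfl
    · rw [List.countP_cons_of_neg (by simpa using hc), List.map_cons, letter_pas hsur hq hs hc, ih']
      rfl

theorem nh_two (l1 l2 : List Y) (q : Option S) :
    nh (l1.map Lt.ps ++ Lt.hd q :: l2.map Lt.ps) = 1 := by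
  rw [nh_ps]
  simp only [nh]
  have := nh_ps (S := S) l2 []
  rw [List.append_nil] at this
  rw [this]
  rfl

theorem cstep_cases (h2 : 2 ≤ n) (hn : n < A.K) (hsur : ∀ x, ∃ p < n, pr p = x)
    (hinj : ∀ p < n, ∀ p' < n, pr p = pr p' → p = p') {w w' : List (Cel A n)}
    (h : CStep A n pr qs w w') :
    g1 A n pr w' < g1 A n pr w ∨ (g1 A n pr w' = g1 A n pr w ∧
      (g2 A n pr w' < g2 A n pr w ∨ (g2 A n pr w' = g2 A n pr w ∧
        (g3 A n w' < g3 A n w ∨ (g3 A n w' = g3 A n w ∧
          A.LStep (w.map (letter A n pr)) (w'.map (letter A n pr))))))) := by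
  classical
  obtain ⟨u, v, e0, rfl, rfl⟩ := h
  obtain ⟨e, E1, hact, E2⟩ := lcs_map (A := A) (n := n) (pr := pr) (qs := qs) h2 e0
  rw [E1, E2]
  clear E1 E2
  set W : List (Cel A n) := (List.range A.K).map (wc A n e) ++ wc A n e A.K ::
        (List.range A.K).map (fun c => wc A n e (A.K + 1 + c)) with hWdef
  set R := (rcs A n pr qs).map (cel A n e) with hRdef
  have a1 : ∀ X : List (Cel A n), g1 A n pr (u ++ (X ++ v)) = g1 A n pr u + (g1 A n pr X + g1 A n pr v) := by
    intro X; simp only [g1, List.countP_append]
  have a2 : ∀ X : List (Cel A n), g2 A n pr (u ++ (X ++ v)) = g2 A n pr u + (g2 A n pr X + g2 A n pr v) := by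
    intro X; simp only [g2, List.countP_append]
  have a3 : ∀ X : List (Cel A n), g3 A n (u ++ (X ++ v)) = g3 A n u + (g3 A n X + g3 A n v) := by
    intro X; simp only [g3, List.countP_append]
  simp only [a1, a2, a3]
  have hmem : ∀ c, c ≤ 2 * A.K → wc A n e c ∈ W := by
    intro c hc
    rw [hWdef]
    simp only [List.mem_append, List.mem_map, List.mem_range, List.mem_cons]
    rcases Nat.lt_trichotomy c A.K with h | h | h
    · exact Or.inl ⟨c, h, rfl⟩
    · rw [h]; exact Or.inr (Or.inl rfl)
    · exact Or.inr (Or.inr ⟨c - A.K - 1, by omega, by congr 1; omega⟩)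
  have r1 : g1 A n pr R = 0 := by
    simp only [g1, List.countP_eq_zero]
    intro c hc
    have := rcs_da (A := A) (n := n) (pr := pr) (qs := qs) h2 e c hc
    simpa using this
  by_cases hW1 : g1 A n pr W = 0
  swap
  · left; omega
  right
  refine ⟨by omega, ?_⟩
  have hda : ∀ c ∈ W, ∃ q, IsDa A n pr c q := by
    intro c hc
    have := (List.countP_eq_zero.1 hW1) c hc
    simpa using this
  obtain ⟨q, hq⟩ := hda _ (hmem A.K (by omega))
  have r2 : g2 A n pr R = 0 := by
    simp only [g2, List.countP_eq_zero]
    intro c hc
    have := rcs_sy (A := A) (n := n) (pr := pr) (qs := qs) h2 e hq c hc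
    simpa using this
  by_cases hW2 : g2 A n pr W = 0
  swap
  · left; omega
  right
  refine ⟨by omega, ?_⟩
  have hsy : ∀ c ∈ W, ∃ q, IsSy A n pr c q := by
    intro c hc
    have := (List.countP_eq_zero.1 hW2) c hc
    simpa using this
  have hsy' : ∀ c, ∃ y, c ≤ 2 * A.K → IsSy A n pr (wc A n e c) y := by
    intro c
    by_cases hc : c ≤ 2 * A.K
    · obtain ⟨y, hy⟩ := hsy _ (hmem c hc)
      exact ⟨y, fun _ => hy⟩
    · obtain ⟨y, hy⟩ := hsy _ (hmem A.K (by omega))
      exact ⟨y, fun h => absurd h hc⟩
  choose s hs using hsy'
  have hWc : g3 A n W = g3 A n ((List.range A.K).map (wc A n e)) +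
      (g3 A n ((List.range A.K).map (fun c => wc A n e (A.K + 1 + c))) + 1) := by
    rw [hWdef]
    simp only [g3, List.countP_append]
    rw [List.countP_cons_of_pos (by simpa using hact)]
  cases hδ : A.δ q (s (if A.dir q then 2 * A.K else 0)) with
  | none =>
    left
    have r3 : g3 A n R = 0 := by
      simp only [g3, List.countP_eq_zero]
      intro c hc
      have := rcs_none (A := A) (n := n) (pr := pr) (qs := qs) h2 e hq hs hδ c hc
      simpa using this
    omega
  | some q' =>
    obtain ⟨l1', l2', hl, hf⟩ := rcs_letters (A := A) (n := n) (pr := pr) (qs := qs) h2 hn hsur hinj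
      e hq hs hδ
    have r3 : g3 A n R = 1 := by
      rw [act_count hsur R, hl, nh_two]
      intro c hc
      exact ⟨rcs_da h2 e c hc, rcs_sy h2 e hq c hc⟩
    by_cases hW3 : g3 A n W = 1
    swap
    · left; omega
    right
    refine ⟨by omega, ?_⟩
    have c1 : g3 A n ((List.range A.K).map (wc A n e)) = 0 := by omega
    have c2 : g3 A n ((List.range A.K).map (fun c => wc A n e (A.K + 1 + c))) = 0 := by omega
    have d1 : ∀ c, c < A.K → letter A n pr (wc A n e c) = .ps (s c) := by
      intro c hc
      have hna : ¬ Act A n (wc A n e c) := by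
        have := (List.countP_eq_zero.1 c1) (wc A n e c)
          (List.mem_map.2 ⟨c, List.mem_range.2 hc, rfl⟩)
        simpa using this
      obtain ⟨qc, hqc⟩ := hda _ (hmem c (by omega))
      exact letter_pas hsur hqc (hs c (by omega)) hna
    have d2 : ∀ c, c < A.K → letter A n pr (wc A n e (A.K + 1 + c)) = .ps (s (A.K + 1 + c)) := by
      intro c hc
      have hna : ¬ Act A n (wc A n e (A.K + 1 + c)) := by
        have := (List.countP_eq_zero.1 c2) (wc A n e (A.K + 1 + c))
          (List.mem_map.2 ⟨c, List.mem_range.2 hc, rfl⟩)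
        simpa using this
      obtain ⟨qc, hqc⟩ := hda _ (hmem (A.K + 1 + c) (by omega))
      exact letter_pas hsur hqc (hs (A.K + 1 + c) (by omega)) hna
    have hWl : W.map (letter A n pr) = ((List.range A.K).map s).map .ps ++
        .hd (some q) :: ((List.range A.K).map (fun c => s (A.K + 1 + c))).map .ps := by
      rw [hWdef, List.map_append, List.map_cons, List.map_map, List.map_map, List.map_map,
        List.map_map, letter_act hsur hq (hs A.K (by omega)) hact]
      congr 1
      · refine List.map_congr_left fun c hc => ?_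
        exact d1 c (List.mem_range.1 hc)
      · congr 1
        refine List.map_congr_left fun c hc => ?_
        exact d2 c (List.mem_range.1 hc)
    refine ⟨u.map (letter A n pr), v.map (letter A n pr), q, q', _, _, l1', l2', ?_, ?_, hf⟩
    · rw [List.map_append, List.map_append, hWl]
      simp only [List.append_assoc, List.cons_append]
    · rw [List.map_append, List.map_append, hl]
      simp only [List.append_assoc, List.cons_append]

/-- words of cells have no infinite runs -/
theorem wf_cstep (h2 : 2 ≤ n) (hn : n < A.K) (hsur : ∀ x, ∃ p < n, pr p = x)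
    (hinj : ∀ p < n, ∀ p' < n, pr p = pr p' → p = p')
    (hW : WellFounded (fun b a => A.LStep a b)) :
    WellFounded (fun b a => CStep A n pr qs a b) := by
  have hwf : WellFounded (Prod.Lex (fun a b : ℕ => a < b) (Prod.Lex (fun a b : ℕ => a < b)
      (Prod.Lex (fun a b : ℕ => a < b) (fun b a => A.LStep a b)))) :=
    WellFounded.prod_lex Nat.lt_wfRel.wf (WellFounded.prod_lex Nat.lt_wfRel.wf
      (WellFounded.prod_lex Nat.lt_wfRel.wf hW))
  refine Subrelation.wf ?_ (InvImage.wf (fun w : List (Cel A n) =>
    (g1 A n pr w, g2 A n pr w, g3 A n w, w.map (letter A n pr))) hwf)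
  intro w' w h
  simp only [InvImage, Prod.lex_def]
  exact cstep_cases h2 hn hsur hinj h

theorem lcs_eq (e : ℕ → Bool) (he : ∀ a, a < 2 → e (A.K * ar A n + a) = true) :
    (lcs A n).map (cel A n e) = (List.range A.K).map (wc A n e) ++ wc A n e A.K ::
        (List.range A.K).map (fun c => wc A n e (A.K + 1 + c)) := by
  simp only [lcs, List.map_append, List.map_cons, List.map_map]
  congr 1
  · refine List.map_congr_left fun c hc => ?_
    funext a
    simp only [Function.comp, cel, wc, ev_var]
  · congr 1
    · funext a
      simp only [cel, wc]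
      by_cases ha : (a : ℕ) < 2
      · rw [if_pos ha, he _ ha, ev_one]
      · rw [if_neg ha, ev_var]
    · refine List.map_congr_left fun c hc => ?_
      funext a
      simp only [Function.comp, cel, wc, ev_var]

/-- a good head can move -/
theorem cstep_forward (h2 : 2 ≤ n) (hn : n < A.K) (hsur : ∀ x, ∃ p < n, pr p = x)
    (hinj : ∀ p < n, ∀ p' < n, pr p = pr p' → p = p') {w : List (Cel A n)} {L1 L2 : List Y} {q : S}
    (hw : w.map (letter A n pr) = L1.map .ps ++ .hd (some q) :: L2.map .ps)
    (hl1 : A.K ≤ L1.length) (hl2 : A.K ≤ L2.length) {j : Y} {q' : S}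
    (hj : (bs L1.reverse L2 (A.dir q))[A.K - 1]? = some j) (hδ : A.δ q j = some q') :
    ∃ (w' : List (Cel A n)) (L1' L2' : List Y), CStep A n pr qs w w' ∧
      w'.map (letter A n pr) = L1'.map .ps ++ .hd (some q') :: L2'.map .ps ∧
      A.Fire (q, bs L1.reverse L2) (q', bs L1'.reverse L2') := by
  have hK := A.hK
  have har : 0 < ar A n := by
    have := ar_lt (A := A) (i := 0) (p := 0) (by omega) (by omega : 0 < n)
    omega
  obtain ⟨w1, w2', rfl, hw1, hw2'⟩ := List.map_eq_append_iff.1 hw
  obtain ⟨c0, w2, rfl, hc0, hw2⟩ := List.map_eq_cons_iff.1 hw2'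
  have len1 : w1.length = L1.length := by
    have := congrArg List.length hw1
    simpa using this
  have len2 : w2.length = L2.length := by
    have := congrArg List.length hw2
    simpa using this
  obtain ⟨hq, ⟨s0, hs0⟩, hact⟩ := of_letter_hd hc0
  -- window
  obtain ⟨u, X1, rfl, hX1⟩ : ∃ u X1, w1 = u ++ X1 ∧ X1.length = A.K :=
    ⟨w1.take (w1.length - A.K), w1.drop (w1.length - A.K), (List.take_append_drop _ _).symm,
      by rw [List.length_drop]; omega⟩
  obtain ⟨X2, v, rfl, hX2⟩ : ∃ X2 v, w2 = X2 ++ v ∧ X2.length = A.K :=
    ⟨w2.take A.K, w2.drop A.K, (List.take_append_drop _ _).symm,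
      by rw [List.length_take]; omega⟩
  obtain ⟨La, l1, rfl, hu, hx1⟩ : ∃ La l1, L1 = La ++ l1 ∧ u.map (letter A n pr) = La.map .ps ∧
      X1.map (letter A n pr) = l1.map .ps := by
    refine ⟨L1.take u.length, L1.drop u.length, (List.take_append_drop _ _).symm, ?_, ?_⟩
    · have := congrArg (List.take u.length) hw1
      rw [List.map_append, List.take_left' (by simp), ← List.map_take] at this
      exact this
    · have := congrArg (List.drop u.length) hw1
      rw [List.map_append, List.drop_left' (by simp), ← List.map_drop] at this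
      exact this
  obtain ⟨l2, Lb, rfl, hx2, hv⟩ : ∃ l2 Lb, L2 = l2 ++ Lb ∧ X2.map (letter A n pr) = l2.map .ps ∧
      v.map (letter A n pr) = Lb.map .ps := by
    refine ⟨L2.take X2.length, L2.drop X2.length, (List.take_append_drop _ _).symm, ?_, ?_⟩
    · have := congrArg (List.take X2.length) hw2
      rw [List.map_append, List.take_left' (by simp), ← List.map_take] at this
      exact this
    · have := congrArg (List.drop X2.length) hw2
      rw [List.map_append, List.drop_left' (by simp), ← List.map_drop] at this
      exact this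
  have k1 : l1.length = A.K := by
    have := congrArg List.length hx1
    rw [List.length_map, List.length_map] at this
    omega
  have k2 : l2.length = A.K := by
    have := congrArg List.length hx2
    rw [List.length_map, List.length_map] at this
    omega
  let e : ℕ → Bool := fun x => match (X1 ++ c0 :: X2)[x / ar A n]? with
    | some c => c ⟨x % ar A n, Nat.mod_lt _ har⟩
    | none => false
  have hwc : ∀ c d, (X1 ++ c0 :: X2)[c]? = some d → wc A n e c = d := by
    intro c d h
    funext a
    have h3 := dv (i := c) a.2
    have ha : (⟨(c * ar A n + a.1) % ar A n, Nat.mod_lt _ har⟩ : Fin (ar A n)) = a :=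
      Fin.ext h3.2
    simp only [wc, e]
    rw [h3.1, h]
    simp only [ha]
  have hwc1 : ∀ c (h : c < A.K), wc A n e c = X1[c]'(by omega) := by
    intro c h
    refine hwc c _ ?_
    rw [List.getElem?_append_left (by omega), List.getElem?_eq_getElem (by omega)]
  have hwcK : wc A n e A.K = c0 := by
    refine hwc _ _ ?_
    rw [List.getElem?_append_right (by omega), hX1]
    simp
  have hwc2 : ∀ c (h : c < A.K), wc A n e (A.K + 1 + c) = X2[c]'(by omega) := by
    intro c h
    refine hwc _ _ ?_
    rw [List.getElem?_append_right (by omega), hX1]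
    have : A.K + 1 + c - A.K = c + 1 := by omega
    rw [this, List.getElem?_cons_succ, List.getElem?_eq_getElem (by omega)]
  let s : ℕ → Y := fun c => (l1 ++ s0 :: l2).getD c s0
  have hs1 : ∀ c (h : c < A.K), s c = l1[c]'(by omega) := by
    intro c h
    simp only [s, List.getD]
    rw [List.getElem?_append_left (by omega), List.getElem?_eq_getElem (by omega)]
    rfl
  have hsK : s A.K = s0 := by
    simp only [s, List.getD]
    rw [List.getElem?_append_right (by omega), k1]
    simp
  have hs2 : ∀ c (h : c < A.K), s (A.K + 1 + c) = l2[c]'(by omega) := by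
    intro c h
    simp only [s, List.getD]
    rw [List.getElem?_append_right (by omega), k1]
    have : A.K + 1 + c - A.K = c + 1 := by omega
    rw [this, List.getElem?_cons_succ, List.getElem?_eq_getElem (by omega)]
    rfl
  have hlet1 : ∀ c (h : c < A.K), letter A n pr (X1[c]'(by omega)) = .ps (l1[c]'(by omega)) := by
    intro c h
    have := congrArg (fun l => l[c]?) hx1
    simp only [List.getElem?_map] at this
    rw [List.getElem?_eq_getElem (by omega), List.getElem?_eq_getElem (by omega)] at this
    simpa using this
  have hlet2 : ∀ c (h : c < A.K), letter A n pr (X2[c]'(by omega)) = .ps (l2[c]'(by omega)) := by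
    intro c h
    have := congrArg (fun l => l[c]?) hx2
    simp only [List.getElem?_map] at this
    rw [List.getElem?_eq_getElem (by omega), List.getElem?_eq_getElem (by omega)] at this
    simpa using this
  have hs : ∀ c, c ≤ 2 * A.K → IsSy A n pr (wc A n e c) (s c) := by
    intro c hc
    rcases Nat.lt_trichotomy c A.K with h | h | h
    · rw [hwc1 c h, hs1 c h]
      exact (of_letter_ps (hlet1 c h)).2.1
    · rw [h, hwcK, hsK]
      exact hs0
    · obtain ⟨d, rfl⟩ : ∃ d, c = A.K + 1 + d := ⟨c - A.K - 1, by omega⟩
      rw [hwc2 d (by omega), hs2 d (by omega)]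
      exact (of_letter_ps (hlet2 d (by omega))).2.1
  have hqK : IsDa A n pr (wc A n e A.K) q := by rw [hwcK]; exact hq
  have hr1 : (List.range A.K).map s = l1 := by
    refine List.ext_getElem (by simp [k1]) ?_
    intro i h1 h3
    simp only [List.getElem_map, List.getElem_range]
    exact hs1 i (by omega)
  have hr2 : (List.range A.K).map (fun c => s (A.K + 1 + c)) = l2 := by
    refine List.ext_getElem (by simp [k2]) ?_
    intro i h1 h3
    simp only [List.getElem_map, List.getElem_range]
    exact hs2 i (by omega)
  have hsj : s (if A.dir q then 2 * A.K else 0) = j := by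
    cases hd : A.dir q with
    | true =>
      rw [hd, bs_true, List.getElem?_append_left (by omega),
        List.getElem?_eq_getElem (by omega)] at hj
      have h3 := hs2 (A.K - 1) (by omega)
      have h4 : A.K + 1 + (A.K - 1) = 2 * A.K := by omega
      rw [h4] at h3
      simp only [if_true]
      rw [h3]
      simpa using hj
    | false =>
      rw [hd, bs_false, List.reverse_append, List.getElem?_append_left (by simp; omega),
        List.getElem?_reverse (by omega), k1] at hj
      have h4 : A.K - 1 - (A.K - 1) = 0 := by omega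
      rw [h4, List.getElem?_eq_getElem (by omega)] at hj
      simp only [Bool.false_eq_true, if_false]
      rw [hs1 0 hK]
      simpa using hj
  obtain ⟨l1', l2', hl, hf⟩ := rcs_letters (A := A) (n := n) (pr := pr) (qs := qs) h2 hn hsur hinj
    e hqK hs (q' := q') (by rw [hsj]; exact hδ)
  rw [hr1, hr2] at hf
  refine ⟨u ++ ((rcs A n pr qs).map (cel A n e) ++ v), La ++ l1', l2' ++ Lb, ⟨u, v, e, ?_, rfl⟩,
    ?_, ?_⟩
  · have he : ∀ a, a < 2 → e (A.K * ar A n + a) = true := by
      intro a ha
      have har2 : a < ar A n := by
        have := ar_lt (A := A) (i := 0) (p := a) (by omega) (by omega : a < n)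
        omega
      have h3 : wc A n e A.K ⟨a, har2⟩ = true := by
        rw [hwcK]; exact hact _ ha
      exact h3
    rw [lcs_eq e he]
    have e1 : (List.range A.K).map (wc A n e) = X1 := by
      refine List.ext_getElem (by simp [hX1]) ?_
      intro i h1 h3
      simp only [List.getElem_map, List.getElem_range]
      exact hwc1 i (by omega)
    have e2 : (List.range A.K).map (fun c => wc A n e (A.K + 1 + c)) = X2 := by
      refine List.ext_getElem (by simp [hX2]) ?_
      intro i h1 h3
      simp only [List.getElem_map, List.getElem_range]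
      exact hwc2 i (by omega)
    rw [e1, e2, hwcK]
    simp only [List.append_assoc, List.cons_append]
  · rw [List.map_append, List.map_append, hl, hu, hv]
    simp only [List.map_append, List.append_assoc, List.cons_append]
  · have := hf.ext (bs La.reverse Lb)
    convert this using 2
    · funext s
      cases s <;> simp [bs]
    · funext s
      cases s <;> simp [bs]

end Pool.Agent.Helper462.OneRule
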