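import Pool.Agent.Helper462.OneRule.Defs

set_option autoImplicit false

/-! Different terms over one signature have different codes. -/

namespace Pool.Agent.Helper462.OneRule

open Term

variable {σ : List ℕ}

theorem flat_inj : ∀ (n : ℕ) (ts ts' : Fin n → Term σ)
    (_ : ∀ (i : Fin n) (t' : Term σ) (x y : List ℕ), (ts i).code ++ x = t'.code ++ y →
      ts i = t' ∧ x = y) (x y : List ℕ),
    (List.ofFn fun i => (ts i).code).flatten ++ x = (List.ofFn fun i => (ts' i).code).flatten ++ y →
      ts = ts' ∧ x = y := by
  intro n
  induction n with
  | zero =>
    intro ts ts' _ x y h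
    refine ⟨funext fun i => Fin.elim0 i, ?_⟩
    simpa using h
  | succ n ihn =>
    intro ts ts' ih x y h
    rw [List.ofFn_succ, List.ofFn_succ, List.flatten_cons, List.flatten_cons, List.append_assoc,
      List.append_assoc] at h
    obtain ⟨h0, h1⟩ := ih 0 _ _ _ h
    obtain ⟨h2, h3⟩ := ihn (fun i => ts i.succ) (fun i => ts' i.succ) (fun i => ih i.succ) x y h1
    refine ⟨?_, h3⟩
    funext i
    induction i using Fin.cases with
    | zero => exact h0
    | succ i => exact congrFun h2 i

theorem code_append_inj (t : Term σ) : ∀ (t' : Term σ) (x y : List ℕ),
    t.code ++ x = t'.code ++ y → t = t' ∧ x = y := by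
  induction t with
  | var v =>
    intro t' x y h
    cases t' with
    | var v' =>
      simp only [Term.code, List.cons_append, List.nil_append, List.cons.injEq] at h
      refine ⟨?_, h.2⟩
      congr 1
      omega
    | app f' ts' =>
      simp only [Term.code, List.cons_append, List.cons.injEq] at h
      omega
  | app f ts ih =>
    intro t' x y h
    cases t' with
    | var v' =>
      simp only [Term.code, List.cons_append, List.cons.injEq] at h
      omega
    | app f' ts' =>
      simp only [Term.code, List.cons_append, List.cons.injEq] at h
      have hf : f = f' := Fin.ext (by omega)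
      subst hf
      obtain ⟨h1, h2⟩ := flat_inj _ ts ts' ih x y h.2
      exact ⟨by rw [h1], h2⟩

theorem code_injective : Function.Injective (Term.code : Term σ → List ℕ) := by
  intro t t' h
  exact (code_append_inj t t' [] [] (by rw [h])).1

end Pool.Agent.Helper462.OneRule
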