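import Pool.Agent.Helper462.OneRule.Main

set_option autoImplicit false
set_option linter.unusedSectionVars false

/-! The codes of the rules are computable. -/

namespace Pool.Agent.Helper462.OneRule

open Term LowM

noncomputable instance primcodable_tok : Primcodable Tok :=
  Primcodable.ofEquiv (Fin (Fintype.card Tok)) (Fintype.equivFin Tok)

theorem prim_replicate {α β : Type} [Primcodable α] [Primcodable β] {f : α → ℕ} (hf : Primrec f)
    (b : β) : Primrec (fun a => List.replicate (f a) b) := by
  have h : Primrec (fun a => (List.range (f a)).map (fun _ => b)) :=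
    Primrec.list_map (Primrec.list_range.comp hf) (Primrec.const b).to₂
  refine h.of_eq fun a => ?_
  rw [List.map_const', List.length_range]

theorem prim_table {β : Type} [Primcodable β] {n : ℕ} (hn : 0 < n) (f : ℕ → β) :
    Primrec (fun x : ℕ => f (x % n)) := by
  have h : Primrec (fun x : ℕ => ((List.range n).map f).getD (x % n) (f 0)) :=
    (Primrec.list_getD (f 0)).comp (Primrec.const _) (Primrec.nat_mod.comp Primrec.id
      (Primrec.const n))
  refine h.of_eq fun x => ?_
  have hx : x % n < n := Nat.mod_lt _ hn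
  simp only [List.getD, List.getElem?_map]
  rw [List.getElem?_range hx]
  rfl

theorem prim_flatMap_list {α β γ : Type} [Primcodable α] [Primcodable β] (l : List γ)
    (g : γ → α → List β) (hg : ∀ x, Primrec (g x)) : Primrec (fun a => l.flatMap (fun x => g x a)) := by
  induction l with
  | nil => exact Primrec.const []
  | cons x l ih =>
    have h : Primrec (fun a => g x a ++ l.flatMap (fun x => g x a)) :=
      Primrec.list_append.comp (hg x) ih
    refine h.of_eq fun a => ?_
    simp

section

variable {Q : Type} (M : Sys Q Bool) (q0 : Q) (K : ℕ)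

theorem tab_form (c : Ctl Q M.B) (t : Tok) : (∀ N, tab M q0 N c t = none) ∨
    ∃ (c' : Ctl Q M.B) (g : ℕ → ℕ) (out : List Tok), Primrec g ∧
      ∀ N, tab M q0 N c t = some (c', List.replicate (g N) (Tok.ctr true) ++ out) := by
  have hc : (∀ N, tab M q0 N c t = tab M q0 0 c t) →
      (∀ N, tab M q0 N c t = none) ∨
    ∃ (c' : Ctl Q M.B) (g : ℕ → ℕ) (out : List Tok), Primrec g ∧
      ∀ N, tab M q0 N c t = some (c', List.replicate (g N) (Tok.ctr true) ++ out) := by
    intro hx
    cases hy : tab M q0 0 c t with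
    | none => exact Or.inl (fun N => by rw [hx N, hy])
    | some x =>
      right
      exact ⟨x.1, fun _ => 0, x.2, Primrec.const 0, fun N => by rw [hx N, hy]; simp⟩
  cases c with
  | RS q r =>
    cases t with
    | E =>
      cases hn : M.nxt q r with
      | some q1 => exact hc (fun N => by simp only [tab, hn])
      | none =>
        right
        exact ⟨.LR, fun N => N, [.E], Primrec.id, fun N => by simp only [tab, hn]⟩
    | _ => exact hc (fun N => rfl)
  | LS q r c f =>
    cases t with
    | _ => exact hc (fun N => rfl)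
  | LR =>
    cases t with
    | _ => exact hc (fun N => rfl)

theorem prim_Lc : Primrec (fun N => Lc M N K) := by
  unfold Lc
  exact Primrec.nat_mul.comp (Primrec.nat_add.comp (Primrec.nat_add.comp Primrec.id
    (Primrec.const _)) (Primrec.const _)) (Primrec.const _)

theorem prim_spc (q : LSt (Ctl Q M.B)) : Primrec (fun N => spc M q0 N K q) := by
  have hz : Primrec (fun N => List.replicate (Lc M N K) (none : Sy)) :=
    prim_replicate (prim_Lc M K) none
  cases q with
  | scan c => exact hz
  | got c t => exact hz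
  | emit c t =>
    rcases tab_form M q0 c t with h | ⟨c', g, out, hg, h⟩
    · refine hz.of_eq fun N => ?_
      simp only [spc, h N]
    · have h1 : Primrec (fun N => List.replicate (g N) (Tok.ctr true) ++ out) :=
        Primrec.list_append.comp (prim_replicate hg _) (Primrec.const _)
      have h2 : Primrec (fun N => (List.replicate (g N) (Tok.ctr true) ++ out).flatMap
          (blk K (!c'.dir))) :=
        Primrec.list_flatMap h1 ((Primrec.dom_finite (blk K (!c'.dir))).comp Primrec.snd).to₂
      have h3 : Primrec (fun N => List.replicate (Lc M N K -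
          (List.replicate (g N) (Tok.ctr true) ++ out).length * (4 * K)) (none : Sy)) :=
        prim_replicate (Primrec.nat_sub.comp (prim_Lc M K)
          (Primrec.nat_mul.comp (Primrec.list_length.comp h1) (Primrec.const _))) none
      have h4 := Primrec.list_append.comp h2 h3
      cases hd : c'.dir with
      | true =>
        refine (Primrec.list_reverse.comp h4).of_eq fun N => ?_
        simp only [spc, h N, ori, hd, if_true]
      | false =>
        refine h4.of_eq fun N => ?_
        simp only [spc, h N, ori, hd, Bool.false_eq_true, if_false]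

variable (hK : 0 < K) [DecidableEq (LSt (Ctl Q M.B))] (n : ℕ) (pr : ℕ → LSt (Ctl Q M.B) × Sy)
  (qs : LSt (Ctl Q M.B))

theorem dl_indep (N : ℕ) (q : LSt (Ctl Q M.B)) (j : Sy) : dl M q0 N q j = dl M q0 0 q j := by
  have h : ∀ c t, (tab M q0 N c t).map (fun x => (LSt.scan x.1 : LSt (Ctl Q M.B))) =
      (tab M q0 0 c t).map (fun x => LSt.scan x.1) ∧
      (tab M q0 N c t).isSome = (tab M q0 0 c t).isSome := by
    intro c t
    rcases tab_form M q0 c t with h | ⟨c', g, out, hg, h⟩
    · rw [h N, h 0]
      exact ⟨rfl, rfl⟩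
    · rw [h N, h 0]
      exact ⟨rfl, rfl⟩
  cases q with
  | scan c =>
    rcases j with _ | ⟨t, s⟩
    · rfl
    · simp only [dl, (h c t).2]
  | got c t => rcases j with _ | ⟨t', s⟩ <;> rfl
  | emit c t =>
    rcases j with _ | ⟨t', s⟩
    · exact (h c t).1
    · rfl

theorem prim_ar : Primrec (fun N => ar (lowm M q0 N K hK) n) := by
  change Primrec (fun N => (Lc M N K + 3) * n)
  exact Primrec.nat_mul.comp (Primrec.nat_add.comp (prim_Lc M K) (Primrec.const _))
    (Primrec.const _)

theorem bc_dec (p : Prop) [Decidable p] : bc (decide p) = if p then 1 else 3 := by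
  by_cases h : p <;> simp [bc, h]

theorem prim_dat (hn : 0 < n) (q : LSt (Ctl Q M.B)) :
    Primrec (fun x : ℕ × ℕ => dat (lowm M q0 x.1 K hK) n pr q x.2) := by
  have h1 : Primrec (fun x : ℕ × ℕ => bc (decide ((pr (x.2 % n)).1 = q))) :=
    (prim_table hn (fun p => bc (decide ((pr p).1 = q)))).comp Primrec.snd
  have hdiv : Primrec (fun x : ℕ × ℕ => x.2 / n) :=
    Primrec.nat_div.comp Primrec.snd (Primrec.const n)
  have h2 : Primrec (fun x : ℕ × ℕ => (spc M q0 x.1 K q)[x.2 / n - 3]?) :=
    Primrec.list_getElem?.comp ((prim_spc M q0 K q).comp Primrec.fst)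
      (Primrec.nat_sub.comp hdiv (Primrec.const 3))
  have h3 : Primrec (fun x : ℕ × ℕ => some (pr (x.2 % n)).2) :=
    Primrec.option_some.comp ((prim_table hn (fun p => (pr p).2)).comp Primrec.snd)
  have h4 : Primrec (fun x : ℕ × ℕ => if (spc M q0 x.1 K q)[x.2 / n - 3]? =
      some (pr (x.2 % n)).2 then 1 else 3) :=
    Primrec.ite (Primrec.eq.comp h2 h3) (Primrec.const 1) (Primrec.const 3)
  have h5 : Primrec (fun x : ℕ × ℕ => if x.2 / n = 2 then bc (decide ((pr (x.2 % n)).1 = q)) else
      (if (spc M q0 x.1 K q)[x.2 / n - 3]? = some (pr (x.2 % n)).2 then 1 else 3)) :=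
    Primrec.ite (Primrec.eq.comp hdiv (Primrec.const 2)) h1 h4
  refine h5.of_eq fun x => ?_
  unfold dat
  rw [bc_dec (((lowm M q0 x.1 K hK).spl q)[x.2 / n - 3]? = some (pr (x.2 % n)).2)]
  rfl

theorem frs_indep (N : ℕ) (d : Bool) :
    frs (lowm M q0 N K hK) n pr d = frs (lowm M q0 0 K hK) n pr d := by
  have h : ∀ p, (lowm M q0 N K hK).δ (pr p).1 (pr p).2 =
      (lowm M q0 0 K hK).δ (pr p).1 (pr p).2 := fun p => dl_indep M q0 N _ _
  unfold frs
  simp only [h]
  rfl

theorem nx_indep (N p : ℕ) :
    nx (lowm M q0 N K hK) pr qs p = nx (lowm M q0 0 K hK) pr qs p := by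
  have h : ∀ p, (lowm M q0 N K hK).δ (pr p).1 (pr p).2 =
      (lowm M q0 0 K hK).δ (pr p).1 (pr p).2 := fun p => dl_indep M q0 N _ _
  unfold nx
  rw [h]

theorem prim_zrow (hn : 0 < n) :
    Primrec (fun x : ℕ × ℕ => zrow (lowm M q0 x.1 K hK) n pr x.2) :=
  (prim_table hn (fun p => bc (decide ((pr p).2 = none)))).comp Primrec.snd

theorem prim_frame (hn : 0 < n) (p : ℕ) :
    Primrec (fun x : ℕ × ℕ => frameT (lowm M q0 x.1 K hK) n pr qs p x.2) := by
  have hdiv : Primrec (fun x : ℕ × ℕ => x.2 / n) :=
    Primrec.nat_div.comp Primrec.snd (Primrec.const n)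
  have har : Primrec (fun x : ℕ × ℕ => ar (lowm M q0 x.1 K hK) n) :=
    (prim_ar M q0 K hK n).comp Primrec.fst
  have h0 : Primrec (fun x : ℕ × ℕ => 2 * (K * ar (lowm M q0 x.1 K hK) n + (2 * n + p))) :=
    Primrec.nat_mul.comp (Primrec.const 2) (Primrec.nat_add.comp
      (Primrec.nat_mul.comp (Primrec.const K) har) (Primrec.const _))
  have h1 : Primrec (fun x : ℕ × ℕ => 2 * ((if (pr p).1.ctl.dir then 2 * K else 0) *
      ar (lowm M q0 x.1 K hK) n + (n + p))) :=
    Primrec.nat_mul.comp (Primrec.const 2) (Primrec.nat_add.comp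
      (Primrec.nat_mul.comp (Primrec.const _) har) (Primrec.const _))
  have h := Primrec.ite (Primrec.eq.comp (Primrec.snd (α := ℕ) (β := ℕ)) (Primrec.const 0)) h0
    (Primrec.ite (Primrec.eq.comp Primrec.snd (Primrec.const 1)) h1
      (Primrec.ite (Primrec.eq.comp hdiv (Primrec.const 0)) (Primrec.const 3)
        (Primrec.ite (Primrec.eq.comp hdiv (Primrec.const 1)) (prim_zrow M q0 K hK n pr hn)
          (prim_dat M q0 K hK n pr hn (nx (lowm M q0 0 K hK) pr qs p)))))
  refine h.of_eq fun x => ?_
  unfold frameT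
  rw [nx_indep M q0 K hK pr qs x.1 p]
  rfl

theorem prim_pad (hn : 0 < n) :
    Primrec (fun x : ℕ × ℕ => padT (lowm M q0 x.1 K hK) n pr qs x.2) := by
  have hdiv : Primrec (fun x : ℕ × ℕ => x.2 / n) :=
    Primrec.nat_div.comp Primrec.snd (Primrec.const n)
  exact (Primrec.ite (Primrec.eq.comp hdiv (Primrec.const 0)) (Primrec.const 3)
        (Primrec.ite (Primrec.eq.comp hdiv (Primrec.const 1)) (prim_zrow M q0 K hK n pr hn)
          (prim_dat M q0 K hK n pr hn qs)))

theorem prim_load (hn : 0 < n) :
    Primrec (fun x : (ℕ × ℕ) × ℕ => loadT (lowm M q0 x.1.1 K hK) n pr qs x.1.2 x.2) := by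
  have hdiv : Primrec (fun x : (ℕ × ℕ) × ℕ => x.2 / n) :=
    Primrec.nat_div.comp Primrec.snd (Primrec.const n)
  have hmod : Primrec (fun x : (ℕ × ℕ) × ℕ => x.2 % n) :=
    Primrec.nat_mod.comp Primrec.snd (Primrec.const n)
  have har : Primrec (fun x : (ℕ × ℕ) × ℕ => ar (lowm M q0 x.1.1 K hK) n) :=
    (prim_ar M q0 K hK n).comp (Primrec.fst.comp Primrec.fst)
  have h1 : Primrec (fun x : (ℕ × ℕ) × ℕ => 2 * (K * ar (lowm M q0 x.1.1 K hK) n +
      ((3 + x.1.2) * n + x.2 % n))) :=
    Primrec.nat_mul.comp (Primrec.const 2) (Primrec.nat_add.comp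
      (Primrec.nat_mul.comp (Primrec.const K) har) (Primrec.nat_add.comp
        (Primrec.nat_mul.comp (Primrec.nat_add.comp (Primrec.const 3)
          (Primrec.snd.comp Primrec.fst)) (Primrec.const n)) hmod))
  have hd : Primrec (fun x : (ℕ × ℕ) × ℕ => dat (lowm M q0 x.1.1 K hK) n pr qs x.2) :=
    (prim_dat M q0 K hK n pr hn qs).comp
      (Primrec.pair (Primrec.fst.comp Primrec.fst) Primrec.snd)
  exact (Primrec.ite (Primrec.eq.comp hdiv (Primrec.const 0)) (Primrec.const 3)
        (Primrec.ite (Primrec.eq.comp hdiv (Primrec.const 1)) h1 hd))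

theorem prim_cell {α : Type} [Primcodable α] (m : α → ℕ) (hm : Primrec m) (f : α → ℕ → ℕ)
    (hf : Primrec (fun x : α × ℕ => f x.1 x.2)) :
    Primrec (fun N => 5 :: (List.range (m N)).map (f N)) :=
  Primrec.list_cons.comp (Primrec.const 5)
    (Primrec.list_map (Primrec.list_range.comp hm) hf.to₂)

theorem prim_yv : Primrec (fun N => [2 * yv (lowm M q0 N K hK) n]) := by
  have h : Primrec (fun N => 2 * ((2 * K + 1) * ar (lowm M q0 N K hK) n)) :=
    Primrec.nat_mul.comp (Primrec.const 2) (Primrec.nat_mul.comp (Primrec.const _)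
      (prim_ar M q0 K hK n))
  exact Primrec.list_cons.comp h (Primrec.const [])

theorem prim_lt : Primrec (fun N => (lt (lowm M q0 N K hK) n).code) := by
  have h1 : ∀ c : ℕ, Primrec (fun N => 5 :: (List.range (ar (lowm M q0 N K hK) n)).map
      (fun a => if c = K ∧ a < 2 then 1 else 2 * (c * ar (lowm M q0 N K hK) n + a))) := by
    intro c
    refine prim_cell _ (prim_ar M q0 K hK n) (fun N a => if c = K ∧ a < 2 then 1 else
      2 * (c * ar (lowm M q0 N K hK) n + a)) ?_
    have h2 : Primrec (fun x : ℕ × ℕ => 2 * (c * ar (lowm M q0 x.1 K hK) n + x.2)) :=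
      Primrec.nat_mul.comp (Primrec.const 2) (Primrec.nat_add.comp
        (Primrec.nat_mul.comp (Primrec.const c) ((prim_ar M q0 K hK n).comp Primrec.fst))
          Primrec.snd)
    by_cases hc : c = K
    · have h3 : Primrec (fun x : ℕ × ℕ => if x.2 < 2 then 1 else
          2 * (c * ar (lowm M q0 x.1 K hK) n + x.2)) :=
        Primrec.ite (Primrec.nat_lt.comp Primrec.snd (Primrec.const 2)) (Primrec.const 1) h2
      refine h3.of_eq fun x => ?_
      simp only [hc, true_and]
    · refine h2.of_eq fun x => ?_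
      simp only [hc, false_and, if_false]
  have h2 := Primrec.list_append.comp (prim_flatMap_list (List.range (2 * K + 1)) _ h1)
    (prim_yv M q0 K hK n)
  refine h2.of_eq fun N => ?_
  unfold lt
  rw [code_tt _ _ valid_lcs, lcs_range, List.flatMap_map]
  rfl

theorem prim_rt (hn : 0 < n) : Primrec (fun N => (rt (lowm M q0 N K hK) n pr qs).code) := by
  have hF : ∀ d, Primrec (fun N => (frs (lowm M q0 0 K hK) n pr d).flatMap (fun p =>
      5 :: (List.range (ar (lowm M q0 N K hK) n)).map (frameT (lowm M q0 N K hK) n pr qs p))) := by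
    intro d
    exact prim_flatMap_list _ _ (fun p => prim_cell _ (prim_ar M q0 K hK n) _
      (prim_frame M q0 K hK n pr qs hn p))
  have hP : Primrec (fun N => (List.range (3 * K)).flatMap (fun _ =>
      5 :: (List.range (ar (lowm M q0 N K hK) n)).map (padT (lowm M q0 N K hK) n pr qs))) :=
    prim_flatMap_list _ _ (fun _ => prim_cell _ (prim_ar M q0 K hK n) _
      (prim_pad M q0 K hK n pr qs hn))
  have hL : Primrec (fun N => (List.range (Lc M N K)).flatMap (fun i =>
      5 :: (List.range (ar (lowm M q0 N K hK) n)).map (loadT (lowm M q0 N K hK) n pr qs i))) := by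
    refine Primrec.list_flatMap (Primrec.list_range.comp (prim_Lc M K)) ?_
    exact (prim_cell (fun x : ℕ × ℕ => ar (lowm M q0 x.1 K hK) n)
      ((prim_ar M q0 K hK n).comp Primrec.fst)
      (fun x a => loadT (lowm M q0 x.1 K hK) n pr qs x.2 a)
      (prim_load M q0 K hK n pr qs hn)).to₂
  have h := Primrec.list_append.comp (Primrec.list_append.comp (hF false)
    (Primrec.list_append.comp hP (Primrec.list_append.comp hL
      (Primrec.list_append.comp hP (hF true))))) (prim_yv M q0 K hK n)
  refine h.of_eq fun N => ?_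
  unfold rt
  rw [code_tt _ _ valid_rcs]
  unfold rcs
  rw [frs_indep M q0 K hK n pr N, frs_indep M q0 K hK n pr N]
  have hr : ∀ (k : ℕ) (T : ℕ → ℕ) (f : (ℕ → ℕ) → List ℕ),
      (List.replicate k T).flatMap f = (List.range k).flatMap (fun _ => f T) := by
    intro k T f
    rw [List.flatMap_def, List.flatMap_def, List.map_replicate, List.map_const',
      List.length_range]
  simp only [List.flatMap_append, List.flatMap_map, hr]
  rfl

end

/-- the map from numbers to coded rules -/
theorem exists_rules : ∃ (m : ℕ → ℕ) (l r : ∀ k, Term (sg (m k))),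
    Computable (fun k => (sg (m k), (l k).code, (r k).code)) ∧
    (∀ k, IsRule (l k) (r k) ∧ Linear (l k) ∧ Linear (r k)) ∧
    ¬ ComputablePred (fun k => ¬ Terminating (l k) (r k)) := by
  classical
  obtain ⟨Q, hQ, M, q0, N, _, hN, hU⟩ := exists_sys
  let S := LSt (Ctl Q M.B)
  have hfin : Finite (S × Sy) := inferInstance
  let n := Nat.card (S × Sy)
  let eq : S × Sy ≃ Fin n := Finite.equivFin (S × Sy)
  let qs : S := .scan .LR
  let pr : ℕ → S × Sy := fun p => if h : p < n then eq.symm ⟨p, h⟩ else (qs, none)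
  have hsur : ∀ x, ∃ p < n, pr p = x := by
    intro x
    refine ⟨(eq x).1, (eq x).2, ?_⟩
    simp only [pr, dif_pos (eq x).2]
    exact eq.symm_apply_apply x
  have hinj : ∀ p < n, ∀ p' < n, pr p = pr p' → p = p' := by
    intro p hp p' hp' h
    simp only [pr, dif_pos hp, dif_pos hp'] at h
    have := eq.symm.injective h
    simpa using this
  have h2 : 2 ≤ n := by
    obtain ⟨p, hp, e1⟩ := hsur (qs, none)
    obtain ⟨p', hp', e2⟩ := hsur (qs, some (Tok.U, true))
    have hne : p ≠ p' := by
      rintro rfl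
      rw [e1] at e2
      simp at e2
    omega
  have hK : 0 < n + 1 := by omega
  refine ⟨fun k => ar (lowm M q0 (N k) (n + 1) hK) n, fun k => lt (lowm M q0 (N k) (n + 1) hK) n,
    fun k => rt (lowm M q0 (N k) (n + 1) hK) n pr qs, ?_, ?_, ?_⟩
  · have h1 : Primrec (fun N => sg (ar (lowm M q0 N (n + 1) hK) n)) :=
      Primrec.list_cons.comp (Primrec.const 0) (Primrec.list_cons.comp (Primrec.const 0)
        (Primrec.list_cons.comp (Primrec.succ.comp (prim_ar M q0 (n + 1) hK n))
          (Primrec.const [])))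
    have h3 : Primrec (fun N => (sg (ar (lowm M q0 N (n + 1) hK) n),
        (lt (lowm M q0 N (n + 1) hK) n).code, (rt (lowm M q0 N (n + 1) hK) n pr qs).code)) :=
      Primrec.pair h1 (Primrec.pair (prim_lt M q0 (n + 1) hK n)
        (prim_rt M q0 (n + 1) hK n pr qs (by omega)))
    exact h3.to_comp.comp hN
  · intro k
    refine ⟨isRule h2, linear_lt ?_, linear_rt h2⟩
    have := ar_lt (A := lowm M q0 (N k) (n + 1) hK) (n := n) (i := 0) (p := 0) (by omega)
      (by omega)
    omega
  · intro hc
    apply hU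
    refine hc.of_eq fun k => ?_
    constructor
    · intro h
      by_contra hM
      exact h (terminating_of M q0 (N k) (n + 1) hK n pr qs h2 (by omega) hsur hinj hM)
    · intro h
      exact not_terminating_of M q0 (N k) (n + 1) hK n pr qs h2 (by omega) hsur hinj h

/-- termination of one linear rewrite rule is undecidable -/
theorem undecidable : ¬ ∃ D : List ℕ × List ℕ × List ℕ → Bool, Computable D ∧
    ∀ (σ : List ℕ) (l r : Term σ), IsRule l r → Linear l → Linear r →
      (D (σ, l.code, r.code) = true ↔ Terminating l r) := by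
  rintro ⟨D, hD, h⟩
  obtain ⟨m, l, r, hc, hr, hU⟩ := exists_rules
  apply hU
  rw [ComputablePred.computable_iff]
  refine ⟨fun k => !D (sg (m k), (l k).code, (r k).code), ?_, ?_⟩
  · exact Primrec.not.to_comp.comp (hD.comp hc)
  · funext k
    have := h _ _ _ (hr k).1 (hr k).2.1 (hr k).2.2
    rw [← this]
    simp

end Pool.Agent.Helper462.OneRule
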