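import Mathlib

set_option autoImplicit false

/-! First order terms, one rewrite rule, and a coding of terms by lists of numbers. -/

namespace Pool.Agent.Helper462.OneRule

/-- First-order terms over the finite signature `σ`: the function symbols are the numbers
`f < σ.length`, the arity of `f` is `σ.get f`, and the variables are the natural numbers. -/
inductive Term (σ : List ℕ) : Type
  | var (v : ℕ) : Term σ
  | app (f : Fin σ.length) (ts : Fin (σ.get f) → Term σ) : Term σ

namespace Term

variable {σ : List ℕ}

/-- The result of a substitution. -/
def subst (s : ℕ → Term σ) : Term σ → Term σ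
  | var v => s v
  | app f ts => app f (fun i => subst s (ts i))

/-- The variable occurrences of a term from left to right. -/
def vars : Term σ → List ℕ
  | var v => [v]
  | app _ ts => (List.ofFn fun i => vars (ts i)).flatten

/-- The code of a term in Polish order: the variable `v` is coded by `2 * v`, the function symbol
`f` by `2 * f + 1`. -/
def code : Term σ → List ℕ
  | var v => [2 * v]
  | app f ts => (2 * f.1 + 1) :: (List.ofFn fun i => code (ts i)).flatten

/-- One rewrite step with the rule `l → r`, at any position. -/
inductive Step (l r : Term σ) : Term σ → Term σ → Prop
  | root (s : ℕ → Term σ) : Step l r (l.subst s) (r.subst s)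
  | arg (f : Fin σ.length) (ts : Fin (σ.get f) → Term σ) (i : Fin (σ.get f)) (t : Term σ) :
      Step l r (ts i) t → Step l r (app f ts) (app f (Function.update ts i t))

/-- `l → r` is a rewrite rule: `l` is not a variable and every variable of `r` occurs in `l`. -/
def IsRule (l r : Term σ) : Prop := (∀ v, l ≠ var v) ∧ ∀ v ∈ r.vars, v ∈ l.vars

/-- No variable occurs more than once. -/
def Linear (t : Term σ) : Prop := t.vars.Nodup

/-- There is no infinite sequence of rewrite steps with the rule `l → r`. -/
def Terminating (l r : Term σ) : Prop := ¬ ∃ t : ℕ → Term σ, ∀ k, Step l r (t k) (t (k + 1))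

end Term

end Pool.Agent.Helper462.OneRule
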