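import Pool.Agent.Helper462.OneRule.TermL
import Pool.Agent.Helper462.OneRule.Cell2

set_option autoImplicit false
set_option linter.unusedSectionVars false

/-! The rule is a linear rule, and its code. -/

namespace Pool.Agent.Helper462.OneRule

open Term

variable {m : ℕ}

theorem ofFn_if {α : Type} (g : ℕ → List α) (x : List α) :
    (List.ofFn fun i : Fin (m + 1) => if i.1 < m then g i.1 else x).flatten =
      (List.range m).flatMap g ++ x := by
  rw [List.ofFn_succ', List.concat_eq_append, List.flatten_append]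
  have : (List.ofFn fun i : Fin m => if (Fin.castSucc i).1 < m then g (Fin.castSucc i).1 else x) =
      (List.range m).map g := by
    refine List.ext_getElem (by simp) ?_
    intro k h1 h2
    simp
  rw [this, List.flatMap_def]
  simp

theorem vars_nd (c : ℕ → Term (sg m)) (t : Term (sg m)) :
    (nd c t).vars = (List.range m).flatMap (fun a => (c a).vars) ++ t.vars := by
  rw [← ofFn_if]
  unfold nd ap
  simp only [Term.vars]
  congr 2
  funext i
  split <;> rfl

theorem code_nd (c : ℕ → Term (sg m)) (t : Term (sg m)) :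
    (nd c t).code = 5 :: ((List.range m).flatMap (fun a => (c a).code) ++ t.code) := by
  rw [← ofFn_if]
  unfold nd ap
  simp only [Term.code]
  congr 3
  funext i
  split <;> rfl

theorem vars_chain (cs : List (ℕ → Term (sg m))) (t : Term (sg m)) :
    (chain cs t).vars = cs.flatMap (fun c => (List.range m).flatMap (fun a => (c a).vars)) ++
      t.vars := by
  induction cs with
  | nil => rfl
  | cons c cs ih =>
    have e : chain (c :: cs) t = nd c (chain cs t) := rfl
    rw [e, vars_nd, ih]
    simp

theorem code_chain (cs : List (ℕ → Term (sg m))) (t : Term (sg m)) :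
    (chain cs t).code = cs.flatMap (fun c => 5 :: (List.range m).flatMap (fun a => (c a).code)) ++
      t.code := by
  induction cs with
  | nil => rfl
  | cons c cs ih =>
    have e : chain (c :: cs) t = nd c (chain cs t) := rfl
    rw [e, code_nd, ih]
    simp

/-- variables of a code -/
def vs (x : ℕ) : List ℕ := if x % 2 = 0 then [x / 2] else []

theorem vars_cA : (cA : Term (sg m)).vars = [] := rfl

theorem vars_cB : (cB : Term (sg m)).vars = [] := rfl

theorem vars_tm (x : ℕ) : (tm x : Term (sg m)).vars = vs x := by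
  unfold tm vs
  split
  · rfl
  split
  · rfl
  · rfl

theorem code_tm (x : ℕ) (h : x % 2 = 0 ∨ x = 1 ∨ x = 3) : (tm x : Term (sg m)).code = [x] := by
  unfold tm
  split
  · rename_i he
    simp only [Term.code]
    congr 1
    omega
  split
  · rename_i he; rw [he]; rfl
  · have : x = 3 := by omega
    rw [this]; rfl

theorem vars_tt (Y : ℕ) (cs : List (ℕ → ℕ)) :
    (tt m Y cs).vars = cs.flatMap (fun T => (List.range m).flatMap (fun a => vs (T a))) ++ [Y] := by
  unfold tt
  rw [vars_chain, List.flatMap_map]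
  simp only [vars_tm]
  rfl

theorem code_tt (Y : ℕ) (cs : List (ℕ → ℕ))
    (h : ∀ T ∈ cs, ∀ a, T a % 2 = 0 ∨ T a = 1 ∨ T a = 3) :
    (tt m Y cs).code = cs.flatMap (fun T => 5 :: (List.range m).map T) ++ [2 * Y] := by
  unfold tt
  rw [code_chain, List.flatMap_map]
  congr 1
  refine List.flatMap_congr fun T hT => ?_
  congr 1
  rw [List.flatMap_def, show (List.range m).map (fun a => (tm (T a) : Term (sg m)).code) =
    (List.range m).map (fun a => [T a]) from List.map_congr_left fun a _ => code_tm _ (h T hT a)]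
  rw [← List.flatMap_def]
  induction (List.range m) with
  | nil => rfl
  | cons a l ih => simp [ih]

theorem nodup_key {α β : Type} (l : List α) (f : α → List β) (g : β → α) (hl : l.Nodup)
    (h1 : ∀ x ∈ l, (f x).Nodup) (h2 : ∀ x ∈ l, ∀ v ∈ f x, g v = x) : (l.flatMap f).Nodup := by
  rw [List.nodup_flatMap]
  refine ⟨h1, ?_⟩
  refine List.Pairwise.imp_of_mem ?_ hl
  intro a b ha hb hab v hva hvb
  exact hab ((h2 a ha v hva).symm.trans (h2 b hb v hvb))

theorem nodup_vs (x : ℕ) : (vs x).Nodup := by
  unfold vs; split <;> simp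

theorem mem_vs {x v : ℕ} : v ∈ vs x ↔ x % 2 = 0 ∧ v = x / 2 := by
  unfold vs; split <;> simp_all

section

variable {S Y : Type} [DecidableEq S] [DecidableEq Y] (A : LowM S Y) (n : ℕ) (pr : ℕ → S × Y)
  (qs : S)

/-- the number of the last variable -/
def yv : ℕ := (2 * A.K + 1) * ar A n

/-- left hand side -/
def lt : Term (sg (ar A n)) := tt (ar A n) (yv A n) (lcs A n)

/-- right hand side -/
def rt : Term (sg (ar A n)) := tt (ar A n) (yv A n) (rcs A n pr qs)

variable {A n pr qs}

theorem lcs_range : lcs A n = (List.range (2 * A.K + 1)).map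
    (fun c a => if c = A.K ∧ a < 2 then 1 else 2 * (c * ar A n + a)) := by
  have e : 2 * A.K + 1 = A.K + (1 + A.K) := by omega
  rw [e, List.range_add, List.map_append, List.map_map, List.range_add, List.map_append,
    List.map_map]
  unfold lcs
  congr 1
  · refine List.map_congr_left fun c hc => ?_
    rw [List.mem_range] at hc
    funext a
    rw [if_neg (by omega)]
  · simp only [List.range_one, List.map_cons, List.map_nil, List.cons_append, List.nil_append]
    congr 1
    · funext a
      simp
    · refine List.map_congr_left fun c hc => ?_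
      funext a
      simp only [Function.comp]
      rw [if_neg (by omega)]
      congr 3
      omega

theorem bc_odd (b : Bool) : ¬ bc b % 2 = 0 := by cases b <;> simp [bc]

theorem bc_cases (b : Bool) : bc b = 1 ∨ bc b = 3 := by cases b <;> simp [bc]

theorem dat_cases (q : S) (a : ℕ) : dat A n pr q a = 1 ∨ dat A n pr q a = 3 := by
  unfold dat; split <;> exact bc_cases _

theorem zrow_cases (a : ℕ) : zrow A n pr a = 1 ∨ zrow A n pr a = 3 := bc_cases _

theorem even_frame {p a : ℕ} (h : frameT A n pr qs p a % 2 = 0) :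
    (a = 0 ∧ frameT A n pr qs p a = 2 * (A.K * ar A n + (2 * n + p))) ∨
    (a = 1 ∧ frameT A n pr qs p a =
      2 * ((if A.dir (pr p).1 then 2 * A.K else 0) * ar A n + (n + p))) := by
  by_cases h0 : a = 0
  · left
    refine ⟨h0, ?_⟩
    unfold frameT
    rw [if_pos h0]
  by_cases h1 : a = 1
  · right
    refine ⟨h1, ?_⟩
    unfold frameT
    rw [if_neg h0, if_pos h1]
  · exfalso
    unfold frameT at h
    rw [if_neg h0, if_neg h1] at h
    split at h
    · omega
    split at h
    · rcases zrow_cases (A := A) (n := n) (pr := pr) a with h3 | h3 <;> omega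
    · rcases dat_cases (A := A) (n := n) (pr := pr) (nx A pr qs p) a with h3 | h3 <;> omega

theorem odd_pad {a : ℕ} : ¬ padT A n pr qs a % 2 = 0 := by
  intro h
  unfold padT at h
  split at h
  · omega
  split at h
  · rcases zrow_cases (A := A) (n := n) (pr := pr) a with h3 | h3 <;> omega
  · rcases dat_cases (A := A) (n := n) (pr := pr) qs a with h3 | h3 <;> omega

theorem even_load {i a : ℕ} (h : loadT A n pr qs i a % 2 = 0) :
    a / n = 1 ∧ loadT A n pr qs i a = 2 * (A.K * ar A n + ((3 + i) * n + a % n)) := by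
  unfold loadT at h
  split at h
  · omega
  split at h
  · rename_i h1 h2
    refine ⟨h2, ?_⟩
    unfold loadT
    rw [if_neg h1, if_pos h2]
  · rcases dat_cases (A := A) (n := n) (pr := pr) qs a with h3 | h3 <;> omega

theorem valid_lcs : ∀ T ∈ lcs A n, ∀ a, T a % 2 = 0 ∨ T a = 1 ∨ T a = 3 := by
  intro T hT a
  rw [lcs_range, List.mem_map] at hT
  obtain ⟨c, _, rfl⟩ := hT
  dsimp only
  split
  · right; left; rfl
  · left; omega

theorem valid_rcs : ∀ T ∈ rcs A n pr qs, ∀ a, T a % 2 = 0 ∨ T a = 1 ∨ T a = 3 := by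
  intro T hT a
  have hf : ∀ p, frameT A n pr qs p a % 2 = 0 ∨ frameT A n pr qs p a = 1 ∨
      frameT A n pr qs p a = 3 := by
    intro p
    unfold frameT
    split
    · left; omega
    split
    · left; omega
    split
    · right; right; rfl
    split
    · right; exact zrow_cases _
    · right; exact dat_cases _ _
  have hp : padT A n pr qs a % 2 = 0 ∨ padT A n pr qs a = 1 ∨ padT A n pr qs a = 3 := by
    unfold padT
    split
    · right; right; rfl
    split
    · right; exact zrow_cases _
    · right; exact dat_cases _ _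
  have hl : ∀ i, loadT A n pr qs i a % 2 = 0 ∨ loadT A n pr qs i a = 1 ∨
      loadT A n pr qs i a = 3 := by
    intro i
    unfold loadT
    split
    · right; right; rfl
    split
    · left; omega
    · right; exact dat_cases _ _
  simp only [rcs, List.mem_append, List.mem_map, List.mem_replicate] at hT
  rcases hT with ⟨p, _, rfl⟩ | ⟨_, rfl⟩ | ⟨i, _, rfl⟩ | ⟨_, rfl⟩ | ⟨p, _, rfl⟩
  · exact hf p
  · exact hp
  · exact hl i
  · exact hp
  · exact hf p

theorem lcs_ne : lcs A n ≠ [] := by
  simp [lcs]

theorem rcs_ne : rcs A n pr qs ≠ [] := by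
  have hK := A.hK
  have h1 : ¬ (3 * A.K = 0) := by omega
  intro h
  have := congrArg List.length h
  simp only [rcs, List.length_append, List.length_replicate, List.length_nil] at this
  omega

theorem mem_lcs {c : ℕ} (hc : c ≤ 2 * A.K) {a : ℕ} (ha : a < ar A n) (h : c = A.K → 2 ≤ a) :
    ∃ T' ∈ lcs A n, ∃ a', a' < ar A n ∧ T' a' = 2 * (c * ar A n + a) := by
  rw [lcs_range]
  refine ⟨_, List.mem_map.2 ⟨c, List.mem_range.2 (by omega), rfl⟩, a, ha, ?_⟩
  rw [if_neg]
  rintro ⟨h1, h2⟩
  have := h h1
  omega

theorem rcs_in_lcs (h2 : 2 ≤ n) : ∀ T ∈ rcs A n pr qs, ∀ a, a < ar A n → T a % 2 = 0 →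
    ∃ T' ∈ lcs A n, ∃ a', a' < ar A n ∧ T' a' = T a := by
  intro T hT a ha he
  have hfr : ∀ p, p < n → frameT A n pr qs p a % 2 = 0 →
      ∃ T' ∈ lcs A n, ∃ a', a' < ar A n ∧ T' a' = frameT A n pr qs p a := by
    intro p hp he
    rcases even_frame he with ⟨_, h⟩ | ⟨_, h⟩
    · rw [h]
      exact mem_lcs (by omega) (ar_lt (by omega) hp) (by omega)
    · rw [h]
      have h3 := ar_lt (A := A) (i := 1) (p := p) (by omega) hp
      rw [Nat.one_mul] at h3
      exact mem_lcs (by split <;> omega) h3 (by omega)
  simp only [rcs, List.mem_append, List.mem_map, List.mem_replicate, mem_frs,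
    List.mem_range] at hT
  rcases hT with ⟨p, ⟨hp, _⟩, rfl⟩ | ⟨_, rfl⟩ | ⟨i, hi, rfl⟩ | ⟨_, rfl⟩ | ⟨p, ⟨hp, _⟩, rfl⟩
  · exact hfr p hp he
  · exact absurd he odd_pad
  · obtain ⟨_, h⟩ := even_load he
    rw [h]
    have h4 : 3 * n ≤ (3 + i) * n := Nat.mul_le_mul_right _ (by omega)
    exact mem_lcs (by omega) (ar_lt (by omega) (Nat.mod_lt _ (by omega))) (by omega)
  · exact absurd he odd_pad
  · exact hfr p hp he

theorem lcs_lt : ∀ T ∈ lcs A n, ∀ a, a < ar A n → T a % 2 = 0 → T a / 2 < yv A n := by
  intro T hT a ha he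
  rw [lcs_range, List.mem_map] at hT
  obtain ⟨c, hc, rfl⟩ := hT
  rw [List.mem_range] at hc
  dsimp only at he ⊢
  split at he
  · omega
  · rename_i h
    rw [if_neg h]
    have : (c + 1) * ar A n ≤ (2 * A.K + 1) * ar A n := Nat.mul_le_mul_right _ hc
    unfold yv
    rw [Nat.add_mul, Nat.one_mul] at this
    omega

theorem rcs_lt (h2 : 2 ≤ n) : ∀ T ∈ rcs A n pr qs, ∀ a, a < ar A n → T a % 2 = 0 →
    T a / 2 < yv A n := by
  intro T hT a ha he
  obtain ⟨T', hT', a', ha', e⟩ := rcs_in_lcs h2 T hT a ha he
  rw [← e]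
  exact lcs_lt T' hT' a' ha' (by rw [e]; exact he)

theorem isRule (h2 : 2 ≤ n) : IsRule (lt A n) (rt A n pr qs) := by
  constructor
  · intro v hv
    have h1 : sp (lt A n) = [] := by rw [hv]; rfl
    unfold lt tt at h1
    rw [sp_chain, List.map_map] at h1
    have := congrArg List.length h1
    simp only [List.length_append, List.length_map, List.length_nil] at this
    have h3 : (lcs A n).length ≠ 0 := by simp [lcs_ne]
    omega
  · intro v hv
    unfold rt at hv
    unfold lt
    rw [vars_tt] at hv ⊢
    rw [List.mem_append] at hv ⊢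
    rcases hv with hv | hv
    · left
      simp only [List.mem_flatMap, List.mem_range, mem_vs] at hv ⊢
      obtain ⟨T, hT, a, ha, he, rfl⟩ := hv
      obtain ⟨T', hT', a', ha', e⟩ := rcs_in_lcs h2 T hT a ha he
      exact ⟨T', hT', a', ha', by rw [e]; exact he, by rw [e]⟩
    · right; exact hv

theorem linear_lt (har : 0 < ar A n) : Linear (lt A n) := by
  unfold Linear lt
  rw [vars_tt, List.nodup_append]
  refine ⟨?_, by simp, ?_⟩
  · rw [lcs_range, List.flatMap_map]
    refine nodup_key _ _ (fun v => v / ar A n) List.nodup_range ?_ ?_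
    · intro c hc
      refine nodup_key _ _ (fun v => v % ar A n) List.nodup_range ?_ ?_
      · intro a ha
        exact nodup_vs _
      · intro a ha v hv
        rw [mem_vs] at hv
        obtain ⟨h1, h2⟩ := hv
        rw [List.mem_range] at ha
        dsimp only at h1 h2
        split at h1
        · omega
        · rename_i h3
          rw [if_neg h3] at h2
          have : v = c * ar A n + a := by omega
          simp only [this]
          exact (dv ha).2
    · intro c hc v hv
      simp only [List.mem_flatMap, List.mem_range, mem_vs] at hv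
      obtain ⟨a, ha, h1, h2⟩ := hv
      split at h1
      · omega
      · rename_i h3
        rw [if_neg h3] at h2
        have : v = c * ar A n + a := by omega
        simp only [this]
        exact (dv ha).1
  · intro v hv y hy
    simp only [List.mem_singleton] at hy
    simp only [List.mem_flatMap, List.mem_range, mem_vs] at hv
    obtain ⟨T, hT, a, ha, he, rfl⟩ := hv
    have := lcs_lt T hT a ha he
    omega

theorem mod_ar {c i p : ℕ} (hi : i < A.L + 3) (hp : p < n) :
    (c * ar A n + (i * n + p)) % ar A n = i * n + p ∧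
    (c * ar A n + (i * n + p)) % n = p := by
  refine ⟨(dv (ar_lt hi hp)).2, ?_⟩
  have : c * ar A n + (i * n + p) = (c * (A.L + 3) + i) * n + p := by unfold ar; ring
  rw [this]
  exact (dv hp).2

/-- variables of a template -/
def tv (A : LowM S Y) (n : ℕ) (T : ℕ → ℕ) : List ℕ :=
  (List.range (ar A n)).flatMap (fun a => vs (T a))

theorem mem_tv_frame {p v : ℕ} (hv : v ∈ tv A n (frameT A n pr qs p)) :
    (∃ c, v = c * ar A n + (2 * n + p)) ∨ (∃ c, v = c * ar A n + (1 * n + p)) := by
  unfold tv at hv
  simp only [List.mem_flatMap, List.mem_range, mem_vs] at hv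
  obtain ⟨a, _, he, rfl⟩ := hv
  rcases even_frame he with ⟨_, h⟩ | ⟨_, h⟩
  · left; exact ⟨A.K, by rw [h]; omega⟩
  · right
    refine ⟨if A.dir (pr p).1 then 2 * A.K else 0, ?_⟩
    rw [h, Nat.one_mul, Nat.mul_div_cancel_left _ (by omega)]

theorem mem_tv_load {i v : ℕ} (hn : 0 < n) (hv : v ∈ tv A n (loadT A n pr qs i)) :
    ∃ p, p < n ∧ v = A.K * ar A n + ((3 + i) * n + p) := by
  unfold tv at hv
  simp only [List.mem_flatMap, List.mem_range, mem_vs] at hv
  obtain ⟨a, _, he, rfl⟩ := hv
  obtain ⟨_, h⟩ := even_load he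
  exact ⟨a % n, Nat.mod_lt _ hn, by rw [h, Nat.mul_div_cancel_left _ (by omega)]⟩

theorem tv_pad : tv A n (padT A n pr qs) = [] := by
  unfold tv
  rw [List.flatMap_eq_nil_iff]
  intro a _
  unfold vs
  rw [if_neg odd_pad]

theorem nodup_frame {p : ℕ} (hp : p < n) : (tv A n (frameT A n pr qs p)).Nodup := by
  refine nodup_key _ _ (fun v => if (v % ar A n) / n = 2 then 0 else 1) List.nodup_range
    (fun a _ => nodup_vs _) ?_
  intro a _ v hv
  rw [mem_vs] at hv
  obtain ⟨he, rfl⟩ := hv
  rcases even_frame he with ⟨h1, h⟩ | ⟨h1, h⟩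
  · rw [h, h1, Nat.mul_div_cancel_left _ (by omega), (mod_ar (i := 2) (by omega) hp).1,
      (dv hp).1, if_pos rfl]
  · have := (mod_ar (A := A) (c := (if A.dir (pr p).1 then 2 * A.K else 0)) (i := 1)
      (by omega) hp).1
    rw [Nat.one_mul] at this
    rw [h, h1, Nat.mul_div_cancel_left _ (by omega), this]
    have h3 := (dv (i := 1) hp).1
    rw [Nat.one_mul] at h3
    rw [h3, if_neg (by omega)]

theorem nodup_load (hn : 0 < n) {i : ℕ} (hi : i < A.L) :
    (tv A n (loadT A n pr qs i)).Nodup := by
  refine nodup_key _ _ (fun v => 1 * n + v % n) List.nodup_range (fun a _ => nodup_vs _) ?_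
  intro a _ v hv
  rw [mem_vs] at hv
  obtain ⟨he, rfl⟩ := hv
  obtain ⟨h1, h⟩ := even_load he
  rw [h, Nat.mul_div_cancel_left _ (by omega),
    (mod_ar (i := 3 + i) (by omega) (Nat.mod_lt a hn)).2, ← h1]
  have := Nat.div_add_mod a n
  rw [Nat.mul_comm] at this
  exact this

theorem linear_rt (h2 : 2 ≤ n) : Linear (rt A n pr qs) := by
  have hn : 0 < n := by omega
  unfold Linear rt
  rw [vars_tt]
  change ((rcs A n pr qs).flatMap (tv A n) ++ [yv A n]).Nodup
  have hpad : ∀ k, (List.replicate k (padT A n pr qs)).flatMap (tv A n) = [] := by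
    intro k
    rw [List.flatMap_eq_nil_iff]
    intro T hT
    rw [List.eq_of_mem_replicate hT]
    exact tv_pad
  have hrw : (rcs A n pr qs).flatMap (tv A n) =
      (frs A n pr false).flatMap (fun p => tv A n (frameT A n pr qs p)) ++
      ((List.range A.L).flatMap (fun i => tv A n (loadT A n pr qs i)) ++
      (frs A n pr true).flatMap (fun p => tv A n (frameT A n pr qs p))) := by
    unfold rcs
    simp only [List.flatMap_append, hpad, List.flatMap_map, List.nil_append]
  rw [hrw]
  have hfrn : ∀ d, ((frs A n pr d).flatMap (fun p => tv A n (frameT A n pr qs p))).Nodup := by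
    intro d
    refine nodup_key _ _ (fun v => v % n) (List.nodup_range.filter _)
      (fun p hp => nodup_frame (mem_frs.1 hp).1) ?_
    intro p hp v hv
    have hpn := (mem_frs.1 hp).1
    rcases mem_tv_frame hv with ⟨c, rfl⟩ | ⟨c, rfl⟩
    · exact (mod_ar (by omega) hpn).2
    · exact (mod_ar (by omega) hpn).2
  have hldn : ((List.range A.L).flatMap (fun i => tv A n (loadT A n pr qs i))).Nodup := by
    refine nodup_key _ _ (fun v => (v % ar A n) / n - 3) List.nodup_range
      (fun i hi => nodup_load hn (List.mem_range.1 hi)) ?_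
    intro i hi v hv
    rw [List.mem_range] at hi
    obtain ⟨p, hp, rfl⟩ := mem_tv_load hn hv
    simp only [(mod_ar (c := A.K) (i := 3 + i) (A := A) (by omega) hp).1, (dv hp).1]
    omega
  -- keys
  have kf : ∀ d v, v ∈ (frs A n pr d).flatMap (fun p => tv A n (frameT A n pr qs p)) →
      ((v % ar A n) / n = 1 ∨ (v % ar A n) / n = 2) ∧ v % n ∈ frs A n pr d := by
    intro d v hv
    rw [List.mem_flatMap] at hv
    obtain ⟨p, hp, hv⟩ := hv
    have hpn := (mem_frs.1 hp).1
    rcases mem_tv_frame hv with ⟨c, rfl⟩ | ⟨c, rfl⟩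
    · rw [(mod_ar (by omega) hpn).1, (mod_ar (by omega) hpn).2, (dv hpn).1]
      exact ⟨Or.inr rfl, hp⟩
    · rw [(mod_ar (by omega) hpn).1, (mod_ar (by omega) hpn).2, (dv hpn).1]
      exact ⟨Or.inl rfl, hp⟩
  have kl : ∀ v, v ∈ (List.range A.L).flatMap (fun i => tv A n (loadT A n pr qs i)) →
      3 ≤ (v % ar A n) / n := by
    intro v hv
    rw [List.mem_flatMap] at hv
    obtain ⟨i, hi, hv⟩ := hv
    rw [List.mem_range] at hi
    obtain ⟨p, hp, rfl⟩ := mem_tv_load hn hv
    rw [(mod_ar (c := A.K) (i := 3 + i) (A := A) (by omega) hp).1, (dv hp).1]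
    omega
  have ky : (yv A n % ar A n) / n = 0 := by
    unfold yv
    rw [Nat.mul_mod_left]
    simp
  rw [List.nodup_append]
  refine ⟨?_, by simp, ?_⟩
  · rw [List.nodup_append]
    refine ⟨hfrn false, ?_, ?_⟩
    · rw [List.nodup_append]
      refine ⟨hldn, hfrn true, ?_⟩
      intro v hv w hw e
      subst e
      have h3 := kl v hv
      have h4 := (kf true v hw).1
      omega
    · intro v hv w hw e
      subst e
      rw [List.mem_append] at hw
      have h4 := kf false v hv
      rcases hw with hw | hw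
      · have h3 := kl v hw
        omega
      · have h3 := (kf true v hw).2
        have h5 := h4.2
        rw [mem_frs] at h3 h5
        rw [h3.2] at h5
        simp at h5
  · intro v hv w hw e
    subst e
    simp only [List.mem_singleton] at hw
    subst hw
    rw [List.mem_append, List.mem_append] at hv
    rcases hv with hv | hv | hv
    · have := (kf false _ hv).1; omega
    · have := kl _ hv; omega
    · have := (kf true _ hv).1; omega

end

end Pool.Agent.Helper462.OneRule
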