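import Mathlib

set_option autoImplicit false

/-! Low level machines: heads on a word which rewrite a window around them. If no head can turn
infinitely often, then the step relation on words with many heads is well founded. -/

namespace Pool.Agent.Helper462.OneRule

/-- data of a low level machine -/
structure LowM (S Y : Type) where
  z : Y
  δ : S → Y → Option S
  dir : S → Bool
  spl : S → List Y
  K : ℕ
  L : ℕ
  hK : 0 < K
  hL : ∀ q, (spl q).length = L
  fr : Bool → Y → Prop
  fz : ∀ s, fr s z
  fs : ∀ q j q', δ q j = some q' → ∀ y ∈ spl q, fr (dir q') y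

/-- letters of a word: passive symbols and heads -/
inductive Lt (S Y : Type)
  | ps (y : Y)
  | hd (q : Option S)

namespace LowM

variable {S Y : Type}

/-- orientation of a list -/
def ori (d : Bool) (l : List Y) : List Y := if d then l.reverse else l

theorem mem_ori (d : Bool) (l : List Y) (y : Y) : y ∈ ori d l ↔ y ∈ l := by
  cases d <;> simp [ori]

theorem length_ori (d : Bool) (l : List Y) : (ori d l).length = l.length := by
  cases d <;> simp [ori]

variable (A : LowM S Y)

/-- one step of one head with its two stacks -/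
def Fire (x y : S × (Bool → List Y)) : Prop :=
  A.K ≤ (x.2 true).length ∧ A.K ≤ (x.2 false).length ∧
  ∃ j, (x.2 (A.dir x.1))[A.K - 1]? = some j ∧ A.δ x.1 j = some y.1 ∧
  ∃ i < A.K, ∃ α β, 3 * A.K ≤ α ∧ α ≤ 4 * A.K ∧ 3 * A.K ≤ β ∧ β ≤ 4 * A.K ∧
    y.2 (A.dir y.1) = List.replicate i A.z ++ (x.2 (A.dir y.1)).drop A.K ∧
    y.2 (!A.dir y.1) = List.replicate α A.z ++ ori (A.dir y.1) (A.spl x.1) ++
      List.replicate β A.z ++ (x.2 (!A.dir y.1)).drop A.K

/-- a change of the far end of one stack by foreign symbols -/
def Env (x y : S × (Bool → List Y)) : Prop :=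
  y.1 = x.1 ∧ ∃ s n Z, (∀ a ∈ Z, A.fr s a) ∧ y.2 = Function.update x.2 s ((x.2 s).take n ++ Z)

/-- no head turns infinitely often -/
def TurnFin : Prop :=
  ∀ x : ℕ → S × (Bool → List Y), (∀ k, A.Fire (x k) (x (k + 1)) ∨ A.Env (x k) (x (k + 1))) →
    ∃ k0, ∀ k, k0 ≤ k → A.dir (x (k + 1)).1 = A.dir (x k).1

/-- stacks from two lists -/
def bs (L R : List Y) : Bool → List Y := fun s => if s then R else L

theorem bs_true (L R : List Y) : bs L R true = R := rfl
theorem bs_false (L R : List Y) : bs L R false = L := rfl

variable {A}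

/-- fire is closed under extension at the far ends -/
theorem Fire.ext {q q' : S} {st st' : Bool → List Y} (h : A.Fire (q, st) (q', st'))
    (X : Bool → List Y) : A.Fire (q, fun s => st s ++ X s) (q', fun s => st' s ++ X s) := by
  obtain ⟨h1, h2, j, h3, h4, i, hi, α, β, a1, a2, b1, b2, h5, h6⟩ := h
  simp only at h1 h2 h3 h4 h5 h6
  have hlen : ∀ s, A.K ≤ (st s).length := by
    intro s; cases s
    · exact h2
    · exact h1
  have hK := A.hK
  refine ⟨?_, ?_, j, ?_, h4, i, hi, α, β, a1, a2, b1, b2, ?_, ?_⟩
  · simp only [List.length_append]; omega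
  · simp only [List.length_append]; omega
  · simp only
    rw [List.getElem?_append_left (by have := hlen (A.dir q); omega)]
    exact h3
  · simp only
    rw [h5, List.drop_append_of_le_length (hlen _), List.append_assoc]
  · simp only
    rw [h6, List.drop_append_of_le_length (hlen _)]
    simp only [List.append_assoc]

theorem Fire.side {x y : S × (Bool → List Y)} (h : A.Fire x y) (s : Bool) :
    ∃ Z, y.2 s = Z ++ (x.2 s).drop A.K ∧ (∀ a ∈ Z, A.fr (!s) a) ∧ A.K ≤ (x.2 s).length := by
  obtain ⟨h1, h2, j, h3, h4, i, hi, α, β, a1, a2, b1, b2, h5, h6⟩ := h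
  have hlen : ∀ s, A.K ≤ (x.2 s).length := by
    intro s; cases s
    · exact h2
    · exact h1
  by_cases hs : s = A.dir y.1
  · subst hs
    refine ⟨_, h5, ?_, hlen _⟩
    intro a ha
    rw [List.eq_of_mem_replicate ha]
    exact A.fz _
  · have hs' : s = !A.dir y.1 := by
      cases s <;> cases hd : A.dir y.1 <;> simp_all
    subst hs'
    refine ⟨_, h6, ?_, hlen _⟩
    intro a ha
    rw [Bool.not_not]
    simp only [List.mem_append, mem_ori, List.mem_replicate] at ha
    rcases ha with (⟨_, rfl⟩ | ha) | ⟨_, rfl⟩
    · exact A.fz _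
    · exact A.fs _ _ _ h4 a ha
    · exact A.fz _

theorem Fire.len_fwd {x y : S × (Bool → List Y)} (h : A.Fire x y) :
    (y.2 (A.dir y.1)).length + 1 ≤ (x.2 (A.dir y.1)).length := by
  obtain ⟨h1, h2, j, h3, h4, i, hi, α, β, a1, a2, b1, b2, h5, h6⟩ := h
  have hlen : ∀ s, A.K ≤ (x.2 s).length := by
    intro s; cases s
    · exact h2
    · exact h1
  have := hlen (A.dir y.1)
  rw [h5, List.length_append, List.length_replicate, List.length_drop]
  omega

theorem Fire.len_bwd {x y : S × (Bool → List Y)} (h : A.Fire x y) :
    (y.2 (!A.dir y.1)).length ≤ (x.2 (!A.dir y.1)).length + (8 * A.K + A.L) := by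
  obtain ⟨h1, h2, j, h3, h4, i, hi, α, β, a1, a2, b1, b2, h5, h6⟩ := h
  rw [h6]
  simp only [List.length_append, List.length_replicate, List.length_drop, length_ori, A.hL]
  omega

/-! ### words -/

open Lt

/-- number of heads -/
def nh : List (Lt S Y) → ℕ
  | [] => 0
  | ps _ :: w => nh w
  | hd _ :: w => nh w + 1

/-- segments between heads -/
def seg : List (Lt S Y) → ℕ → List Y
  | [], _ => []
  | ps y :: w, 0 => y :: seg w 0
  | ps _ :: w, i + 1 => seg w (i + 1)
  | hd _ :: _, 0 => []
  | hd _ :: w, i + 1 => seg w i

/-- states of heads -/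
def sta : List (Lt S Y) → ℕ → Option S
  | [], _ => none
  | ps _ :: w, i => sta w i
  | hd q :: _, 0 => q
  | hd _ :: w, i + 1 => sta w i

theorem nh_append (u v : List (Lt S Y)) : nh (u ++ v) = nh u + nh v := by
  induction u with
  | nil => simp [nh]
  | cons a u ih =>
    cases a with
    | ps y => simp [nh, ih]
    | hd q => simp [nh, ih]; omega

theorem nh_ps (l : List Y) (v : List (Lt S Y)) : nh (l.map ps ++ v) = nh v := by
  induction l with
  | nil => simp
  | cons a l ih => simpa [nh] using ih

theorem seg_ps_zero (l : List Y) (v : List (Lt S Y)) : seg (l.map ps ++ v) 0 = l ++ seg v 0 := by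
  induction l with
  | nil => simp
  | cons a l ih => simpa [seg] using ih

theorem seg_ps_succ (l : List Y) (v : List (Lt S Y)) (i : ℕ) :
    seg (l.map ps ++ v) (i + 1) = seg v (i + 1) := by
  induction l with
  | nil => simp
  | cons a l ih => simpa [seg] using ih

theorem sta_ps (l : List Y) (v : List (Lt S Y)) (i : ℕ) :
    sta (l.map ps ++ v) i = sta v i := by
  induction l with
  | nil => simp
  | cons a l ih => simpa [sta] using ih

theorem seg_lt (u v : List (Lt S Y)) : ∀ i, i < nh u → seg (u ++ v) i = seg u i := by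
  induction u with
  | nil => intro i hi; simp [nh] at hi
  | cons a u ih =>
    intro i hi
    cases a with
    | ps y =>
      simp only [nh] at hi
      cases i with
      | zero => simp [seg, ih 0 hi]
      | succ i => simp [seg, ih (i + 1) hi]
    | hd q =>
      simp only [nh] at hi
      cases i with
      | zero => simp [seg]
      | succ i => simp [seg, ih i (by omega)]

theorem seg_eq (u v : List (Lt S Y)) : seg (u ++ v) (nh u) = seg u (nh u) ++ seg v 0 := by
  induction u with
  | nil => simp [nh, seg]
  | cons a u ih =>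
    cases a with
    | ps y =>
      simp only [nh, List.cons_append]
      cases hn : nh u with
      | zero => rw [hn] at ih; simp [seg, ih]
      | succ i => rw [hn] at ih; simp [seg, ih]
    | hd q => simpa [nh, seg] using ih

theorem seg_gt (u v : List (Lt S Y)) (i : ℕ) : seg (u ++ v) (nh u + (i + 1)) = seg v (i + 1) := by
  induction u with
  | nil => simp [nh]
  | cons a u ih =>
    cases a with
    | ps y => simpa [nh, seg, ← Nat.add_assoc] using ih
    | hd q =>
      have : nh (hd q :: u) + (i + 1) = (nh u + (i + 1)) + 1 := by simp only [nh]; omega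
      rw [this]
      simpa [seg] using ih

theorem sta_lt (u v : List (Lt S Y)) : ∀ i, i < nh u → sta (u ++ v) i = sta u i := by
  induction u with
  | nil => intro i hi; simp [nh] at hi
  | cons a u ih =>
    intro i hi
    cases a with
    | ps y =>
      simp only [nh] at hi
      simp [sta, ih i hi]
    | hd q =>
      simp only [nh] at hi
      cases i with
      | zero => simp [sta]
      | succ i => simp [sta, ih i (by omega)]

theorem sta_ge (u v : List (Lt S Y)) (i : ℕ) : sta (u ++ v) (nh u + i) = sta v i := by
  induction u with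
  | nil => simp [nh]
  | cons a u ih =>
    cases a with
    | ps y => simpa [nh, sta] using ih
    | hd q =>
      have : nh (hd q :: u) + i = (nh u + i) + 1 := by simp only [nh]; omega
      rw [this]
      simpa [sta] using ih

/-- stacks of a head -/
def stk (w : List (Lt S Y)) (i : ℕ) : Bool → List Y := bs (seg w i).reverse (seg w (i + 1))

variable (A)

/-- one step of a word -/
def LStep (w w' : List (Lt S Y)) : Prop :=
  ∃ (u v : List (Lt S Y)) (q q' : S) (l1 l2 l1' l2' : List Y),
    w = u ++ (l1.map ps ++ hd (some q) :: (l2.map ps ++ v)) ∧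
    w' = u ++ (l1'.map ps ++ hd (some q') :: (l2'.map ps ++ v)) ∧
    A.Fire (q, bs l1.reverse l2) (q', bs l1'.reverse l2')

/-- effect of one step -/
structure Mv (w w' : List (Lt S Y)) (i : ℕ) (q q' : S) : Prop where
  s : sta w i = some q
  s' : sta w' i = some q'
  lt : i < nh w
  fire : A.Fire (q, stk w i) (q', stk w' i)
  os : ∀ j, j ≠ i → sta w' j = sta w j
  og : ∀ j, j ≠ i → j ≠ i + 1 → seg w' j = seg w j

variable {A}

theorem nh_win (u v : List (Lt S Y)) (q : Option S) (l1 l2 : List Y) :
    nh (u ++ (l1.map ps ++ hd q :: (l2.map ps ++ v))) = nh u + (nh v + 1) := by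
  rw [nh_append, nh_ps]
  simp only [nh]
  rw [nh_ps]

theorem seg_win0 (u v : List (Lt S Y)) (q : Option S) (l1 l2 : List Y) :
    seg (u ++ (l1.map ps ++ hd q :: (l2.map ps ++ v))) (nh u) = seg u (nh u) ++ l1 := by
  rw [seg_eq, seg_ps_zero]
  simp [seg]

theorem seg_win1 (u v : List (Lt S Y)) (q : Option S) (l1 l2 : List Y) :
    seg (u ++ (l1.map ps ++ hd q :: (l2.map ps ++ v))) (nh u + 1) = l2 ++ seg v 0 := by
  rw [seg_gt u _ 0, seg_ps_succ]
  simp only [seg]
  rw [seg_ps_zero]

theorem seg_win2 (u v : List (Lt S Y)) (q : Option S) (l1 l2 : List Y) (i : ℕ) :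
    seg (u ++ (l1.map ps ++ hd q :: (l2.map ps ++ v))) (nh u + (i + 1 + 1)) = seg v (i + 1) := by
  rw [seg_gt u _ (i + 1), seg_ps_succ]
  simp only [seg]
  rw [seg_ps_succ]

theorem sta_win0 (u v : List (Lt S Y)) (q : Option S) (l1 l2 : List Y) :
    sta (u ++ (l1.map ps ++ hd q :: (l2.map ps ++ v))) (nh u) = q := by
  have := sta_ge u (l1.map ps ++ hd q :: (l2.map ps ++ v)) 0
  rw [Nat.add_zero] at this
  rw [this, sta_ps]
  simp [sta]

theorem sta_win1 (u v : List (Lt S Y)) (q : Option S) (l1 l2 : List Y) (i : ℕ) :
    sta (u ++ (l1.map ps ++ hd q :: (l2.map ps ++ v))) (nh u + (i + 1)) = sta v i := by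
  rw [sta_ge, sta_ps]
  simp only [sta]
  rw [sta_ps]

theorem LStep.nh_eq {w w' : List (Lt S Y)} (h : A.LStep w w') : nh w' = nh w := by
  obtain ⟨u, v, q, q', l1, l2, l1', l2', rfl, rfl, hf⟩ := h
  rw [nh_win, nh_win]

theorem LStep.mv {w w' : List (Lt S Y)} (h : A.LStep w w') :
    ∃ i q q', A.Mv w w' i q q' := by
  obtain ⟨u, v, q, q', l1, l2, l1', l2', rfl, rfl, hf⟩ := h
  refine ⟨nh u, q, q', ?_, ?_, ?_, ?_, ?_, ?_⟩
  · exact sta_win0 _ _ _ _ _
  · exact sta_win0 _ _ _ _ _
  · rw [nh_win]; omega
  · have := hf.ext (bs (seg u (nh u)).reverse (seg v 0))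
    convert this using 2
    · funext s
      cases s
      · simp [stk, bs, seg_win0]
      · simp [stk, bs, seg_win1]
    · funext s
      cases s
      · simp [stk, bs, seg_win0]
      · simp [stk, bs, seg_win1]
  · intro j hj
    rcases Nat.lt_or_gt_of_ne hj with h | h
    · rw [sta_lt _ _ _ h, sta_lt _ _ _ h]
    · obtain ⟨i, rfl⟩ : ∃ i, j = nh u + (i + 1) := ⟨j - nh u - 1, by omega⟩
      rw [sta_win1, sta_win1]
  · intro j hj hj'
    rcases Nat.lt_or_gt_of_ne hj with h | h
    · rw [seg_lt _ _ _ h, seg_lt _ _ _ h]
    · obtain ⟨i, rfl⟩ : ∃ i, j = nh u + (i + 1 + 1) := ⟨j - nh u - 2, by omega⟩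
      rw [seg_win2, seg_win2]

/-- a step elsewhere is a change of the far end -/
theorem Mv.env {w w' : List (Lt S Y)} {i : ℕ} {q q' : S} (h : A.Mv w w' i q q') (j : ℕ)
    (hj : j ≠ i) (p : S) : A.Env (p, stk w j) (p, stk w' j) := by
  refine ⟨rfl, ?_⟩
  by_cases h1 : j = i + 1
  · subst h1
    obtain ⟨Z, z1, z2, z3⟩ := h.fire.side true
    refine ⟨false, (seg w (i + 1)).length - A.K, Z.reverse, by simpa using z2, ?_⟩
    simp only [stk, bs_true] at z1 z3
    funext s
    cases s
    · simp only [stk, bs_false, Function.update_self]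
      rw [z1, List.reverse_append, List.reverse_drop]
    · rw [Function.update_of_ne (by simp)]
      simp only [stk, bs_true]
      exact h.og _ (by omega) (by omega)
  · by_cases h2 : j + 1 = i
    · subst h2
      obtain ⟨Z, z1, z2, z3⟩ := h.fire.side false
      refine ⟨true, (seg w (j + 1)).length - A.K, Z.reverse, by simpa using z2, ?_⟩
      simp only [stk, bs_false] at z1 z3
      funext s
      cases s
      · rw [Function.update_of_ne (by simp)]
        simp only [stk, bs_false]
        rw [h.og _ (by omega) (by omega)]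
      · simp only [stk, bs_true, Function.update_self]
        have := congrArg List.reverse z1
        rw [List.reverse_reverse, List.reverse_append, List.reverse_drop, List.reverse_reverse,
          List.length_reverse] at this
        exact this
    · refine ⟨true, (seg w (j + 1)).length, [], by simp, ?_⟩
      funext s
      cases s
      · rw [Function.update_of_ne (by simp)]
        simp only [stk, bs_false]
        rw [h.og _ (by omega) (by omega)]
      · simp only [stk, bs_true, Function.update_self]
        rw [h.og _ (by omega) (by omega)]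
        simp

theorem sum_two_lt (n i : ℕ) (hi : i < n) (f g : ℕ → ℕ)
    (h : ∀ j, j ≠ i → j ≠ i + 1 → f j = g j) (hlt : f i + f (i + 1) < g i + g (i + 1)) :
    ∑ j ∈ Finset.range (n + 1), f j < ∑ j ∈ Finset.range (n + 1), g j := by
  have h1 : i ∈ Finset.range (n + 1) := by simp; omega
  have h2 : i + 1 ∈ (Finset.range (n + 1)).erase i := by simp; omega
  rw [← Finset.add_sum_erase _ f h1, ← Finset.add_sum_erase _ f h2,
    ← Finset.add_sum_erase _ g h1, ← Finset.add_sum_erase _ g h2]
  have : ∑ x ∈ ((Finset.range (n + 1)).erase i).erase (i + 1), f x =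
      ∑ x ∈ ((Finset.range (n + 1)).erase i).erase (i + 1), g x := by
    refine Finset.sum_congr rfl fun x hx => ?_
    simp only [Finset.mem_erase] at hx
    exact h x hx.2.1 hx.1
  omega

/-- exponents of the weights -/
def ex (n : ℕ) (d : ℕ → Bool) : ℕ → ℕ
  | 0 => n
  | i + 1 => if d i then ex n d i + 1 else ex n d i - 1

theorem ex_ge (n : ℕ) (d : ℕ → Bool) : ∀ i, n ≤ ex n d i + i
  | 0 => by simp [ex]
  | i + 1 => by
    have := ex_ge n d i
    simp only [ex]
    split <;> omega

theorem Mv.weight {w w' : List (Lt S Y)} {i : ℕ} {q q' : S} (h : A.Mv w w' i q q') (n : ℕ)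
    (hn : i < n) (d : ℕ → Bool) (hd : A.dir q' = d i) :
    ∑ j ∈ Finset.range (n + 1), (8 * A.K + A.L + 1) ^ (ex n d j) * (seg w' j).length <
    ∑ j ∈ Finset.range (n + 1), (8 * A.K + A.L + 1) ^ (ex n d j) * (seg w j).length := by
  refine sum_two_lt n i hn _ _ (fun j h1 h2 => by rw [h.og j h1 h2]) ?_
  have e1 := h.fire.len_fwd
  have e2 := h.fire.len_bwd
  simp only [hd] at e1 e2
  have hK := A.hK
  set C := 8 * A.K + A.L with hC
  cases hdi : d i with
  | true =>
    rw [hdi] at e1 e2
    simp only [stk, bs_true, Bool.not_true, bs_false, List.length_reverse] at e1 e2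
    have e3 : ex n d (i + 1) = ex n d i + 1 := by simp [ex, hdi]
    rw [e3, pow_succ]
    have hW : 0 < (C + 1) ^ (ex n d i) := by positivity
    generalize (C + 1) ^ (ex n d i) = W at hW ⊢
    calc W * (seg w' i).length + W * (C + 1) * (seg w' (i + 1)).length
        ≤ W * ((seg w i).length + C) + W * (C + 1) * (seg w' (i + 1)).length := by gcongr
      _ < W * (seg w i).length + W * (C + 1) * ((seg w' (i + 1)).length + 1) := by
          have : W * C < W * (C + 1) := by
            apply Nat.mul_lt_mul_of_pos_left <;> omega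
          calc W * ((seg w i).length + C) + W * (C + 1) * (seg w' (i + 1)).length
              = W * (seg w i).length + W * (C + 1) * (seg w' (i + 1)).length + W * C := by ring
            _ < W * (seg w i).length + W * (C + 1) * (seg w' (i + 1)).length + W * (C + 1) := by
                omega
            _ = _ := by ring
      _ ≤ _ := by gcongr
  | false =>
    rw [hdi] at e1 e2
    simp only [stk, bs_true, Bool.not_false, bs_false, List.length_reverse] at e1 e2
    have e3 : ex n d i = ex n d (i + 1) + 1 := by
      have := ex_ge n d i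
      simp only [ex, hdi, Bool.false_eq_true, if_false]
      omega
    rw [e3, pow_succ]
    have hW : 0 < (C + 1) ^ (ex n d (i + 1)) := by positivity
    generalize (C + 1) ^ (ex n d (i + 1)) = W at hW ⊢
    calc W * (C + 1) * (seg w' i).length + W * (seg w' (i + 1)).length
        ≤ W * (C + 1) * (seg w' i).length + W * ((seg w (i + 1)).length + C) := by gcongr
      _ < W * (C + 1) * ((seg w' i).length + 1) + W * (seg w (i + 1)).length := by
          have : W * C < W * (C + 1) := by
            apply Nat.mul_lt_mul_of_pos_left <;> omega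
          calc W * (C + 1) * (seg w' i).length + W * ((seg w (i + 1)).length + C)
              = W * (C + 1) * (seg w' i).length + W * (seg w (i + 1)).length + W * C := by ring
            _ < W * (C + 1) * (seg w' i).length + W * (seg w (i + 1)).length + W * (C + 1) := by
                omega
            _ = _ := by ring
      _ ≤ _ := by gcongr

/-- words with heads have no infinite runs -/
theorem wf_lstep (hT : A.TurnFin) : WellFounded (fun b a => A.LStep a b) := by
  rw [wellFounded_iff_isEmpty_descending_chain]
  refine ⟨?_⟩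
  rintro ⟨W, hW⟩
  have hnh : ∀ k, nh (W k) = nh (W 0) := by
    intro k
    induction k with
    | zero => rfl
    | succ k ih => rw [(hW k).nh_eq, ih]
  choose i q q' hm using fun k => (hW k).mv
  -- heads stay heads
  have hsta : ∀ k j, (∃ p, sta (W k) j = some p) ↔ (∃ p, sta (W (k + 1)) j = some p) := by
    intro k j
    by_cases hj : j = i k
    · subst hj
      exact ⟨fun _ => ⟨_, (hm k).s'⟩, fun _ => ⟨_, (hm k).s⟩⟩
    · rw [(hm k).os j hj]
  have hsta0 : ∀ k j, (∃ p, sta (W k) j = some p) ↔ (∃ p, sta (W 0) j = some p) := by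
    intro k j
    induction k with
    | zero => rfl
    | succ k ih => rw [← hsta k j, ih]
  -- eventually no turns
  have hev : ∀ j, ∃ k0, ∀ k, k0 ≤ k → ∀ p p', sta (W k) j = some p → sta (W (k + 1)) j = some p' →
      A.dir p' = A.dir p := by
    intro j
    by_cases h0 : ∃ p, sta (W 0) j = some p
    · choose f hf using fun k => (hsta0 k j).2 h0
      obtain ⟨k0, hk0⟩ := hT (fun k => (f k, stk (W k) j)) (by
        intro k
        by_cases hj : j = i k
        · subst hj
          left
          have e1 : f k = q k := by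
            have := (hf k).symm.trans (hm k).s
            simpa using this
          have e2 : f (k + 1) = q' k := by
            have := (hf (k + 1)).symm.trans (hm k).s'
            simpa using this
          change A.Fire (f k, stk (W k) (i k)) (f (k + 1), stk (W (k + 1)) (i k))
          rw [e1, e2]
          exact (hm k).fire
        · right
          have e1 : f (k + 1) = f k := by
            have := (hf (k + 1)).symm.trans (((hm k).os j hj).trans (hf k))
            simpa using this
          change A.Env (f k, stk (W k) j) (f (k + 1), stk (W (k + 1)) j)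
          rw [e1]
          exact (hm k).env j hj _)
      refine ⟨k0, fun k hk p p' h1 h2 => ?_⟩
      have e1 : f k = p := by
        have := (hf k).symm.trans h1
        simpa using this
      have e2 : f (k + 1) = p' := by
        have := (hf (k + 1)).symm.trans h2
        simpa using this
      have := hk0 k hk
      simp only [e1, e2] at this
      exact this
    · refine ⟨0, fun k _ p p' h1 _ => absurd ((hsta0 k j).1 ⟨p, h1⟩) h0⟩
  choose k0 hk0 using hev
  let n := nh (W 0)
  let k1 := (Finset.range n).sup k0
  have hk1 : ∀ j, j < n → ∀ k, k1 ≤ k → ∀ p p', sta (W k) j = some p →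
      sta (W (k + 1)) j = some p' → A.dir p' = A.dir p := by
    intro j hj k hk
    refine hk0 j k (le_trans ?_ hk)
    exact Finset.le_sup (f := k0) (Finset.mem_range.2 hj)
  let d : ℕ → Bool := fun j => match sta (W k1) j with
    | some p => A.dir p
    | none => true
  have hd : ∀ j, j < n → ∀ k, ∀ p, sta (W (k1 + k)) j = some p → A.dir p = d j := by
    intro j hj k
    induction k with
    | zero =>
      intro p hp
      rw [Nat.add_zero] at hp
      simp only [d, hp]
    | succ k ih =>
      intro p hp
      obtain ⟨p0, hp0⟩ := (hsta (k1 + k) j).2 ⟨p, hp⟩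
      rw [hk1 j hj (k1 + k) (by omega) p0 p hp0 hp]
      exact ih p0 hp0
  have hdec : ∀ k, ∑ j ∈ Finset.range (n + 1),
        (8 * A.K + A.L + 1) ^ (ex n d j) * (seg (W (k1 + k)) j).length + k ≤
      ∑ j ∈ Finset.range (n + 1), (8 * A.K + A.L + 1) ^ (ex n d j) * (seg (W k1) j).length := by
    intro k
    induction k with
    | zero => simp
    | succ k ih =>
      have hlt := (hm (k1 + k)).lt
      rw [hnh] at hlt
      have := (hm (k1 + k)).weight n hlt d (hd _ hlt (k + 1) _ (hm (k1 + k)).s')
      rw [← Nat.add_assoc k1 k 1]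
      omega
  have := hdec (∑ j ∈ Finset.range (n + 1),
    (8 * A.K + A.L + 1) ^ (ex n d j) * (seg (W k1) j).length + 1)
  omega

end LowM

end Pool.Agent.Helper462.OneRule
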