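import Pool.Agent.Helper462.OneRule.Sim
import Pool.Agent.Helper462.OneRule.Lin

set_option autoImplicit false

/-! The rule terminates if and only if the counter machine does not stop. -/

namespace Pool.Agent.Helper462.OneRule

open Term LowM

instance finite_ctl {Q : Type} [Finite Q] {B : ℕ} : Finite (Ctl Q B) := by
  refine Finite.of_injective (β := (Q × (Bool → Fin B)) ⊕
    ((Q × (Bool → Fin B) × (Bool → Fin B) × Bool) ⊕ Unit)) (fun c => match c with
    | .RS q r => .inl (q, r)
    | .LS q r c f => .inr (.inl (q, r, c, f))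
    | .LR => .inr (.inr ())) ?_
  intro a b h
  cases a <;> cases b <;> simp_all

instance finite_lst {C : Type} [Finite C] : Finite (LSt C) := by
  refine Finite.of_injective (β := C ⊕ ((C × Tok) ⊕ (C × Tok))) (fun c => match c with
    | .scan c => .inl c
    | .got c t => .inr (.inl (c, t))
    | .emit c t => .inr (.inr (c, t))) ?_
  intro a b h
  cases a <;> cases b <;> simp_all

section

variable {S Y : Type} [DecidableEq S] [DecidableEq Y] {A : LowM S Y} {n : ℕ} {pr : ℕ → S × Y}
  {qs : S}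

/-- a cell with given flag, state and symbol -/
def mkc (A : LowM S Y) (n : ℕ) (pr : ℕ → S × Y) (fl : Bool) (q : S) (s : Y) : Cel A n := fun a =>
  if a.1 / n = 0 then fl
  else if a.1 / n = 1 then decide ((pr (a.1 % n)).2 = s)
  else ev (fun _ => true) (dat A n pr q a)

theorem mkc_da (fl : Bool) (q : S) (s : Y) : IsDa A n pr (mkc A n pr fl q s) q := by
  intro a ha
  unfold mkc
  rw [if_neg (by omega), if_neg (by omega)]

theorem mkc_sy (fl : Bool) (q : S) (s : Y) : IsSy A n pr (mkc A n pr fl q s) s := by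
  intro a ha
  unfold mkc
  rw [if_neg (by omega), if_pos ha]

theorem mkc_act (h2 : 2 ≤ n) (fl : Bool) (q : S) (s : Y) :
    Act A n (mkc A n pr fl q s) ↔ fl = true := by
  have har : 0 < ar A n := by
    have := ar_lt (A := A) (i := 0) (p := 0) (by omega) (by omega : 0 < n)
    omega
  constructor
  · intro h
    have := h ⟨0, har⟩ (by simp)
    simpa [mkc] using this
  · intro h a ha
    unfold mkc
    rw [if_pos (Nat.div_eq_of_lt (by omega)), h]

/-- every word of letters is the word of a word of cells -/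
theorem exists_cells (h2 : 2 ≤ n) (hsur : ∀ x, ∃ p < n, pr p = x) (q : S) (L1 L2 : List Y) :
    ∃ w : List (Cel A n), w.map (letter A n pr) = L1.map .ps ++ .hd (some q) :: L2.map .ps := by
  have h1 : ∀ L : List Y, (L.map (mkc A n pr false q)).map (letter A n pr) = L.map .ps := by
    intro L
    rw [List.map_map]
    refine List.map_congr_left fun s _ => ?_
    refine letter_pas hsur (mkc_da _ _ _) (mkc_sy _ _ _) ?_
    rw [mkc_act h2]
    simp
  by_cases hY : Nonempty Y
  · obtain ⟨s⟩ := hY
    refine ⟨L1.map (mkc A n pr false q) ++ mkc A n pr true q s :: L2.map (mkc A n pr false q), ?_⟩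
    rw [List.map_append, List.map_cons, h1, h1, letter_act hsur (mkc_da _ _ _) (mkc_sy _ _ _)
      ((mkc_act h2 _ _ _).2 rfl)]
  · exact absurd ⟨A.z⟩ hY

theorem exists_seq {α : Type} {R : α → α → Prop} {P : α → Prop} (x : α) (hx : P x)
    (h : ∀ x, P x → ∃ y, R x y ∧ P y) : ∃ f : ℕ → α, ∀ k, R (f k) (f (k + 1)) := by
  choose g hg using fun x : {x // P x} => h x.1 x.2
  let f : ℕ → {x // P x} := fun k => Nat.rec ⟨x, hx⟩ (fun _ y => ⟨g y, (hg y).2⟩) k
  refine ⟨fun k => (f k).1, fun k => ?_⟩
  exact (hg (f k)).1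

end

section

variable {Q : Type} (M : Sys Q Bool) (q0 : Q) (N K : ℕ) (hK : 0 < K)
  [DecidableEq (LSt (Ctl Q M.B))] (n : ℕ) (pr : ℕ → LSt (Ctl Q M.B) × Sy)
  (qs : LSt (Ctl Q M.B))

theorem terminating_of (h2 : 2 ≤ n) (hn : n < K) (hsur : ∀ x, ∃ p < n, pr p = x)
    (hinj : ∀ p < n, ∀ p' < n, pr p = pr p' → p = p') (hM : ¬ M.Halts (some q0) (ini N)) :
    Terminating (lt (lowm M q0 N K hK) n) (rt (lowm M q0 N K hK) n pr qs) := by
  have hT : (lowm M q0 N K hK).TurnFin :=
    turnFin hK (fun c G h => acc_closed M q0 N hM c G (h true) (h false))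
  have hW := wf_cstep (qs := qs) h2 hn hsur hinj (wf_lstep hT)
  rintro ⟨t, ht⟩
  have hsn := all_sn (Y := yv (lowm M q0 N K hK) n) lcs_ne rcs_ne (rcs_in_lcs (qs := qs) (pr := pr) h2)
    hW (t 0)
  have key : ∀ x, Acc (fun b a => Step (lt (lowm M q0 N K hK) n)
      (rt (lowm M q0 N K hK) n pr qs) a b) x → ∀ k, t k = x → False := by
    intro x hx
    induction hx with
    | intro x _ ih =>
      intro k hk
      refine ih (t (k + 1)) ?_ (k + 1) rfl
      rw [← hk]
      exact ht k
  exact key _ hsn 0 rfl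

theorem not_terminating_of (h2 : 2 ≤ n) (hn : n < K) (hsur : ∀ x, ∃ p < n, pr p = x)
    (hinj : ∀ p < n, ∀ p' < n, pr p = pr p' → p = p') (hM : M.Halts (some q0) (ini N)) :
    ¬ Terminating (lt (lowm M q0 N K hK) n) (rt (lowm M q0 N K hK) n pr qs) := by
  intro hter
  apply hter
  obtain ⟨c, st, hrun⟩ := run_start (K := K) hM
  let P : List (Cel (lowm M q0 N K hK) n) → Prop := fun w =>
    ∃ (q : LSt (Ctl Q M.B)) (L1 L2 : List Sy),
    w.map (letter (lowm M q0 N K hK) n pr) = L1.map .ps ++ .hd (some q) :: L2.map .ps ∧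
      Run M q0 N K q (LowM.bs L1.reverse L2)
  obtain ⟨w0, hw0⟩ := exists_cells (A := lowm M q0 N K hK) (n := n) (pr := pr) h2 hsur (.scan c)
    (st false).reverse (st true)
  have hP0 : P w0 := by
    refine ⟨.scan c, (st false).reverse, st true, hw0, ?_⟩
    have : LowM.bs (st false).reverse.reverse (st true) = st := by
      funext s
      cases s <;> simp [LowM.bs]
    rw [this]
    exact hrun
  obtain ⟨f, hf⟩ := exists_seq (R := CStep (lowm M q0 N K hK) n pr qs) w0 hP0 (by
    rintro w ⟨q, L1, L2, hw, hr⟩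
    obtain ⟨hlen, j, q', hj, hδ⟩ := run_progress hK hr
    have hl1 := hlen false
    have hl2 := hlen true
    simp only [LowM.bs_false, LowM.bs_true, List.length_reverse] at hl1 hl2
    obtain ⟨w', L1', L2', g1, g2, g3⟩ := cstep_forward (A := lowm M q0 N K hK) (qs := qs) h2 hn
      hsur hinj hw hl1 hl2 hj hδ
    exact ⟨w', g1, q', L1', L2', g2, run_step hK hr g3⟩)
  refine ⟨fun k => wt (f k) (.var 0), fun k => ?_⟩
  exact step_of_cst lcs_lt (rcs_lt h2) (hf k) _

end

end Pool.Agent.Helper462.OneRule
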