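import Pool.Agent.Helper462.OneRule.Sweep
import Pool.Agent.Helper462.OneRule.Low

set_option autoImplicit false

/-! The low level machine simulating the sweeping machine. Tokens are blocks of at least `K` equal
symbols separated by zeros. -/

namespace Pool.Agent.Helper462.OneRule

open LowM

/-- symbols: zero or a token with a side tag -/
abbrev Sy := Option (Tok × Bool)

/-- low level states -/
inductive LSt (C : Type)
  | scan (c : C)
  | got (c : C) (t : Tok)
  | emit (c : C) (t : Tok)

variable {Q : Type}

/-- control state of a low level state -/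
def LSt.ctl {C : Type} : LSt C → C
  | .scan c => c
  | .got c _ => c
  | .emit c _ => c

variable (M : Sys Q Bool) (q0 : Q) (N K : ℕ)

/-- transitions of the low level machine -/
def dl : LSt (Ctl Q M.B) → Sy → Option (LSt (Ctl Q M.B))
  | .scan c, none => some (.scan c)
  | .scan c, some (t, s) =>
    if s = c.dir ∧ (tab M q0 N c t).isSome = true then some (.got c t) else none
  | .got c t, none => some (.emit c t)
  | .got c t, some (t', s) => if t' = t ∧ s = c.dir then some (.got c t) else none
  | .emit c t, none => (tab M q0 N c t).map (fun x => .scan x.1)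
  | .emit _ _, some _ => none

/-- a block -/
def blk (s : Bool) (t : Tok) : List Sy :=
  List.replicate K (some (t, s)) ++ List.replicate (3 * K) none

/-- length of the written part -/
def Lc : ℕ := (N + 2 * M.l + 2) * (4 * K)

/-- the written part -/
def spc : LSt (Ctl Q M.B) → List Sy
  | .emit c t =>
    match tab M q0 N c t with
    | some (c', out) => ori c'.dir (out.flatMap (blk K (!c'.dir)) ++
        List.replicate (Lc M N K - out.length * (4 * K)) none)
    | none => List.replicate (Lc M N K) none
  | _ => List.replicate (Lc M N K) none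

/-- symbols foreign to a side -/
def frc (s : Bool) (y : Sy) : Prop := y = none ∨ ∃ t, y = some (t, !s)

theorem length_blk (s : Bool) (t : Tok) : (blk K s t).length = 4 * K := by
  simp [blk]; ring

theorem length_flat (s : Bool) (out : List Tok) :
    (out.flatMap (blk K s)).length = out.length * (4 * K) := by
  induction out with
  | nil => simp
  | cons t out ih => simp [length_blk, ih]; ring

theorem tab_len {c c' : Ctl Q M.B} {t : Tok} {out : List Tok}
    (h : tab M q0 N c t = some (c', out)) : out.length ≤ N + 2 * M.l + 2 := by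
  cases c with
  | RS q r =>
    cases t with
    | ctr j => simp only [tab, Option.some.injEq, Prod.mk.injEq] at h; rw [← h.2]; simp
    | U => simp only [tab, Option.some.injEq, Prod.mk.injEq] at h; rw [← h.2]; simp
    | V => simp only [tab, Option.some.injEq, Prod.mk.injEq] at h; rw [← h.2]; simp
    | E =>
      have h1 := M.hb q r true
      have h2 := M.hb q r false
      simp only [tab] at h
      split at h
      · simp only [Option.some.injEq, Prod.mk.injEq] at h
        rw [← h.2]
        simp
        omega
      · simp only [Option.some.injEq, Prod.mk.injEq] at h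
        rw [← h.2]
        simp
        omega
  | LS q r c f =>
    cases t with
    | ctr j =>
      have h1 := M.ha q r j
      simp only [tab] at h
      split at h
      · simp only [Option.some.injEq, Prod.mk.injEq] at h
        rw [← h.2]
        simp
        omega
      · simp only [Option.some.injEq, Prod.mk.injEq] at h
        rw [← h.2]
        simp
    | U => simp only [tab, Option.some.injEq, Prod.mk.injEq] at h; rw [← h.2]; simp
    | V => simp only [tab, Option.some.injEq, Prod.mk.injEq] at h; rw [← h.2]; simp
    | E =>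
      simp only [tab] at h
      split at h
      · simp only [Option.map_eq_some_iff, Prod.mk.injEq] at h
        obtain ⟨a, _, _, h⟩ := h
        rw [← h]; simp
      · cases h
  | LR =>
    cases t with
    | ctr j => simp only [tab, Option.some.injEq, Prod.mk.injEq] at h; rw [← h.2]; simp
    | U => simp only [tab, Option.some.injEq, Prod.mk.injEq] at h; rw [← h.2]; simp
    | V => simp only [tab, Option.some.injEq, Prod.mk.injEq] at h; rw [← h.2]; simp
    | E => simp only [tab, Option.some.injEq, Prod.mk.injEq] at h; rw [← h.2]; simp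

theorem tab_turn {c c' : Ctl Q M.B} {t : Tok} {out : List Tok}
    (h : tab M q0 N c t = some (c', out)) (hd : c'.dir ≠ c.dir) : Tok.E ∈ out := by
  cases c with
  | RS q r =>
    cases t with
    | ctr j => simp only [tab, Option.some.injEq, Prod.mk.injEq] at h; rw [← h.1] at hd; exact absurd rfl hd
    | U => simp only [tab, Option.some.injEq, Prod.mk.injEq] at h; rw [← h.1] at hd; exact absurd rfl hd
    | V => simp only [tab, Option.some.injEq, Prod.mk.injEq] at h; rw [← h.1] at hd; exact absurd rfl hd
    | E =>
      simp only [tab] at h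
      split at h
      · simp only [Option.some.injEq, Prod.mk.injEq] at h
        rw [← h.2]
        simp
      · simp only [Option.some.injEq, Prod.mk.injEq] at h
        rw [← h.2]
        simp
  | LS q r c f =>
    cases t with
    | ctr j =>
      simp only [tab] at h
      split at h
      · simp only [Option.some.injEq, Prod.mk.injEq] at h
        rw [← h.1] at hd; exact absurd rfl hd
      · simp only [Option.some.injEq, Prod.mk.injEq] at h
        rw [← h.1] at hd; exact absurd rfl hd
    | U => simp only [tab, Option.some.injEq, Prod.mk.injEq] at h; rw [← h.1] at hd; exact absurd rfl hd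
    | V => simp only [tab, Option.some.injEq, Prod.mk.injEq] at h; rw [← h.1] at hd; exact absurd rfl hd
    | E =>
      simp only [tab] at h
      split at h
      · simp only [Option.map_eq_some_iff, Prod.mk.injEq] at h
        obtain ⟨a, _, _, h⟩ := h
        rw [← h]; simp
      · cases h
  | LR =>
    cases t with
    | ctr j => simp only [tab, Option.some.injEq, Prod.mk.injEq] at h; rw [← h.1] at hd; exact absurd rfl hd
    | U => simp only [tab, Option.some.injEq, Prod.mk.injEq] at h; rw [← h.1] at hd; exact absurd rfl hd
    | V => simp only [tab, Option.some.injEq, Prod.mk.injEq] at h; rw [← h.1] at hd; exact absurd rfl hd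
    | E => simp only [tab, Option.some.injEq, Prod.mk.injEq] at h; rw [← h.2]; simp

theorem tab_noturn {c c' : Ctl Q M.B} {t : Tok} {out : List Tok}
    (h : tab M q0 N c t = some (c', out)) (hd : c'.dir = c.dir) : t ≠ Tok.E := by
  rintro rfl
  cases c with
  | RS q r =>
    simp only [tab] at h
    split at h
    · simp only [Option.some.injEq, Prod.mk.injEq] at h
      rw [← h.1] at hd
      simp [Ctl.dir] at hd
    · simp only [Option.some.injEq, Prod.mk.injEq] at h
      rw [← h.1] at hd
      simp [Ctl.dir] at hd
  | LS q r c f =>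
    simp only [tab] at h
    split at h
    · simp only [Option.map_eq_some_iff, Prod.mk.injEq] at h
      obtain ⟨a, _, h, _⟩ := h
      rw [← h] at hd
      simp [Ctl.dir] at hd
    · cases h
  | LR =>
    simp only [tab, Option.some.injEq, Prod.mk.injEq] at h
    rw [← h.1] at hd
    simp [Ctl.dir] at hd

theorem ori_ori (d : Bool) {α : Type} (l : List α) : ori d (ori d l) = l := by
  cases d <;> simp [ori]

theorem length_spc (q : LSt (Ctl Q M.B)) : (spc M q0 N K q).length = Lc M N K := by
  cases q with
  | scan c => simp [spc]
  | got c t => simp [spc]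
  | emit c t =>
    simp only [spc]
    split
    · rename_i c' out h
      have := tab_len M q0 N h
      rw [length_ori, List.length_append, length_flat, List.length_replicate]
      have h2 : out.length * (4 * K) ≤ Lc M N K := Nat.mul_le_mul_right _ this
      omega
    · simp

/-- the low level machine -/
def lowm (hK : 0 < K) : LowM (LSt (Ctl Q M.B)) Sy where
  z := none
  δ := dl M q0 N
  dir := fun q => q.ctl.dir
  spl := spc M q0 N K
  K := K
  L := Lc M N K
  hK := hK
  hL := length_spc M q0 N K
  fr := frc
  fz := fun _ => Or.inl rfl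
  fs := by
    intro q j q' h y hy
    cases q with
    | scan c =>
      simp only [spc] at hy
      exact Or.inl (List.eq_of_mem_replicate hy)
    | got c t =>
      simp only [spc] at hy
      exact Or.inl (List.eq_of_mem_replicate hy)
    | emit c t =>
      cases j with
      | some j => simp [dl] at h
      | none =>
        simp only [dl, Option.map_eq_some_iff] at h
        obtain ⟨⟨c', out⟩, h1, rfl⟩ := h
        simp only [spc, h1] at hy
        rw [mem_ori] at hy
        simp only [List.mem_append, List.mem_flatMap, blk, List.mem_replicate] at hy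
        rcases hy with ⟨t', _, h2 | h2⟩ | h2
        · exact Or.inr ⟨t', h2.2⟩
        · exact Or.inl h2.2
        · exact Or.inl h2.2

/-- a stack of symbols representing a stack of tokens -/
def Tks (s : Bool) : List Tok → List Sy → Prop
  | [], _ => True
  | t :: G, ys => ∃ k m ys', ys = List.replicate k none ++ (List.replicate m (some (t, s)) ++
      (List.replicate (3 * K) none ++ ys')) ∧ K ≤ m ∧ Tks s G ys'

theorem rep_zeros {s : Bool} {G : List Tok} {ys : List Sy} (h : Tks K s G ys) (n : ℕ) :
    Tks K s G (List.replicate n none ++ ys) := by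
  cases G with
  | nil => trivial
  | cons t G =>
    obtain ⟨k, m, ys', rfl, h1, h2⟩ := h
    refine ⟨n + k, m, ys', ?_, h1, h2⟩
    rw [List.replicate_add]
    simp only [List.append_assoc]

theorem rep_flat {s : Bool} {G : List Tok} {ys : List Sy} (h : Tks K s G ys) (out : List Tok) :
    Tks K s (out ++ G) (out.flatMap (blk K s) ++ ys) := by
  induction out with
  | nil => simpa using h
  | cons t out ih =>
    refine ⟨0, K, out.flatMap (blk K s) ++ ys, ?_, le_rfl, ih⟩
    simp [blk]

theorem drop_zeros {α : Type} (a : α) (W : List α) (k : ℕ) (h : K ≤ k) :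
    (List.replicate k a ++ W).drop K = List.replicate (k - K) a ++ W := by
  rw [List.drop_append_of_le_length (by simpa using h), List.drop_replicate]

/-- the true stack agrees with the ideal one up to a point where foreign symbols start -/
def Tr (b s : Bool) (U ys : List Sy) : Prop :=
  ∃ P Z R, ys = P ++ Z ∧ U = P ++ R ∧ (if b then Z = R else ∀ y ∈ Z, frc s y)

theorem tr_refl (b s : Bool) (U : List Sy) : Tr b s U U := by
  cases b
  · exact ⟨U, [], [], by simp, by simp, by simp⟩
  · exact ⟨U, [], [], by simp, by simp, by simp⟩

theorem tr_true {s : Bool} {U ys : List Sy} (h : Tr true s U ys) : ys = U := by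
  obtain ⟨P, Z, R, rfl, rfl, h⟩ := h
  simp only [if_true] at h
  rw [h]

theorem tr_drop {b s : Bool} {U ys : List Sy} (h : Tr b s U ys) (A : List Sy) (n : ℕ) :
    Tr b s (A ++ U.drop n) (A ++ ys.drop n) := by
  obtain ⟨P, Z, R, rfl, rfl, h⟩ := h
  refine ⟨A ++ P.drop n, Z.drop (n - P.length), R.drop (n - P.length), ?_, ?_, ?_⟩
  · rw [List.drop_append, List.append_assoc]
  · rw [List.drop_append, List.append_assoc]
  · cases b
    · simp only [Bool.false_eq_true, if_false] at h ⊢
      intro y hy
      exact h y (List.mem_of_mem_drop hy)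
    · simp only [if_true] at h ⊢
      rw [h]

theorem tr_read {b s : Bool} {U ys : List Sy} (h : Tr b s U ys) (hK : 0 < K) {j : Sy}
    (hj : ys[K - 1]? = some j) : U[K - 1]? = some j ∨
      (frc s j ∧ ∀ U' i, Tr b s U' (List.replicate i none ++ ys.drop K)) := by
  obtain ⟨P, Z, R, rfl, rfl, h⟩ := h
  by_cases hP : K ≤ P.length
  · left
    rw [List.getElem?_append_left (by omega)] at hj ⊢
    exact hj
  · cases b
    · right
      simp only [Bool.false_eq_true, if_false] at h
      rw [List.getElem?_append_right (by omega)] at hj
      refine ⟨h j (List.mem_of_getElem? hj), ?_⟩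
      intro U' i
      refine ⟨[], List.replicate i none ++ (P ++ Z).drop K, U', by simp, by simp, ?_⟩
      simp only [Bool.false_eq_true, if_false]
      intro y hy
      rw [List.drop_append, List.drop_eq_nil_of_le (by omega : P.length ≤ K)] at hy
      simp only [List.mem_append, List.nil_append, List.mem_replicate] at hy
      rcases hy with ⟨_, rfl⟩ | hy
      · exact Or.inl rfl
      · exact h y (List.mem_of_mem_drop hy)
    · left
      simp only [if_true] at h
      rw [← h]
      exact hj

theorem tr_env {s : Bool} {U ys : List Sy} (h : Tr false s U ys) (n : ℕ) {Z : List Sy}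
    (hZ : ∀ y ∈ Z, frc s y) : Tr false s U (ys.take n ++ Z) := by
  obtain ⟨P, Z0, R, rfl, rfl, h⟩ := h
  simp only [Bool.false_eq_true, if_false] at h
  refine ⟨P.take n, Z0.take (n - P.length) ++ Z, P.drop n ++ R, ?_, ?_, ?_⟩
  · rw [List.take_append, List.append_assoc]
  · rw [← List.append_assoc, List.take_append_drop]
  · simp only [Bool.false_eq_true, if_false]
    intro y hy
    rw [List.mem_append] at hy
    rcases hy with hy | hy
    · exact h y (List.mem_of_mem_take hy)
    · exact hZ y hy

/-- the writing side -/
def Wr (b s : Bool) (G : List Tok) (ys : List Sy) : Prop :=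
  ∃ k W, K ≤ k ∧ Tr b s (List.replicate k none ++ W) ys ∧ Tks K s G W

/-- the reading side -/
def Rd (b : Bool) : LSt (Ctl Q M.B) → List Tok → List Sy → Prop
  | .scan c, G, ys => ∃ U, Tr b c.dir U ys ∧ Tks K c.dir G U
  | .got c t, G, ys => ∃ rest k m R, G = t :: rest ∧ k < K ∧
      Tr b c.dir (List.replicate k none ++ (List.replicate m (some (t, c.dir)) ++
        (List.replicate (3 * K) none ++ R))) ys ∧ Tks K c.dir rest R
  | .emit c t, G, ys => ∃ rest k R, G = t :: rest ∧ 2 * K ≤ k ∧
      Tr b c.dir (List.replicate k none ++ R) ys ∧ Tks K c.dir rest R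

/-- simulation of a closed configuration -/
structure SimR (b : Bool) (q : LSt (Ctl Q M.B)) (st : Bool → List Sy) (G : Bool → List Tok) :
    Prop where
  rd : Rd M K b q (G q.ctl.dir) (st q.ctl.dir)
  wr : Wr K b (!q.ctl.dir) (G (!q.ctl.dir)) (st (!q.ctl.dir))
  e : ∀ s, Tok.E ∈ G s

/-- only the writing side is known -/
def Half (q : LSt (Ctl Q M.B)) (st : Bool → List Sy) (g : List Tok) : Prop :=
  Wr K false (!q.ctl.dir) g (st (!q.ctl.dir)) ∧ Tok.E ∈ g

theorem wr_push0 {b s : Bool} {G : List Tok} {ys : List Sy} (h : Wr K b s G ys) (d : Bool)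
    {α : ℕ} (hα : K ≤ α) (n β : ℕ) :
    Wr K b s G (List.replicate α none ++ ori d (List.replicate n none) ++ List.replicate β none ++
      ys.drop K) := by
  obtain ⟨k, W, h1, h2, h3⟩ := h
  refine ⟨α + n + β + (k - K), W, by omega, ?_, h3⟩
  have := tr_drop h2 (List.replicate α none ++ ori d (List.replicate n none) ++
    List.replicate β none) K
  rw [drop_zeros K _ _ _ h1] at this
  convert this using 1
  have e : ori d (List.replicate n (none : Sy)) = List.replicate n none := by
    cases d <;> simp [ori]
  rw [e, List.replicate_add, List.replicate_add, List.replicate_add]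
  simp only [List.append_assoc]

/-- writing tokens on top of a known stack -/
theorem wr_push {b s : Bool} {G : List Tok} {U ys : List Sy} (h2 : Tr b s U ys) (out : List Tok)
    (hR : Tks K s G (U.drop K)) {α : ℕ} (hα : K ≤ α) (n β : ℕ) :
    Wr K b s (out ++ G) (List.replicate α none ++ (out.flatMap (blk K s) ++ List.replicate n none)
      ++ List.replicate β none ++ ys.drop K) := by
  refine ⟨α, out.flatMap (blk K s) ++ (List.replicate n none ++
    (List.replicate β none ++ U.drop K)), hα, ?_, ?_⟩
  · have := tr_drop h2 (List.replicate α none ++ (out.flatMap (blk K s) ++ List.replicate n none)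
      ++ List.replicate β none) K
    convert this using 1
    simp only [List.append_assoc]
  · exact rep_flat K (rep_zeros K (rep_zeros K hR _) _) _

/-- writing tokens on top of an unknown stack -/
theorem wr_push_nil (s : Bool) (ys : List Sy) (out : List Tok) {α : ℕ} (hα : K ≤ α) (n β : ℕ) :
    Wr K false s out (List.replicate α none ++ (out.flatMap (blk K s) ++ List.replicate n none)
      ++ List.replicate β none ++ ys.drop K) := by
  have := wr_push K (tr_refl false s ys) out (G := []) trivial hα n β
  simpa using this

theorem wr_rd {b s : Bool} {G : List Tok} {ys : List Sy} (h : Wr K b s G ys) (i : ℕ) :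
    ∃ U, Tr b s U (List.replicate i none ++ ys.drop K) ∧ Tks K s G U := by
  obtain ⟨k, W, h1, h2, h3⟩ := h
  refine ⟨_, tr_drop h2 _ K, ?_⟩
  rw [drop_zeros K _ _ _ h1]
  exact rep_zeros K (rep_zeros K h3 _) _

theorem get_in {α : Type} (a : α) (W : List α) (k n : ℕ) (h : n < k) :
    (List.replicate k a ++ W)[n]? = some a := by
  rw [List.getElem?_append_left (by simpa using h), List.getElem?_replicate, if_pos h]

theorem get_past {α : Type} (a : α) (W : List α) (k n : ℕ) (h : k ≤ n) :
    (List.replicate k a ++ W)[n]? = W[n - k]? := by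
  rw [List.getElem?_append_right (by simpa using h), List.length_replicate]

theorem drop_past {α : Type} (a : α) (W : List α) (k n : ℕ) (h : k ≤ n) :
    (List.replicate k a ++ W).drop n = W.drop (n - k) := by
  rw [List.drop_append, List.drop_eq_nil_of_le (by simpa using h), List.nil_append,
    List.length_replicate]

variable {M q0 N K}

/-- one step of a head is simulated -/
theorem sim_step (hK : 0 < K) {b : Bool} {q q' : LSt (Ctl Q M.B)} {st st' : Bool → List Sy}
    {G : Bool → List Tok} (hf : (lowm M q0 N K hK).Fire (q, st) (q', st'))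
    (h : SimR M K b q st G) :
    (SimR M K b q' st' G ∧ q'.ctl = q.ctl) ∨
      ∃ G', SmStep M q0 N (q.ctl, G) (q'.ctl, G') ∧ SimR M K b q' st' G' := by
  obtain ⟨l1, l2, j, hj, hδ, i, hi, α, β, a1, a2, b1, b2, h5, h6⟩ := hf
  simp only [lowm] at l1 l2 hj hδ hi a1 a2 b1 b2 h5 h6
  cases q with
  | scan c =>
    rcases hG : G c.dir with _ | ⟨t, rest⟩
    · exact absurd (h.e c.dir) (by rw [hG]; simp)
    obtain ⟨U, hU, hR⟩ := h.rd
    simp only [LSt.ctl] at hU hR hj
    rw [hG] at hR
    obtain ⟨k, m, ys', rfl, hm, hR'⟩ := hR
    have hread := tr_read K hU hK hj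
    rcases j with _ | ⟨t', s'⟩
    · simp only [dl, Option.some.injEq] at hδ
      subst hδ
      simp only [LSt.ctl] at h5 h6
      refine Or.inl ⟨⟨?_, ?_, h.e⟩, rfl⟩
      · simp only [LSt.ctl, Rd]
        rw [h5]
        rcases hread with hr | ⟨hfr, hfree⟩
        · have hk : K ≤ k := by
            by_contra hk
            rw [get_past _ _ _ _ (by omega), get_in _ _ _ _ (by omega)] at hr
            cases hr
          refine ⟨_, tr_drop hU _ _, ?_⟩
          rw [drop_zeros K _ _ _ hk, hG]
          refine rep_zeros K (rep_zeros K ?_ _) _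
          exact ⟨0, m, ys', by simp, hm, hR'⟩
        · refine ⟨_, hfree (List.replicate k none ++ (List.replicate m (some (t, c.dir)) ++
            (List.replicate (3 * K) none ++ ys'))) i, ?_⟩
          rw [hG]
          exact ⟨k, m, ys', rfl, hm, hR'⟩
      · simp only [LSt.ctl]
        rw [h6]
        exact wr_push0 K h.wr _ (by omega) _ _
    · simp only [dl] at hδ
      split at hδ
      · rename_i hc
        obtain ⟨rfl, hs⟩ := hc
        simp only [Option.some.injEq] at hδ
        subst hδ
        simp only [LSt.ctl] at h5 h6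
        refine Or.inl ⟨⟨?_, ?_, h.e⟩, rfl⟩
        · simp only [LSt.ctl, Rd]
          rw [h5]
          rcases hread with hr | ⟨hfr, hfree⟩
          · have hk : k < K := by
              by_contra hk
              rw [get_in _ _ _ _ (by omega)] at hr
              cases hr
            rw [get_past _ _ _ _ (by omega), get_in _ _ _ _ (by omega)] at hr
            simp only [Option.some.injEq, Prod.mk.injEq, and_true] at hr
            subst hr
            refine ⟨rest, i, m - (K - k), ys', hG, hi, ?_, hR'⟩
            have := tr_drop hU (List.replicate i none) K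
            rw [drop_past _ _ _ _ (by omega : k ≤ K),
              drop_zeros (K - k) _ _ _ (by omega : K - k ≤ m)] at this
            exact this
          · rcases hfr with hfr | ⟨t'', hfr⟩
            · cases hfr
            · simp at hfr
        · simp only [LSt.ctl]
          rw [h6]
          exact wr_push0 K h.wr _ (by omega) _ _
      · cases hδ
  | got c t =>
    obtain ⟨rest, k, m, R, hG, hk, hU, hR⟩ := h.rd
    simp only [LSt.ctl] at hU hR hj hG
    have hread := tr_read K hU hK hj
    rcases j with _ | ⟨t', s'⟩
    · simp only [dl, Option.some.injEq] at hδ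
      subst hδ
      simp only [LSt.ctl] at h5 h6
      refine Or.inl ⟨⟨?_, ?_, h.e⟩, rfl⟩
      · simp only [LSt.ctl, Rd]
        rw [h5]
        rcases hread with hr | ⟨hfr, hfree⟩
        · rw [get_past _ _ _ _ (by omega)] at hr
          have hkm : k + m < K := by
            by_contra hkm
            rw [get_in _ _ _ _ (by omega)] at hr
            cases hr
          refine ⟨rest, i + (3 * K - (K - k - m)), R, hG, by omega, ?_, hR⟩
          have := tr_drop hU (List.replicate i none) K
          rw [drop_past _ _ _ _ (by omega : k ≤ K), drop_past _ _ _ _ (by omega : m ≤ K - k),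
            drop_zeros _ _ _ _ (by omega)] at this
          rw [List.replicate_add, List.append_assoc]
          exact this
        · refine ⟨rest, 2 * K, R, hG, le_rfl, hfree _ i, hR⟩
      · simp only [LSt.ctl]
        rw [h6]
        exact wr_push0 K h.wr _ (by omega) _ _
    · simp only [dl] at hδ
      split at hδ
      · rename_i hc
        obtain ⟨rfl, rfl⟩ := hc
        simp only [Option.some.injEq] at hδ
        subst hδ
        simp only [LSt.ctl] at h5 h6
        refine Or.inl ⟨⟨?_, ?_, h.e⟩, rfl⟩
        · simp only [LSt.ctl, Rd]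
          rw [h5]
          rcases hread with hr | ⟨hfr, hfree⟩
          · rw [get_past _ _ _ _ (by omega)] at hr
            have hkm : K ≤ k + m := by
              by_contra hkm
              rw [get_past _ _ _ _ (by omega), get_in _ _ _ _ (by omega)] at hr
              cases hr
            refine ⟨rest, i, m - (K - k), R, hG, hi, ?_, hR⟩
            have := tr_drop hU (List.replicate i none) K
            rw [drop_past _ _ _ _ (by omega : k ≤ K),
              drop_zeros (K - k) _ _ _ (by omega : K - k ≤ m)] at this
            exact this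
          · rcases hfr with hfr | ⟨t'', hfr⟩
            · cases hfr
            · simp at hfr
        · simp only [LSt.ctl]
          rw [h6]
          exact wr_push0 K h.wr _ (by omega) _ _
      · cases hδ
  | emit c t =>
    obtain ⟨rest, k, R, hG, hk, hU, hR⟩ := h.rd
    have hwr := h.wr
    have he := h.e
    simp only [LSt.ctl] at hU hR hj hG hwr
    rcases j with _ | j
    swap
    · simp [dl] at hδ
    simp only [dl, Option.map_eq_some_iff] at hδ
    obtain ⟨⟨c', out⟩, htab, rfl⟩ := hδ
    simp only [LSt.ctl, spc, htab, ori_ori] at h5 h6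
    right
    refine ⟨Function.update (Function.update G c.dir rest) (!c'.dir)
      (out ++ (Function.update G c.dir rest) (!c'.dir)), ⟨t, rest, out, hG, htab, rfl⟩, ?_⟩
    by_cases hd : c'.dir = c.dir
    · -- no turn
      have hne := tab_noturn M q0 N htab hd
      have hrest : Tok.E ∈ rest := by
        have := he c.dir
        rw [hG, List.mem_cons] at this
        exact this.resolve_left (Ne.symm hne)
      rw [hd] at h5 h6 ⊢
      have g1 : Function.update (Function.update G c.dir rest) (!c.dir)
          (out ++ (Function.update G c.dir rest) (!c.dir)) c.dir = rest := by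
        rw [Function.update_of_ne (by cases c.dir <;> simp), Function.update_self]
      have g2 : Function.update (Function.update G c.dir rest) (!c.dir)
          (out ++ (Function.update G c.dir rest) (!c.dir)) (!c.dir) = out ++ G (!c.dir) := by
        rw [Function.update_self, Function.update_of_ne (by cases c.dir <;> simp)]
      refine ⟨?_, ?_, ?_⟩
      · simp only [LSt.ctl, Rd, hd]
        rw [g1, h5]
        refine ⟨_, tr_drop hU _ _, ?_⟩
        rw [drop_zeros K _ _ _ (by omega)]
        exact rep_zeros K (rep_zeros K hR _) _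
      · simp only [LSt.ctl, hd]
        rw [g2, h6]
        obtain ⟨k', W', w1, w2, w3⟩ := hwr
        refine wr_push K w2 out ?_ (by omega) _ _
        rw [drop_zeros K _ _ _ w1]
        exact rep_zeros K w3 _
      · intro s
        by_cases hs : s = c.dir
        · rw [hs, g1]; exact hrest
        · have hs' : s = !c.dir := by cases s <;> cases hcd : c.dir <;> simp_all
          rw [hs', g2]
          exact List.mem_append_right _ (he _)
    · -- turn
      have hE := tab_turn M q0 N htab hd
      have hd' : c'.dir = !c.dir := by cases hcd : c.dir <;> cases hcd' : c'.dir <;> simp_all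
      rw [hd'] at h5 h6 ⊢
      simp only [Bool.not_not] at h5 h6 ⊢
      have g1 : Function.update (Function.update G c.dir rest) c.dir
          (out ++ (Function.update G c.dir rest) c.dir) (!c.dir) = G (!c.dir) := by
        rw [Function.update_of_ne (by cases c.dir <;> simp),
          Function.update_of_ne (by cases c.dir <;> simp)]
      have g2 : Function.update (Function.update G c.dir rest) c.dir
          (out ++ (Function.update G c.dir rest) c.dir) c.dir = out ++ rest := by
        rw [Function.update_self, Function.update_self]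
      refine ⟨?_, ?_, ?_⟩
      · simp only [LSt.ctl, Rd, hd']
        rw [g1, h5]
        exact wr_rd K hwr i
      · simp only [LSt.ctl, hd', Bool.not_not]
        rw [g2, h6]
        refine wr_push K hU out ?_ (by omega) _ _
        rw [drop_zeros K _ _ _ (by omega)]
        exact rep_zeros K hR _
      · intro s
        by_cases hs : s = c.dir
        · rw [hs, g2]
          exact List.mem_append_left _ hE
        · have hs' : s = !c.dir := by cases s <;> cases hcd : c.dir <;> simp_all
          rw [hs', g1]
          exact he _

/-- the two kinds of steps -/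
theorem fire_cases (hK : 0 < K) {q q' : LSt (Ctl Q M.B)} {st st' : Bool → List Sy}
    (hf : (lowm M q0 N K hK).Fire (q, st) (q', st')) :
    (q'.ctl = q.ctl ∧ ∃ n α β, K ≤ α ∧ st' (!q.ctl.dir) = List.replicate α none ++
      ori q.ctl.dir (List.replicate n none) ++ List.replicate β none ++
        (st (!q.ctl.dir)).drop K) ∨
    (∃ c t c' out n α β i, q = .emit c t ∧ q' = .scan c' ∧ tab M q0 N c t = some (c', out) ∧
      K ≤ α ∧ st' c'.dir = List.replicate i none ++ (st c'.dir).drop K ∧
      st' (!c'.dir) = List.replicate α none ++ (out.flatMap (blk K (!c'.dir)) ++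
        List.replicate n none) ++ List.replicate β none ++ (st (!c'.dir)).drop K) := by
  obtain ⟨l1, l2, j, hj, hδ, i, hi, α, β, a1, a2, b1, b2, h5, h6⟩ := hf
  simp only [lowm] at l1 l2 hj hδ hi a1 a2 b1 b2 h5 h6
  cases q with
  | scan c =>
    left
    rcases j with _ | ⟨t', s'⟩
    · simp only [dl, Option.some.injEq] at hδ
      subst hδ
      exact ⟨rfl, _, α, β, by omega, h6⟩
    · simp only [dl] at hδ
      split at hδ
      · simp only [Option.some.injEq] at hδ
        subst hδ
        exact ⟨rfl, _, α, β, by omega, h6⟩
      · cases hδ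
  | got c t =>
    left
    rcases j with _ | ⟨t', s'⟩
    · simp only [dl, Option.some.injEq] at hδ
      subst hδ
      exact ⟨rfl, _, α, β, by omega, h6⟩
    · simp only [dl] at hδ
      split at hδ
      · simp only [Option.some.injEq] at hδ
        subst hδ
        exact ⟨rfl, _, α, β, by omega, h6⟩
      · cases hδ
  | emit c t =>
    right
    rcases j with _ | j
    swap
    · simp [dl] at hδ
    simp only [dl, Option.map_eq_some_iff] at hδ
    obtain ⟨⟨c', out⟩, htab, rfl⟩ := hδ
    simp only [LSt.ctl, spc, htab, ori_ori] at h5 h6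
    exact ⟨c, t, c', out, _, α, β, i, rfl, rfl, htab, by omega, h5, h6⟩

theorem half_first (hK : 0 < K) {q q' : LSt (Ctl Q M.B)} {st st' : Bool → List Sy}
    (hf : (lowm M q0 N K hK).Fire (q, st) (q', st')) (hd : q'.ctl.dir ≠ q.ctl.dir) :
    ∃ g, Half M K q' st' g := by
  rcases fire_cases hK hf with ⟨h1, _⟩ | ⟨c, t, c', out, n, α, β, i, rfl, rfl, htab, hα, h5, h6⟩
  · exact absurd (by rw [h1]) hd
  · refine ⟨out, ?_, tab_turn M q0 N htab hd⟩
    simp only [LSt.ctl]
    rw [h6]
    exact wr_push_nil K _ _ _ hα _ _

theorem half_step (hK : 0 < K) {q q' : LSt (Ctl Q M.B)} {st st' : Bool → List Sy} {g : List Tok}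
    (hf : (lowm M q0 N K hK).Fire (q, st) (q', st')) (h : Half M K q st g) :
    (q'.ctl.dir = q.ctl.dir ∧ ∃ g', Half M K q' st' g') ∨ (∃ G', SimR M K false q' st' G') := by
  rcases fire_cases hK hf with ⟨h1, n, α, β, hα, h6⟩ |
    ⟨c, t, c', out, n, α, β, i, rfl, rfl, htab, hα, h5, h6⟩
  · left
    refine ⟨by rw [h1], g, ?_, h.2⟩
    rw [h1, h6]
    exact wr_push0 K h.1 _ hα _ _
  · by_cases hd : c'.dir = c.dir
    · left
      refine ⟨hd, out ++ g, ?_, List.mem_append_right _ h.2⟩
      have h1 := h.1
      simp only [LSt.ctl] at h1 ⊢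
      rw [h6]
      obtain ⟨k', W', w1, w2, w3⟩ := h1
      rw [hd]
      refine wr_push K w2 out ?_ hα _ _
      rw [drop_zeros K _ _ _ w1]
      exact rep_zeros K w3 _
    · right
      have hE := tab_turn M q0 N htab hd
      have hd' : c'.dir = !c.dir := by cases hcd : c.dir <;> cases hcd' : c'.dir <;> simp_all
      have h1 := h.1
      simp only [LSt.ctl] at h1
      rw [← hd'] at h1
      refine ⟨fun s => if s = c'.dir then g else out, ?_, ?_, ?_⟩
      · simp only [LSt.ctl, Rd, if_true]
        rw [h5]
        exact wr_rd K h1 i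
      · have e : ((!c'.dir) = c'.dir) = False := by cases c'.dir <;> simp
        simp only [LSt.ctl, e, if_false]
        rw [h6]
        exact wr_push_nil K _ _ _ hα _ _
      · intro s
        split
        · exact h.2
        · exact hE

theorem half_env (hK : 0 < K) {q q' : LSt (Ctl Q M.B)} {st st' : Bool → List Sy} {g : List Tok}
    (hf : (lowm M q0 N K hK).Env (q, st) (q', st')) (h : Half M K q st g) :
    Half M K q' st' g := by
  obtain ⟨e1, s, n, Z, hZ, e2⟩ := hf
  simp only [lowm] at e1 hZ e2
  subst e1
  refine ⟨?_, h.2⟩
  by_cases hs : (!q'.ctl.dir) = s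
  · rw [e2, hs, Function.update_self]
    have h1 := h.1
    rw [hs] at h1
    obtain ⟨k, W, w1, w2, w3⟩ := h1
    exact ⟨k, W, w1, tr_env w2 n hZ, w3⟩
  · rw [e2, Function.update_of_ne hs]
    exact h.1

theorem sim_env (hK : 0 < K) {q q' : LSt (Ctl Q M.B)} {st st' : Bool → List Sy}
    {G : Bool → List Tok}
    (hf : (lowm M q0 N K hK).Env (q, st) (q', st')) (h : SimR M K false q st G) :
    SimR M K false q' st' G ∧ q'.ctl = q.ctl := by
  have hh := half_env hK hf ⟨h.wr, h.e _⟩
  obtain ⟨e1, s, n, Z, hZ, e2⟩ := hf
  simp only [lowm] at e1 hZ e2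
  subst e1
  refine ⟨⟨?_, hh.1, h.e⟩, rfl⟩
  by_cases hs : q'.ctl.dir = s
  · have h1 := h.rd
    rw [e2, hs, Function.update_self]
    rw [hs] at h1
    cases q' with
    | scan c =>
      simp only [LSt.ctl] at hs
      subst hs
      obtain ⟨U, u1, u2⟩ := h1
      exact ⟨U, tr_env u1 n hZ, u2⟩
    | got c t =>
      simp only [LSt.ctl] at hs
      subst hs
      obtain ⟨rest, k, m, R, u1, u2, u3, u4⟩ := h1
      exact ⟨rest, k, m, R, u1, u2, tr_env u3 n hZ, u4⟩
    | emit c t =>
      simp only [LSt.ctl] at hs
      subst hs
      obtain ⟨rest, k, R, u1, u2, u3, u4⟩ := h1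
      exact ⟨rest, k, R, u1, u2, tr_env u3 n hZ, u4⟩
  · rw [e2, Function.update_of_ne hs]
    exact h.rd

/-- a low level machine whose closed sweeping configurations are accessible turns finitely often -/
theorem turnFin (hK : 0 < K)
    (hacc : ∀ (c : Ctl Q M.B) (G : Bool → List Tok), (∀ s, Tok.E ∈ G s) → SAcc M q0 N (c, G)) :
    (lowm M q0 N K hK).TurnFin := by
  intro x hx
  by_contra hcon
  push Not at hcon
  -- a turn is a fire
  have hturn : ∀ k, (x (k + 1)).1.ctl.dir ≠ (x k).1.ctl.dir →
      (lowm M q0 N K hK).Fire (x k) (x (k + 1)) := by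
    intro k hk
    rcases hx k with h | h
    · exact h
    · exact absurd (by rw [h.1]) hk
  have hinf : ∀ k0, ∃ n, (x (k0 + n + 1)).1.ctl.dir ≠ (x (k0 + n)).1.ctl.dir := by
    intro k0
    obtain ⟨k, hk, hd⟩ := hcon k0
    refine ⟨k - k0, ?_⟩
    rw [Nat.add_sub_cancel' hk]
    exact hd
  -- no simulation at all
  have hno : ∀ y : Gc Q M.B, SAcc M q0 N y → ∀ k G, SimR M K false (x k).1 (x k).2 G →
      y = ((x k).1.ctl, G) → False := by
    intro y hy
    induction hy with
    | intro y _ ih =>
      intro k G hs hyk
      obtain ⟨n, hn⟩ := hinf k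
      induction n generalizing k with
      | zero =>
        simp only [Nat.add_zero] at hn
        rcases sim_step hK (hturn k hn) hs with ⟨_, h2⟩ | ⟨G', h1, h2⟩
        · exact hn (by rw [h2])
        · exact ih ((x (k + 1)).1.ctl, G') (by rw [hyk]; exact h1) (k + 1) G' h2 rfl
      | succ n ihn =>
        have hn' : (x (k + 1 + n + 1)).1.ctl.dir ≠ (x (k + 1 + n)).1.ctl.dir := by
          have e : k + (n + 1) = k + 1 + n := by omega
          rw [e] at hn
          exact hn
        rcases hx k with hf | hf
        · rcases sim_step hK hf hs with ⟨h1, h2⟩ | ⟨G', h1, h2⟩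
          · exact ihn (k + 1) h1 (by rw [hyk, h2]) hn'
          · exact ih ((x (k + 1)).1.ctl, G') (by rw [hyk]; exact h1) (k + 1) G' h2 rfl
        · obtain ⟨h1, h2⟩ := sim_env hK hf hs
          exact ihn (k + 1) h1 (by rw [hyk, h2]) hn'
  have hno2 : ∀ k g, Half M K (x k).1 (x k).2 g → False := by
    intro k g hg
    obtain ⟨n, hn⟩ := hinf k
    induction n generalizing k g with
    | zero =>
      simp only [Nat.add_zero] at hn
      rcases half_step hK (hturn k hn) hg with ⟨h1, _⟩ | ⟨G', h1⟩
      · exact hn h1
      · exact hno _ (hacc _ _ h1.e) (k + 1) G' h1 rfl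
    | succ n ihn =>
      have hn' : (x (k + 1 + n + 1)).1.ctl.dir ≠ (x (k + 1 + n)).1.ctl.dir := by
        have e : k + (n + 1) = k + 1 + n := by omega
        rw [e] at hn
        exact hn
      rcases hx k with hf | hf
      · rcases half_step hK hf hg with ⟨_, g', h1⟩ | ⟨G', h1⟩
        · exact ihn (k + 1) g' h1 hn'
        · exact hno _ (hacc _ _ h1.e) (k + 1) G' h1 rfl
      · exact ihn (k + 1) g (half_env hK hf hg) hn'
  obtain ⟨n, hn⟩ := hinf 0
  obtain ⟨g, hg⟩ := half_first hK (hturn _ hn) hn
  exact hno2 _ g hg

/-- if the simulated configuration has a successor then the head can move -/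
theorem sim_progress (hK : 0 < K) {q : LSt (Ctl Q M.B)} {st : Bool → List Sy}
    {G : Bool → List Tok} (h : SimR M K true q st G) (hs : ∃ y, SmStep M q0 N (q.ctl, G) y) :
    (∀ s, K ≤ (st s).length) ∧ ∃ j q', (st q.ctl.dir)[K - 1]? = some j ∧
      dl M q0 N q j = some q' := by
  obtain ⟨⟨cy, Gy⟩, t, rest, out, hG, htab, _⟩ := hs
  simp only at hG htab
  have hw : K ≤ (st (!q.ctl.dir)).length := by
    obtain ⟨k, W, h1, h2, _⟩ := h.wr
    rw [tr_true h2, List.length_append, List.length_replicate]
    omega
  have key : K ≤ (st q.ctl.dir).length ∧ ∃ j q', (st q.ctl.dir)[K - 1]? = some j ∧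
      dl M q0 N q j = some q' := by
    have hrd := h.rd
    rw [hG] at hrd
    cases q with
    | scan c =>
      obtain ⟨U, hU, k, m, ys', rfl, hm, _⟩ := hrd
      simp only [LSt.ctl] at hU htab ⊢
      rw [tr_true hU]
      refine ⟨by simp only [List.length_append, List.length_replicate]; omega, ?_⟩
      by_cases hk : K ≤ k
      · exact ⟨none, .scan c, get_in _ _ _ _ (by omega), rfl⟩
      · refine ⟨some (t, c.dir), .got c t, ?_, ?_⟩
        · rw [get_past _ _ _ _ (by omega), get_in _ _ _ _ (by omega)]
        · simp [dl, htab]
    | got c t' =>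
      obtain ⟨rest', k, m, R, e1, hk, hU, _⟩ := hrd
      simp only [LSt.ctl] at hU htab ⊢
      rw [tr_true hU]
      refine ⟨by simp only [List.length_append, List.length_replicate]; omega, ?_⟩
      by_cases hkm : K ≤ k + m
      · refine ⟨some (t', c.dir), .got c t', ?_, by simp [dl]⟩
        rw [get_past _ _ _ _ (by omega), get_in _ _ _ _ (by omega)]
      · refine ⟨none, .emit c t', ?_, rfl⟩
        rw [get_past _ _ _ _ (by omega), get_past _ _ _ _ (by omega),
          get_in _ _ _ _ (by omega)]
    | emit c t' =>
      obtain ⟨rest', k, R, e1, hk, hU, _⟩ := hrd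
      simp only [LSt.ctl] at hU htab ⊢
      rw [tr_true hU]
      refine ⟨by simp only [List.length_append, List.length_replicate]; omega, ?_⟩
      refine ⟨none, .scan cy, get_in _ _ _ _ (by omega), ?_⟩
      obtain ⟨rfl, _⟩ := List.cons.inj e1
      simp [dl, htab]
  refine ⟨?_, key.2⟩
  intro s
  by_cases hsd : s = q.ctl.dir
  · rw [hsd]; exact key.1
  · have hs' : s = !q.ctl.dir := by cases s <;> cases hcd : q.ctl.dir <;> simp_all
    rw [hs']; exact hw

/-- an invariant for infinite runs -/
def Run (M : Sys Q Bool) (q0 : Q) (N K : ℕ) (q : LSt (Ctl Q M.B)) (st : Bool → List Sy) : Prop :=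
  ∃ G, SimR M K true q st G ∧ ¬ SAcc M q0 N (q.ctl, G)

theorem run_progress (hK : 0 < K) {q : LSt (Ctl Q M.B)} {st : Bool → List Sy}
    (h : Run M q0 N K q st) :
    (∀ s, K ≤ (st s).length) ∧ ∃ j q', (st q.ctl.dir)[K - 1]? = some j ∧
      dl M q0 N q j = some q' := by
  obtain ⟨G, h1, h2⟩ := h
  refine sim_progress hK h1 ?_
  by_contra hcon
  push Not at hcon
  exact h2 (Acc.intro _ fun y hy => absurd hy (hcon y))

theorem run_step (hK : 0 < K) {q q' : LSt (Ctl Q M.B)} {st st' : Bool → List Sy}
    (h : Run M q0 N K q st) (hf : (lowm M q0 N K hK).Fire (q, st) (q', st')) :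
    Run M q0 N K q' st' := by
  obtain ⟨G, h1, h2⟩ := h
  rcases sim_step hK hf h1 with ⟨h3, h4⟩ | ⟨G', h3, h4⟩
  · exact ⟨G, h3, by rw [h4]; exact h2⟩
  · exact ⟨G', h4, fun h5 => h2 (bc_acc _ _ h3 h5)⟩

/-- stacks representing lists of tokens -/
theorem tks_flat (s : Bool) (G : List Tok) : Tks K s G (G.flatMap (blk K s)) := by
  have := rep_flat K (s := s) (G := []) (ys := []) trivial G
  simpa using this

theorem run_start (hM : M.Halts (some q0) (ini N)) : ∃ c st, Run M q0 N K (.scan c) st := by
  obtain ⟨w, hw⟩ := not_acc M q0 N hM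
  refine ⟨.RS q0 (fun _ => zf M), LowM.bs (List.replicate K none ++ [Tok.E].flatMap (blk K false))
    ((w ++ [Tok.E]).flatMap (blk K true)), mk2 [.E] (w ++ [Tok.E]), ⟨?_, ?_, ?_⟩, hw⟩
  · exact ⟨_, tr_refl _ _ _, tks_flat true _⟩
  · exact ⟨K, _, le_rfl, tr_refl _ _ _, tks_flat false _⟩
  · intro s
    cases s <;> simp [mk2]

end Pool.Agent.Helper462.OneRule
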