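import Pool.Agent.Helper462.OneRule.Source

set_option autoImplicit false

/-! A machine with two stacks of tokens which sweeps from one end marker to the other and simulates
a counter machine with bounded fuel. When the counter machine stops, everything is reset. -/

namespace Pool.Agent.Helper462.OneRule

/-- tokens: units of the two counters, unused fuel, used fuel, end marker -/
inductive Tok
  | ctr (j : Bool)
  | U
  | V
  | E
  deriving DecidableEq

instance : Fintype Tok :=
  ⟨{Tok.ctr true, Tok.ctr false, Tok.U, Tok.V, Tok.E}, by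
    intro x
    rcases x with (_ | _) | _ | _ | _ <;> simp⟩

/-- control states -/
inductive Ctl (Q : Type) (B : ℕ)
  | RS (q : Q) (r : Bool → Fin B)
  | LS (q : Q) (r c : Bool → Fin B) (f : Bool)
  | LR

variable {Q : Type} (M : Sys Q Bool) (q0 : Q) (N : ℕ)

/-- sweep direction, `true` is right -/
def Ctl.dir {Q : Type} {B : ℕ} : Ctl Q B → Bool
  | .RS _ _ => true
  | .LS _ _ _ _ => false
  | .LR => false

/-- zero -/
def zf : Fin M.B := ⟨0, M.hB⟩

/-- add one to a residue -/
def inc (x : Fin M.B) : Fin M.B := ⟨(x + 1) % M.B, Nat.mod_lt _ M.hB⟩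

/-- the transition table -/
def tab : Ctl Q M.B → Tok → Option (Ctl Q M.B × List Tok)
  | .RS q r, .ctr j => some (.RS q (Function.update r j (inc M (r j))), [.ctr j])
  | .RS q r, .U => some (.RS q r, [.U])
  | .RS q r, .V => some (.RS q r, [.V])
  | .RS q r, .E =>
    match M.nxt q r with
    | some _ => some (.LS q r (fun _ => zf M) false,
        List.replicate (M.b q r true) (.ctr true) ++ List.replicate (M.b q r false) (.ctr false) ++
          [.E])
    | none => some (.LR, List.replicate N (.ctr true) ++ [.E])
  | .LS q r c f, .ctr j =>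
    if (c j : ℕ) + 1 = M.B then
      some (.LS q r (Function.update c j (zf M)) f, List.replicate (M.a q r j) (.ctr j))
    else some (.LS q r (Function.update c j (inc M (c j))) f, [])
  | .LS q r c f, .U => some (.LS q r c true, [if f then .U else .V])
  | .LS q r c f, .V => some (.LS q r c f, [.V])
  | .LS q r _ f, .E =>
    if f then (M.nxt q r).map (fun q1 => (.RS q1 (fun _ => zf M), [.E])) else none
  | .LR, .ctr _ => some (.LR, [])
  | .LR, .U => some (.LR, [.U])
  | .LR, .V => some (.LR, [.U])
  | .LR, .E => some (.RS q0 (fun _ => zf M), [.E])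

/-- configurations: control state and the two stacks, `true` is right -/
abbrev Gc (Q : Type) (B : ℕ) := Ctl Q B × (Bool → List Tok)

/-- one step of the sweeping machine -/
def SmStep (x y : Gc Q M.B) : Prop :=
  ∃ t rest out, x.2 x.1.dir = t :: rest ∧ tab M q0 N x.1 t = some (y.1, out) ∧
    y.2 = Function.update (Function.update x.2 x.1.dir rest) (!y.1.dir)
      (out ++ (Function.update x.2 x.1.dir rest) (!y.1.dir))

/-- stacks from a pair -/
def mk2 (L R : List Tok) : Bool → List Tok := fun s => if s then R else L

theorem mk2_true (L R : List Tok) : mk2 L R true = R := rfl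
theorem mk2_false (L R : List Tok) : mk2 L R false = L := rfl

theorem mk2_eta (G : Bool → List Tok) : mk2 (G false) (G true) = G := by
  funext s; cases s <;> rfl

theorem upd_true (L R R' : List Tok) : Function.update (mk2 L R) true R' = mk2 L R' := by
  funext s; cases s <;> simp [mk2, Function.update]

theorem upd_false (L R L' : List Tok) : Function.update (mk2 L R) false L' = mk2 L' R := by
  funext s; cases s <;> simp [mk2, Function.update]

/-- stepping with equations -/
theorem sm_iff (c c' : Ctl Q M.B) (L R : List Tok) (G' : Bool → List Tok) :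
    SmStep M q0 N (c, mk2 L R) (c', G') ↔
      ∃ t rest out, mk2 L R c.dir = t :: rest ∧ tab M q0 N c t = some (c', out) ∧
        G' = match c.dir, c'.dir with
          | true, true => mk2 (out ++ L) rest
          | true, false => mk2 L (out ++ rest)
          | false, true => mk2 (out ++ rest) R
          | false, false => mk2 rest (out ++ R) := by
  unfold SmStep
  constructor
  · rintro ⟨t, rest, out, h1, h2, h3⟩
    refine ⟨t, rest, out, h1, h2, ?_⟩
    simp only at h3
    rw [h3]
    rcases hc : c.dir <;> rcases hc' : c'.dir <;>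
      simp [upd_true, upd_false, mk2_true, mk2_false]
  · rintro ⟨t, rest, out, h1, h2, h3⟩
    refine ⟨t, rest, out, h1, h2, ?_⟩
    simp only
    rw [h3]
    rcases hc : c.dir <;> rcases hc' : c'.dir <;>
      simp [upd_true, upd_false, mk2_true, mk2_false]

/-- accessibility for the sweeping machine -/
abbrev SAcc (x : Gc Q M.B) : Prop := Acc (fun a b => SmStep M q0 N b a) x

/-- predicates closed under going back one step -/
def BC (P : Gc Q M.B → Prop) : Prop := ∀ x y, SmStep M q0 N x y → P y → P x

section Det

variable {M q0 N}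

/-- the machine is deterministic -/
theorem sm_det {x y z : Gc Q M.B} (h1 : SmStep M q0 N x y) (h2 : SmStep M q0 N x z) : y = z := by
  obtain ⟨t, rest, out, a1, a2, a3⟩ := h1
  obtain ⟨t', rest', out', b1, b2, b3⟩ := h2
  rw [a1] at b1
  obtain ⟨rfl, rfl⟩ := List.cons.inj b1
  rw [a2] at b2
  obtain ⟨e1, rfl⟩ := Prod.mk.inj (Option.some.inj b2)
  refine Prod.ext e1 ?_
  rw [a3, b3, e1]

theorem bc_acc : BC M q0 N (SAcc M q0 N) := by
  intro x y hs hy
  refine Acc.intro _ ?_
  intro z hz
  rw [← sm_det hs hz]
  exact hy

theorem acc_of_succ {P : Gc Q M.B → Prop} (hP : BC M q0 N P)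
    {c c' : Ctl Q M.B} {L R : List Tok} {t : Tok} {rest out : List Tok}
    {G' : Bool → List Tok}
    (h1 : mk2 L R c.dir = t :: rest) (h2 : tab M q0 N c t = some (c', out))
    (h3 : G' = match c.dir, c'.dir with
          | true, true => mk2 (out ++ L) rest
          | true, false => mk2 L (out ++ rest)
          | false, true => mk2 (out ++ rest) R
          | false, false => mk2 rest (out ++ R))
    (h : P (c', G')) : P (c, mk2 L R) :=
  hP _ _ ((sm_iff M q0 N c c' L R G').2 ⟨t, rest, out, h1, h2, h3⟩) h

theorem acc_of_stuck {c : Ctl Q M.B} {L R : List Tok} {t : Tok} {rest : List Tok}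
    (h1 : mk2 L R c.dir = t :: rest) (h2 : tab M q0 N c t = none) : SAcc M q0 N (c, mk2 L R) := by
  refine Acc.intro _ ?_
  rintro ⟨c'', G''⟩ hs
  obtain ⟨t', rest', out', e1, e2, e3⟩ := (sm_iff M q0 N c c'' L R G'').1 hs
  rw [h1] at e1
  obtain ⟨rfl, rfl⟩ := List.cons.inj e1
  rw [h2] at e2
  cases e2

end Det

/-- residues after counting a list -/
def cres (r : Bool → Fin M.B) (w : List Tok) : Bool → Fin M.B :=
  fun j => ⟨((r j : ℕ) + w.count (.ctr j)) % M.B, Nat.mod_lt _ M.hB⟩

theorem cres_nil (r : Bool → Fin M.B) : cres M r [] = r := by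
  funext j
  apply Fin.ext
  simp [cres, Nat.mod_eq_of_lt (r j).2]

theorem cres_ctr (r : Bool → Fin M.B) (j : Bool) (w : List Tok) :
    cres M (Function.update r j (inc M (r j))) w = cres M r (.ctr j :: w) := by
  funext i
  apply Fin.ext
  by_cases h : i = j
  · subst h
    simp only [cres, Function.update_self, inc, List.count_cons_self]
    rw [Nat.mod_add_mod]
    congr 1
    ring
  · have h' : ¬ (Tok.ctr j = Tok.ctr i) := by
      intro e; exact h (Tok.ctr.inj e).symm
    simp only [cres, Function.update_of_ne h, List.count_cons_of_ne h']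

theorem cres_other (r : Bool → Fin M.B) (t : Tok) (ht : ∀ j, t ≠ .ctr j) (w : List Tok) :
    cres M r (t :: w) = cres M r w := by
  funext i
  apply Fin.ext
  simp only [cres, List.count_cons_of_ne (ht i)]

theorem acc_right {P : Gc Q M.B → Prop} (hP : BC M q0 N P) (q : Q) : ∀ (w : List Tok) (_ : Tok.E ∉ w) (r : Bool → Fin M.B)
    (L R : List Tok),
    P (.RS q (cres M r w), mk2 (w.reverse ++ L) R) →
    P (.RS q r, mk2 L (w ++ R)) := by
  intro w
  induction w with
  | nil => intro _ r L R h; simpa [cres_nil] using h
  | cons t w ih =>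
    intro hE r L R h
    have hE' : Tok.E ∉ w := fun h => hE (List.mem_cons_of_mem _ h)
    have ht : t ≠ Tok.E := fun h => hE (by simp [h])
    rcases t with j | _ | _ | _
    · refine acc_of_succ hP (t := .ctr j) (rest := w ++ R) rfl rfl rfl ?_
      refine ih hE' _ _ _ ?_
      rw [cres_ctr]
      simpa using h
    · refine acc_of_succ hP (t := .U) (rest := w ++ R) rfl rfl rfl ?_
      refine ih hE' _ _ _ ?_
      rw [cres_other M r .U (by intro j; simp)] at h
      simpa using h
    · refine acc_of_succ hP (t := .V) (rest := w ++ R) rfl rfl rfl ?_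
      refine ih hE' _ _ _ ?_
      rw [cres_other M r .V (by intro j; simp)] at h
      simpa using h
    · exact absurd rfl ht

/-- the run of a left sweep -/
def lrun (q : Q) (r : Bool → Fin M.B) : List Tok → (Bool → Fin M.B) → Bool → List Tok →
    (Bool → Fin M.B) × Bool × List Tok
  | [], c, f, Y => (c, f, Y)
  | .ctr j :: w, c, f, Y =>
    if (c j : ℕ) + 1 = M.B then
      lrun q r w (Function.update c j (zf M)) f (List.replicate (M.a q r j) (.ctr j) ++ Y)
    else lrun q r w (Function.update c j (inc M (c j))) f Y
  | .U :: w, c, f, Y => lrun q r w c true ((if f then .U else .V) :: Y)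
  | .V :: w, c, f, Y => lrun q r w c f (.V :: Y)
  | .E :: w, c, f, Y => lrun q r w c f Y

theorem acc_left {P : Gc Q M.B → Prop} (hP : BC M q0 N P) (q : Q) (r : Bool → Fin M.B) : ∀ (w : List Tok) (_ : Tok.E ∉ w)
    (c : Bool → Fin M.B) (f : Bool) (L R : List Tok),
    P (.LS q r (lrun M q r w c f R).1 (lrun M q r w c f R).2.1,
      mk2 L (lrun M q r w c f R).2.2) →
    P (.LS q r c f, mk2 (w ++ L) R) := by
  intro w
  induction w with
  | nil => intro _ c f L R h; simpa [lrun] using h
  | cons t w ih =>
    intro hE c f L R h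
    have hE' : Tok.E ∉ w := fun h => hE (List.mem_cons_of_mem _ h)
    have ht : t ≠ Tok.E := fun h => hE (by simp [h])
    rcases t with j | _ | _ | _
    · by_cases hb : (c j : ℕ) + 1 = M.B
      · simp only [lrun, if_pos hb] at h
        refine acc_of_succ hP (t := .ctr j) (rest := w ++ L)
          (c' := .LS q r (Function.update c j (zf M)) f)
          (out := List.replicate (M.a q r j) (.ctr j)) rfl ?_ rfl ?_
        · simp [tab, hb]
        · exact ih hE' _ _ _ _ h
      · simp only [lrun, if_neg hb] at h
        refine acc_of_succ hP (t := .ctr j) (rest := w ++ L)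
          (c' := .LS q r (Function.update c j (inc M (c j))) f)
          (out := []) rfl ?_ rfl ?_
        · simp [tab, hb]
        · exact ih hE' _ _ _ _ h
    · refine acc_of_succ hP (t := .U) (rest := w ++ L) rfl rfl rfl ?_
      exact ih hE' _ _ _ _ h
    · refine acc_of_succ hP (t := .V) (rest := w ++ L) rfl rfl rfl ?_
      exact ih hE' _ _ _ _ h
    · exact absurd rfl ht

/-- output of a reset sweep -/
def rrun : List Tok → List Tok → List Tok
  | [], Y => Y
  | .ctr _ :: w, Y => rrun w Y
  | .U :: w, Y => rrun w (.U :: Y)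
  | .V :: w, Y => rrun w (.U :: Y)
  | .E :: w, Y => rrun w Y

theorem acc_reset {P : Gc Q M.B → Prop} (hP : BC M q0 N P) : ∀ (w : List Tok) (_ : Tok.E ∉ w) (L R : List Tok),
    P (.LR, mk2 L (rrun w R)) → P (.LR, mk2 (w ++ L) R) := by
  intro w
  induction w with
  | nil => intro _ L R h; simpa [rrun] using h
  | cons t w ih =>
    intro hE L R h
    have hE' : Tok.E ∉ w := fun h => hE (List.mem_cons_of_mem _ h)
    have ht : t ≠ Tok.E := fun h => hE (by simp [h])
    rcases t with j | _ | _ | _
    · refine acc_of_succ hP (t := .ctr j) (rest := w ++ L) rfl rfl rfl ?_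
      exact ih hE' _ _ h
    · refine acc_of_succ hP (t := .U) (rest := w ++ L) rfl rfl rfl ?_
      exact ih hE' _ _ h
    · refine acc_of_succ hP (t := .V) (rest := w ++ L) rfl rfl rfl ?_
      exact ih hE' _ _ h
    · exact absurd rfl ht

/-- the effect of a left sweep -/
theorem lrun_spec (q : Q) (r : Bool → Fin M.B) : ∀ (w : List Tok) (_ : Tok.E ∉ w)
    (c : Bool → Fin M.B) (f : Bool) (Y : List Tok),
    ∃ Z, (lrun M q r w c f Y).2.2 = Z ++ Y ∧ Tok.E ∉ Z ∧
      (∀ j, Z.count (.ctr j) = M.a q r j * (((c j : ℕ) + w.count (.ctr j)) / M.B)) ∧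
      (f = true → (lrun M q r w c f Y).2.1 = true ∧ Z.count .U = w.count .U ∧
        Z.count .V = w.count .V) ∧
      (f = false → w.count .U = 0 → (lrun M q r w c f Y).2.1 = false) ∧
      (f = false → 0 < w.count .U → (lrun M q r w c f Y).2.1 = true ∧
        Z.count .U + 1 = w.count .U ∧ Z.count .V = w.count .V + 1) := by
  intro w
  induction w with
  | nil =>
    intro _ c f Y
    refine ⟨[], rfl, by simp, ?_, ?_, ?_, ?_⟩
    · intro j
      simp [Nat.div_eq_of_lt (c j).2]
    · intro h; simp [lrun, h]
    · intro h _; simp [lrun, h]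
    · intro _ h; simp at h
  | cons t w ih =>
    intro hE c f Y
    have hE' : Tok.E ∉ w := fun h => hE (List.mem_cons_of_mem _ h)
    have ht : t ≠ Tok.E := fun h => hE (by simp [h])
    rcases t with j | _ | _ | _
    · by_cases hb : (c j : ℕ) + 1 = M.B
      · obtain ⟨Z, h1, h2, h3, h4, h5, h6⟩ := ih hE' (Function.update c j (zf M)) f
          (List.replicate (M.a q r j) (.ctr j) ++ Y)
        refine ⟨Z ++ List.replicate (M.a q r j) (.ctr j), ?_, ?_, ?_, ?_, ?_, ?_⟩
        · simp only [lrun, if_pos hb, h1, List.append_assoc]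
        · simp [h2, List.mem_replicate]
        · intro i
          have h3i := h3 i
          by_cases hij : i = j
          · subst hij
            rw [Function.update_self] at h3i
            rw [List.count_append, h3i, List.count_replicate_self, List.count_cons_self]
            have : (c i : ℕ) + (w.count (.ctr i) + 1) = w.count (.ctr i) + M.B := by omega
            rw [this, Nat.add_div_right _ M.hB]
            simp only [zf, Nat.zero_add]
            ring
          · have h' : ¬ (Tok.ctr j = Tok.ctr i) := fun e => hij (Tok.ctr.inj e).symm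
            rw [Function.update_of_ne hij] at h3i
            rw [List.count_append, h3i, List.count_cons_of_ne h', List.count_replicate]
            simp [h']
        · intro hf
          obtain ⟨a1, a2, a3⟩ := h4 hf
          refine ⟨by simp only [lrun, if_pos hb, a1], ?_, ?_⟩
          · rw [List.count_append, a2, List.count_cons_of_ne (by simp), List.count_replicate]; simp
          · rw [List.count_append, a3, List.count_cons_of_ne (by simp), List.count_replicate]; simp
        · intro hf h0
          rw [List.count_cons_of_ne (by simp)] at h0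
          simp only [lrun, if_pos hb, h5 hf h0]
        · intro hf h0
          rw [List.count_cons_of_ne (by simp)] at h0
          obtain ⟨a1, a2, a3⟩ := h6 hf h0
          refine ⟨by simp only [lrun, if_pos hb, a1], ?_, ?_⟩
          · rw [List.count_append, List.count_cons_of_ne (by simp), List.count_replicate]; simpa using a2
          · rw [List.count_append, a3, List.count_cons_of_ne (by simp), List.count_replicate]; simp
      · obtain ⟨Z, h1, h2, h3, h4, h5, h6⟩ := ih hE' (Function.update c j (inc M (c j))) f Y
        refine ⟨Z, ?_, h2, ?_, ?_, ?_, ?_⟩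
        · simp only [lrun, if_neg hb, h1]
        · intro i
          have h3i := h3 i
          by_cases hij : i = j
          · subst hij
            rw [Function.update_self] at h3i
            rw [h3i, List.count_cons_self]
            have hlt : (c i : ℕ) + 1 < M.B := by have := (c i).2; omega
            simp only [inc, Nat.mod_eq_of_lt hlt]
            congr 2
            ring
          · have h' : ¬ (Tok.ctr j = Tok.ctr i) := fun e => hij (Tok.ctr.inj e).symm
            rw [Function.update_of_ne hij] at h3i
            rw [h3i, List.count_cons_of_ne h']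
        · intro hf
          obtain ⟨a1, a2, a3⟩ := h4 hf
          refine ⟨by simp only [lrun, if_neg hb, a1], ?_, ?_⟩
          · rw [a2, List.count_cons_of_ne (by simp)]
          · rw [a3, List.count_cons_of_ne (by simp)]
        · intro hf h0
          rw [List.count_cons_of_ne (by simp)] at h0
          simp only [lrun, if_neg hb, h5 hf h0]
        · intro hf h0
          rw [List.count_cons_of_ne (by simp)] at h0
          obtain ⟨a1, a2, a3⟩ := h6 hf h0
          refine ⟨by simp only [lrun, if_neg hb, a1], ?_, ?_⟩
          · rw [List.count_cons_of_ne (by simp)]; exact a2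
          · rw [a3, List.count_cons_of_ne (by simp)]
    · obtain ⟨Z, h1, h2, h3, h4, h5, h6⟩ := ih hE' c true ((if f then .U else .V) :: Y)
      refine ⟨Z ++ [if f then .U else .V], ?_, ?_, ?_, ?_, ?_, ?_⟩
      · simp only [lrun, h1, List.append_assoc, List.singleton_append]
      · cases f <;> simp [h2]
      · intro i
        rw [List.count_append, h3 i]
        cases f <;> simp
      · intro hf
        obtain ⟨a1, a2, a3⟩ := h4 rfl
        subst hf
        refine ⟨a1, ?_, ?_⟩
        · rw [List.count_append, a2]; simp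
        · rw [List.count_append, a3]; simp
      · intro hf h0; simp at h0
      · intro hf h0
        obtain ⟨a1, a2, a3⟩ := h4 rfl
        subst hf
        refine ⟨a1, ?_, ?_⟩
        · rw [List.count_append, a2]; simp
        · rw [List.count_append, a3]; simp
    · obtain ⟨Z, h1, h2, h3, h4, h5, h6⟩ := ih hE' c f (.V :: Y)
      refine ⟨Z ++ [.V], ?_, ?_, ?_, ?_, ?_, ?_⟩
      · simp only [lrun, h1, List.append_assoc, List.singleton_append]
      · simp [h2]
      · intro i
        rw [List.count_append, h3 i, List.count_cons_of_ne (by simp)]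
        simp
      · intro hf
        obtain ⟨a1, a2, a3⟩ := h4 hf
        refine ⟨a1, ?_, ?_⟩
        · rw [List.count_append, a2]; simp
        · rw [List.count_append, a3]; simp
      · intro hf h0
        rw [List.count_cons_of_ne (by simp)] at h0
        exact h5 hf h0
      · intro hf h0
        rw [List.count_cons_of_ne (by simp)] at h0
        obtain ⟨a1, a2, a3⟩ := h6 hf h0
        refine ⟨a1, ?_, ?_⟩
        · rw [List.count_append]
          have : List.count Tok.U (Tok.V :: w) = List.count Tok.U w :=
            List.count_cons_of_ne (by simp)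
          rw [this, ← a2]; simp
        · rw [List.count_append, a3]; simp
    · exact absurd rfl ht

theorem rrun_spec : ∀ (w : List Tok) (_ : Tok.E ∉ w) (Y : List Tok),
    ∃ Z, rrun w Y = Z ++ Y ∧ Tok.E ∉ Z ∧ (∀ j, Z.count (.ctr j) = 0) ∧
      Z.count .U = w.count .U + w.count .V := by
  intro w
  induction w with
  | nil => intro _ Y; exact ⟨[], rfl, by simp, by simp, by simp⟩
  | cons t w ih =>
    intro hE Y
    have hE' : Tok.E ∉ w := fun h => hE (List.mem_cons_of_mem _ h)
    have ht : t ≠ Tok.E := fun h => hE (by simp [h])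
    rcases t with j | _ | _ | _
    · obtain ⟨Z, h1, h2, h3, h4⟩ := ih hE' Y
      refine ⟨Z, h1, h2, h3, ?_⟩
      rw [h4, List.count_cons_of_ne (by simp), List.count_cons_of_ne (by simp)]
    · obtain ⟨Z, h1, h2, h3, h4⟩ := ih hE' (.U :: Y)
      refine ⟨Z ++ [.U], ?_, by simp [h2], ?_, ?_⟩
      · simp only [rrun, h1, List.append_assoc, List.singleton_append]
      · intro j; simp [h3 j]
      · simp [h4]; ring
    · obtain ⟨Z, h1, h2, h3, h4⟩ := ih hE' (.U :: Y)
      refine ⟨Z ++ [.U], ?_, by simp [h2], ?_, ?_⟩
      · simp only [rrun, h1, List.append_assoc, List.singleton_append]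
      · intro j; simp [h3 j]
      · simp [h4]; ring
    · exact absurd rfl ht

/-- counters of a list -/
def CountersAre (w : List Tok) (n : Bool → ℕ) : Prop := ∀ j, w.count (.ctr j) = n j

/-- the two stacks contain end markers: start of a right sweep -/
theorem cres_zero (w : List Tok) (n : Bool → ℕ) (h : CountersAre w n) :
    cres M (fun _ => zf M) w = M.res n := by
  funext j
  apply Fin.ext
  simp [cres, zf, Sys.res, h j]

/-- the tokens written when a right sweep ends -/
def btoks (q : Q) (r : Bool → Fin M.B) : List Tok :=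
  List.replicate (M.b q r true) (.ctr true) ++ List.replicate (M.b q r false) (.ctr false)

theorem btoks_count (q : Q) (r : Bool → Fin M.B) (j : Bool) :
    (btoks M q r).count (.ctr j) = M.b q r j := by
  cases j <;> simp [btoks, List.count_replicate]

theorem btoks_U (q : Q) (r : Bool → Fin M.B) : (btoks M q r).count .U = 0 := by
  simp [btoks, List.count_replicate]

theorem btoks_V (q : Q) (r : Bool → Fin M.B) : (btoks M q r).count .V = 0 := by
  simp [btoks, List.count_replicate]

theorem btoks_E (q : Q) (r : Bool → Fin M.B) : Tok.E ∉ btoks M q r := by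
  simp [btoks, List.mem_replicate]

/-- after the right sweep, continuing case -/
theorem acc_turn_some {P : Gc Q M.B → Prop} (hP : BC M q0 N P) {q q1 : Q} {r : Bool → Fin M.B} (hn : M.nxt q r = some q1)
    (w : List Tok) (hE : Tok.E ∉ w) (L R : List Tok) (h0 : 0 < w.count .U)
    (h : ∀ W, Tok.E ∉ W →
      (∀ j, W.count (.ctr j) = M.a q r j * (w.count (.ctr j) / M.B) + M.b q r j) →
      W.count .U + 1 = w.count .U → W.count .V = w.count .V + 1 →
      P (.RS q1 (fun _ => zf M), mk2 (.E :: L) (W ++ .E :: R))) :
    P (.RS q r, mk2 (w ++ .E :: L) (.E :: R)) := by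
  have e1 : tab M q0 N (.RS q r) .E = some (.LS q r (fun _ => zf M) false,
      btoks M q r ++ [.E]) := by
    simp [tab, hn, btoks]
  refine acc_of_succ hP (t := .E) (rest := R) rfl e1 rfl ?_
  change P (.LS q r (fun _ => zf M) false, mk2 (w ++ .E :: L) ((btoks M q r ++ [.E]) ++ R))
  refine acc_left M q0 N hP q r w hE _ _ _ _ ?_
  obtain ⟨Z, h1, h2, h3, h4, h5, h6⟩ := lrun_spec M q r w hE (fun _ => zf M) false
    ((btoks M q r ++ [.E]) ++ R)
  rw [h1]
  obtain ⟨a1, a2, a3⟩ := h6 rfl h0
  rw [a1]
  refine acc_of_succ hP (t := .E) (rest := L) (c' := .RS q1 (fun _ => zf M)) (out := [.E])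
    rfl (by simp [tab, hn]) rfl ?_
  have key := h (Z ++ btoks M q r) (by simp [h2, btoks_E]) (by
    intro j
    rw [List.count_append, h3 j, btoks_count]
    simp [zf]) (by rw [List.count_append, btoks_U]; exact a2)
    (by rw [List.count_append, btoks_V]; exact a3)
  simpa [Ctl.dir] using key

/-- after the right sweep, continuing case without fuel -/
theorem acc_turn_nofuel {q q1 : Q} {r : Bool → Fin M.B} (hn : M.nxt q r = some q1)
    (w : List Tok) (hE : Tok.E ∉ w) (L R : List Tok) (h0 : w.count .U = 0) :
    SAcc M q0 N (.RS q r, mk2 (w ++ .E :: L) (.E :: R)) := by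
  have e1 : tab M q0 N (.RS q r) .E = some (.LS q r (fun _ => zf M) false,
      btoks M q r ++ [.E]) := by
    simp [tab, hn, btoks]
  refine acc_of_succ bc_acc (t := .E) (rest := R) rfl e1 rfl ?_
  change SAcc M q0 N (.LS q r (fun _ => zf M) false, mk2 (w ++ .E :: L) ((btoks M q r ++ [.E]) ++ R))
  refine acc_left M q0 N bc_acc q r w hE _ _ _ _ ?_
  obtain ⟨Z, h1, h2, h3, h4, h5, h6⟩ := lrun_spec M q r w hE (fun _ => zf M) false
    ((btoks M q r ++ [.E]) ++ R)
  rw [h1, h5 rfl h0]
  exact acc_of_stuck (t := .E) (rest := L) rfl (by simp [tab])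

/-- after the right sweep, reset case, with at least one step -/
theorem strict_turn_none {P T : Gc Q M.B → Prop}
    (hP : ∀ x y, SmStep M q0 N x y → (P y ∨ T y) → P x) {q : Q} {r : Bool → Fin M.B}
    (hn : M.nxt q r = none)
    (w : List Tok) (hE : Tok.E ∉ w) (L R : List Tok)
    (h : ∀ W, Tok.E ∉ W → CountersAre W (ini N) → W.count .U = w.count .U + w.count .V →
      P (.RS q0 (fun _ => zf M), mk2 (.E :: L) (W ++ .E :: R)) ∨
      T (.RS q0 (fun _ => zf M), mk2 (.E :: L) (W ++ .E :: R))) :
    P (.RS q r, mk2 (w ++ .E :: L) (.E :: R)) := by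
  have e1 : tab M q0 N (.RS q r) .E = some (.LR, List.replicate N (.ctr true) ++ [.E]) := by
    simp [tab, hn]
  have hPT : BC M q0 N (fun x => P x ∨ T x) := fun x y h1 h2 => Or.inl (hP x y h1 h2)
  refine hP _ _ ((sm_iff M q0 N (.RS q r) .LR (w ++ .E :: L) (.E :: R) _).2
    ⟨.E, R, _, rfl, e1, rfl⟩) ?_
  change (fun x => P x ∨ T x)
    (.LR, mk2 (w ++ .E :: L) ((List.replicate N (.ctr true) ++ [.E]) ++ R))
  refine acc_reset M q0 N hPT w hE _ _ ?_
  obtain ⟨Z, h1, h2, h3, h4⟩ := rrun_spec w hE ((List.replicate N (.ctr true) ++ [.E]) ++ R)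
  rw [h1]
  refine acc_of_succ hPT (t := .E) (rest := L) (c' := .RS q0 (fun _ => zf M)) (out := [.E])
    rfl rfl rfl ?_
  have key := h (Z ++ List.replicate N (.ctr true)) (by simp [h2, List.mem_replicate]) (by
    intro j
    rw [List.count_append, h3 j]
    cases j <;> simp [ini, List.count_replicate]) (by
    rw [List.count_append, h4, List.count_replicate]; simp)
  simpa [Ctl.dir] using key

/-- after the right sweep, reset case -/
theorem acc_turn_none {P : Gc Q M.B → Prop} (hP : BC M q0 N P) {q : Q} {r : Bool → Fin M.B}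
    (hn : M.nxt q r = none)
    (w : List Tok) (hE : Tok.E ∉ w) (L R : List Tok)
    (h : ∀ W, Tok.E ∉ W → CountersAre W (ini N) → W.count .U = w.count .U + w.count .V →
      P (.RS q0 (fun _ => zf M), mk2 (.E :: L) (W ++ .E :: R))) :
    P (.RS q r, mk2 (w ++ .E :: L) (.E :: R)) :=
  strict_turn_none M q0 N (P := P) (T := fun _ => False)
    (fun x y h1 h2 => hP x y h1 (h2.resolve_right id)) hn w hE L R
    (fun W h1 h2 h3 => Or.inl (h W h1 h2 h3))

/-- accessible from configurations of a counter machine that does not stop -/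
theorem acc_nonhalt : ∀ (u : ℕ) (q : Q) (n : Bool → ℕ) (w : List Tok) (L R : List Tok),
    ¬ M.Halts (some q) n → CountersAre w n → w.count .U = u → Tok.E ∉ w →
    SAcc M q0 N (.RS q (fun _ => zf M), mk2 (.E :: L) (w ++ .E :: R)) := by
  intro u
  induction u with
  | zero =>
    intro q n w L R hn hw hu hE
    refine acc_right M q0 N bc_acc q w hE _ _ _ ?_
    rw [cres_zero M w n hw]
    cases hx : M.nxt q (M.res n) with
    | none =>
      exact absurd (Sys.Halts.step q n (by rw [hx]; exact Sys.Halts.stop _)) hn
    | some q1 =>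
      exact acc_turn_nofuel M q0 N hx w.reverse (by simpa using hE) L R
        (by rw [List.count_reverse, hu])
  | succ u ih =>
    intro q n w L R hn hw hu hE
    refine acc_right M q0 N bc_acc q w hE _ _ _ ?_
    rw [cres_zero M w n hw]
    cases hx : M.nxt q (M.res n) with
    | none =>
      exact absurd (Sys.Halts.step q n (by rw [hx]; exact Sys.Halts.stop _)) hn
    | some q1 =>
      refine acc_turn_some M q0 N bc_acc hx w.reverse (by simpa using hE) L R
        (by rw [List.count_reverse, hu]; omega) ?_
      intro W hW1 hW2 hW3 _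
      refine ih q1 (M.nn q n) W L R ?_ ?_ ?_ hW1
      · intro hh
        exact hn (Sys.Halts.step q n (by rw [hx]; exact hh))
      · intro j
        rw [hW2 j, List.count_reverse, hw j]
        rfl
      · rw [List.count_reverse, hu] at hW3
        omega

theorem acc_start (hM : ¬ M.Halts (some q0) (ini N)) : ∀ (u : ℕ) (q : Q) (w : List Tok)
    (L R : List Tok), w.count .U = u → Tok.E ∉ w →
    SAcc M q0 N (.RS q (fun _ => zf M), mk2 (.E :: L) (w ++ .E :: R)) := by
  intro u
  induction u with
  | zero =>
    intro q w L R hu hE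
    refine acc_right M q0 N bc_acc q w hE _ _ _ ?_
    cases hx : M.nxt q (cres M (fun _ => zf M) w) with
    | none =>
      refine acc_turn_none M q0 N bc_acc hx w.reverse (by simpa using hE) L R ?_
      intro W h1 h2 _
      exact acc_nonhalt M q0 N _ q0 (ini N) W L R hM h2 rfl h1
    | some q1 =>
      exact acc_turn_nofuel M q0 N hx w.reverse (by simpa using hE) L R
        (by rw [List.count_reverse, hu])
  | succ u ih =>
    intro q w L R hu hE
    refine acc_right M q0 N bc_acc q w hE _ _ _ ?_
    cases hx : M.nxt q (cres M (fun _ => zf M) w) with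
    | none =>
      refine acc_turn_none M q0 N bc_acc hx w.reverse (by simpa using hE) L R ?_
      intro W h1 h2 _
      exact acc_nonhalt M q0 N _ q0 (ini N) W L R hM h2 rfl h1
    | some q1 =>
      refine acc_turn_some M q0 N bc_acc hx w.reverse (by simpa using hE) L R
        (by rw [List.count_reverse, hu]; omega) ?_
      intro W hW1 hW2 hW3 _
      refine ih q1 W L R ?_ hW1
      rw [List.count_reverse, hu] at hW3
      omega

/-- every configuration with end markers on both sides is accessible -/
theorem acc_closed (hM : ¬ M.Halts (some q0) (ini N)) (c : Ctl Q M.B) (G : Bool → List Tok)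
    (h1 : Tok.E ∈ G true) (h2 : Tok.E ∈ G false) : SAcc M q0 N (c, G) := by
  rw [← mk2_eta G]
  obtain ⟨R1, R2, e1, f1⟩ := List.eq_append_cons_of_mem h1
  obtain ⟨L1, L2, e2, f2⟩ := List.eq_append_cons_of_mem h2
  have hRS : ∀ (q : Q) (r : Bool → Fin M.B) (L1 L2 R1 R2 : List Tok), Tok.E ∉ R1 → Tok.E ∉ L1 →
      SAcc M q0 N (.RS q r, mk2 (L1 ++ .E :: L2) (R1 ++ .E :: R2)) := by
    intro q r L1 L2 R1 R2 f1 f2
    refine acc_right M q0 N bc_acc q R1 f1 _ _ _ ?_
    rw [← List.append_assoc]
    have hw : Tok.E ∉ R1.reverse ++ L1 := by simp [f1, f2]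
    cases hx : M.nxt q (cres M r R1) with
    | none =>
      refine acc_turn_none M q0 N bc_acc hx _ hw L2 R2 ?_
      intro W h1 _ _
      exact acc_start M q0 N hM _ _ W _ _ rfl h1
    | some q1 =>
      rcases Nat.eq_zero_or_pos (List.count .U (R1.reverse ++ L1)) with h0 | h0
      · exact acc_turn_nofuel M q0 N hx _ hw L2 R2 h0
      · refine acc_turn_some M q0 N bc_acc hx _ hw L2 R2 h0 ?_
        intro W hW1 _ _ _
        exact acc_start M q0 N hM _ _ W _ _ rfl hW1
  rw [e1, e2]
  cases c with
  | RS q r => exact hRS q r L1 L2 R1 R2 f1 f2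
  | LS q r c f =>
    refine acc_left M q0 N bc_acc q r L1 f2 _ _ _ _ ?_
    obtain ⟨Z, g1, g2, _, _, _, _⟩ := lrun_spec M q r L1 f2 c f (R1 ++ .E :: R2)
    rw [g1]
    cases hf : (lrun M q r L1 c f (R1 ++ .E :: R2)).2.1 with
    | false => exact acc_of_stuck (t := .E) (rest := L2) rfl (by simp [tab])
    | true =>
      cases hx : M.nxt q r with
      | none => exact acc_of_stuck (t := .E) (rest := L2) rfl (by simp [tab, hx])
      | some q1 =>
        refine acc_of_succ bc_acc (t := .E) (rest := L2) (c' := .RS q1 (fun _ => zf M)) (out := [.E])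
          rfl (by simp [tab, hx]) rfl ?_
        have := acc_start M q0 N hM _ q1 (Z ++ R1) L2 R2 rfl (by simp [g2, f1])
        simpa [Ctl.dir] using this
  | LR =>
    refine acc_reset M q0 N bc_acc L1 f2 _ _ ?_
    obtain ⟨Z, g1, g2, _, _⟩ := rrun_spec L1 f2 (R1 ++ .E :: R2)
    rw [g1]
    refine acc_of_succ bc_acc (t := .E) (rest := L2) (c' := .RS q0 (fun _ => zf M)) (out := [.E])
      rfl rfl rfl ?_
    have := acc_start M q0 N hM _ q0 (Z ++ R1) L2 R2 rfl (by simp [g2, f1])
    simpa [Ctl.dir] using this

/-- a stopping counter machine leads from its start back to its start -/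
theorem loop_of_halts (o : Option Q) (n : Bool → ℕ)
    (h : M.Halts o n) : ∀ q, o = some q → ∃ k : ℕ, ∀ (P T : Gc Q M.B → Prop),
      (∀ x y, SmStep M q0 N x y → (P y ∨ T y) → P x) → ∀ (w L R : List Tok), Tok.E ∉ w →
      CountersAre w n → k ≤ w.count .U →
      (∀ W, Tok.E ∉ W → CountersAre W (ini N) → W.count .U = w.count .U + w.count .V →
        T (.RS q0 (fun _ => zf M), mk2 (.E :: L) (W ++ .E :: R))) →
      P (.RS q (fun _ => zf M), mk2 (.E :: L) (w ++ .E :: R)) := by
  induction h with
  | stop n => intro q hq; cases hq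
  | step q n hh ih =>
    intro q' hq'
    obtain rfl : q = q' := Option.some.inj hq'
    cases hx : M.nxt q (M.res n) with
    | none =>
      refine ⟨0, fun P T hP w L R hE hw _ hfin => ?_⟩
      have hBC : BC M q0 N P := fun x y h1 h2 => hP x y h1 (Or.inl h2)
      refine acc_right M q0 N hBC q w hE _ _ _ ?_
      rw [cres_zero M w n hw]
      refine strict_turn_none M q0 N (T := T) hP hx w.reverse (by simpa using hE) L R ?_
      intro W h1 h2 h3
      refine Or.inr (hfin W h1 h2 ?_)
      rw [h3, List.count_reverse, List.count_reverse]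
    | some q1 =>
      obtain ⟨k, hk⟩ := ih q1 hx
      refine ⟨k + 1, fun P T hP w L R hE hw hu hfin => ?_⟩
      have hBC : BC M q0 N P := fun x y h1 h2 => hP x y h1 (Or.inl h2)
      refine acc_right M q0 N hBC q w hE _ _ _ ?_
      rw [cres_zero M w n hw]
      refine acc_turn_some M q0 N hBC hx w.reverse (by simpa using hE) L R
        (by rw [List.count_reverse]; omega) ?_
      intro W hW1 hW2 hW3 hW4
      rw [List.count_reverse] at hW3 hW4
      refine hk P T hP W L R hW1 ?_ (by omega) ?_
      · intro j
        rw [hW2 j, List.count_reverse, hw j]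
        rfl
      · intro W' h1 h2 h3
        exact hfin W' h1 h2 (by omega)

/-- if the counter machine stops then the sweeping machine has an infinite run -/
theorem not_acc (hM : M.Halts (some q0) (ini N)) :
    ∃ w : List Tok, ¬ SAcc M q0 N (.RS q0 (fun _ => zf M), mk2 [.E] (w ++ [.E])) := by
  obtain ⟨k, hk⟩ := loop_of_halts M q0 N _ _ hM q0 rfl
  let start : Gc Q M.B → Prop := fun x => ∃ w, Tok.E ∉ w ∧ CountersAre w (ini N) ∧
    k ≤ w.count .U ∧ x = (.RS q0 (fun _ => zf M), mk2 [.E] (w ++ [.E]))
  have key : ∀ x, start x → ∃ y, Relation.TransGen (SmStep M q0 N) x y ∧ start y := by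
    rintro x ⟨w, h1, h2, h3, rfl⟩
    refine hk (fun x => ∃ y, Relation.TransGen (SmStep M q0 N) x y ∧ start y) start ?_ w [] [] h1
      h2 h3 ?_
    · intro x y hxy h
      rcases h with ⟨z, hz, hs⟩ | hs
      · exact ⟨z, Relation.TransGen.head hxy hz, hs⟩
      · exact ⟨y, Relation.TransGen.single hxy, hs⟩
    · intro W g1 g2 g3
      exact ⟨W, g1, g2, by omega, rfl⟩
  refine ⟨List.replicate N (.ctr true) ++ List.replicate k .U, fun hacc => ?_⟩
  have hno : ∀ x, SAcc M q0 N x → ¬ start x := by
    intro x hx
    have hx' : Acc (Relation.TransGen (fun a b => SmStep M q0 N b a)) x := hx.transGen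
    clear hx
    induction hx' with
    | intro x _ ih =>
      intro hs
      obtain ⟨y, hy, hs'⟩ := key x hs
      exact ih y (Relation.transGen_swap.2 hy) hs'
  refine hno _ hacc ⟨_, ?_, ?_, ?_, rfl⟩
  · simp [List.mem_replicate]
  · intro j
    cases j <;> simp [ini, List.count_replicate]
  · simp [List.count_replicate]

end Pool.Agent.Helper462.OneRule
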