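import Pool.Agent.Helper462.OneRule.Defs
import Pool.Agent.Helper462.OneRule.Cell

set_option autoImplicit false

/-! Terms over two constants and one symbol whose last argument is the spine. -/

namespace Pool.Agent.Helper462.OneRule

open Term

/-- the signature -/
abbrev sg (m : ℕ) : List ℕ := [0, 0, m + 1]

variable {m : ℕ}

/-- the constant `a` -/
def cA : Term (sg m) := .app ⟨0, by simp⟩ (fun i => Fin.elim0 i)

/-- the constant `b` -/
def cB : Term (sg m) := .app ⟨1, by simp⟩ (fun i => Fin.elim0 i)

/-- the symbol of arity `m + 1` -/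
def ap (ts : Fin (m + 1) → Term (sg m)) : Term (sg m) := .app ⟨2, by simp⟩ ts

/-- is it the constant `a` -/
def isA : Term (sg m) → Bool
  | .var _ => false
  | .app f _ => decide (f.1 = 0)

/-- the cells on the spine -/
def sp : Term (sg m) → List (Fin m → Bool)
  | .var _ => []
  | .app ⟨0, _⟩ _ => []
  | .app ⟨1, _⟩ _ => []
  | .app ⟨2, _⟩ ts => (fun a : Fin m => isA (ts a.castSucc)) :: sp (ts (Fin.last m))

/-- the side arguments -/
def sides : Term (sg m) → List (Term (sg m))
  | .var _ => []
  | .app ⟨0, _⟩ _ => []
  | .app ⟨1, _⟩ _ => []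
  | .app ⟨2, _⟩ ts => List.ofFn (fun a : Fin m => ts a.castSucc) ++ sides (ts (Fin.last m))

theorem sp_ap (ts : Fin (m + 1) → Term (sg m)) :
    sp (ap ts) = (fun a : Fin m => isA (ts a.castSucc)) :: sp (ts (Fin.last m)) := rfl

theorem sides_ap (ts : Fin (m + 1) → Term (sg m)) :
    sides (ap ts) = List.ofFn (fun a : Fin m => ts a.castSucc) ++ sides (ts (Fin.last m)) := rfl

/-- induction on terms -/
theorem tind {P : Term (sg m) → Prop} (hv : ∀ v, P (.var v)) (ha : P cA) (hb : P cB)
    (hap : ∀ ts : Fin (m + 1) → Term (sg m), (∀ i, P (ts i)) → P (ap ts)) : ∀ t, P t := by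
  intro t
  induction t with
  | var v => exact hv v
  | app f ts ih =>
    obtain ⟨f, hf⟩ := f
    have hf' : f < 3 := hf
    interval_cases f
    · have : ts = (fun i => Fin.elim0 i) := by funext i; exact Fin.elim0 i
      rw [this]; exact ha
    · have : ts = (fun i => Fin.elim0 i) := by funext i; exact Fin.elim0 i
      rw [this]; exact hb
    · exact hap ts ih

/-- a spine node -/
def nd (c : ℕ → Term (sg m)) (t : Term (sg m)) : Term (sg m) :=
  ap (fun i : Fin (m + 1) => if i.1 < m then c i.1 else t)

/-- a spine -/
def chain (cs : List (ℕ → Term (sg m))) (t : Term (sg m)) : Term (sg m) := cs.foldr nd t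

theorem nd_congr {c c' : ℕ → Term (sg m)} (t : Term (sg m)) (h : ∀ a, a < m → c a = c' a) :
    nd c t = nd c' t := by
  unfold nd
  congr 1
  funext i
  split
  · rename_i hi; exact h _ hi
  · rfl

theorem subst_nd (s : ℕ → Term (sg m)) (c : ℕ → Term (sg m)) (t : Term (sg m)) :
    (nd c t).subst s = nd (fun a => (c a).subst s) (t.subst s) := by
  unfold nd ap
  simp only [Term.subst]
  congr 1
  funext i
  split <;> rfl

theorem subst_chain (s : ℕ → Term (sg m)) (cs : List (ℕ → Term (sg m))) (t : Term (sg m)) :
    (chain cs t).subst s = chain (cs.map (fun c a => (c a).subst s)) (t.subst s) := by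
  induction cs with
  | nil => rfl
  | cons c cs ih =>
    have e : chain (c :: cs) t = nd c (chain cs t) := rfl
    rw [e, subst_nd, ih]
    rfl

theorem sp_nd (c : ℕ → Term (sg m)) (t : Term (sg m)) :
    sp (nd c t) = (fun a : Fin m => isA (c a)) :: sp t := by
  unfold nd
  rw [sp_ap]
  simp

theorem sp_chain (cs : List (ℕ → Term (sg m))) (t : Term (sg m)) :
    sp (chain cs t) = cs.map (fun c (a : Fin m) => isA (c a)) ++ sp t := by
  induction cs with
  | nil => rfl
  | cons c cs ih =>
    change sp (nd c (chain cs t)) = _
    rw [sp_nd, ih]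
    rfl

theorem mem_sides_nd (c : ℕ → Term (sg m)) (t x : Term (sg m)) :
    x ∈ sides (nd c t) ↔ (∃ a, a < m ∧ c a = x) ∨ x ∈ sides t := by
  unfold nd
  rw [sides_ap]
  simp only [List.mem_append, List.mem_ofFn, Fin.val_castSucc, Fin.is_lt, if_true, Fin.val_last,
    lt_irrefl, if_false]
  constructor
  · rintro (⟨a, rfl⟩ | h)
    · exact Or.inl ⟨a, a.2, rfl⟩
    · exact Or.inr h
  · rintro (⟨a, ha, rfl⟩ | h)
    · exact Or.inl ⟨⟨a, ha⟩, rfl⟩
    · exact Or.inr h

theorem mem_sides_chain (cs : List (ℕ → Term (sg m))) (t x : Term (sg m)) :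
    x ∈ sides (chain cs t) ↔ (∃ c ∈ cs, ∃ a, a < m ∧ c a = x) ∨ x ∈ sides t := by
  induction cs with
  | nil => simp [chain]
  | cons c cs ih =>
    change x ∈ sides (nd c (chain cs t)) ↔ _
    rw [mem_sides_nd, ih]
    simp only [List.mem_cons, exists_eq_or_imp, or_assoc]

/-- the term of a code -/
def tm (x : ℕ) : Term (sg m) := if x % 2 = 0 then .var (x / 2) else if x = 1 then cA else cB

/-- the constant of a truth value -/
def con (b : Bool) : Term (sg m) := if b then cA else cB

theorem subst_cA (s : ℕ → Term (sg m)) : (cA : Term (sg m)).subst s = cA := by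
  unfold cA
  simp only [Term.subst]
  congr 1
  funext i
  exact Fin.elim0 i

theorem subst_cB (s : ℕ → Term (sg m)) : (cB : Term (sg m)).subst s = cB := by
  unfold cB
  simp only [Term.subst]
  congr 1
  funext i
  exact Fin.elim0 i

theorem isA_tm (s : ℕ → Term (sg m)) (x : ℕ) :
    isA ((tm x : Term (sg m)).subst s) = ev (fun v => isA (s v)) x := by
  unfold tm ev
  split
  · rfl
  split
  · rename_i h; rw [subst_cA, h]; rfl
  · rename_i h; rw [subst_cB]; simp [h, isA, cB]

theorem isA_nd (c : ℕ → Term (sg m)) (t : Term (sg m)) : isA (nd c t) = false := by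
  simp [nd, ap, isA]

theorem isA_chain {cs : List (ℕ → Term (sg m))} (h : cs ≠ []) (t : Term (sg m)) :
    isA (chain cs t) = false := by
  cases cs with
  | nil => exact absurd rfl h
  | cons c cs => exact isA_nd _ _

section Rule

variable (m) (lc rc : List (ℕ → ℕ)) (Y : ℕ)

/-- the term of a list of templates -/
def tt (cs : List (ℕ → ℕ)) : Term (sg m) := chain (cs.map (fun T a => tm (T a))) (.var Y)

/-- one step on words -/
def CSt (w w' : List (Fin m → Bool)) : Prop :=
  ∃ u v e, w = u ++ (lc.map (fun T (a : Fin m) => ev e (T a)) ++ v) ∧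
    w' = u ++ (rc.map (fun T (a : Fin m) => ev e (T a)) ++ v)

variable {m lc rc Y}

theorem tt_subst (s : ℕ → Term (sg m)) (cs : List (ℕ → ℕ)) :
    (tt m Y cs).subst s = chain (cs.map (fun T a => (tm (T a)).subst s)) (s Y) := by
  unfold tt
  rw [subst_chain, List.map_map]
  rfl

theorem sp_tt (s : ℕ → Term (sg m)) (cs : List (ℕ → ℕ)) :
    sp ((tt m Y cs).subst s) =
      cs.map (fun T (a : Fin m) => ev (fun v => isA (s v)) (T a)) ++ sp (s Y) := by
  rw [tt_subst, sp_chain, List.map_map]
  congr 1
  refine List.map_congr_left fun T _ => ?_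
  funext a
  simp only [Function.comp, isA_tm]

/-- one step in a list -/
def LS {α : Type} (R : α → α → Prop) (xs ys : List α) : Prop :=
  ∃ k a b, xs[k]? = some a ∧ ys = xs.set k b ∧ R a b

theorem acc_LS {α : Type} (R : α → α → Prop) (xs : List α)
    (h : ∀ x ∈ xs, Acc (fun b a => R a b) x) : Acc (fun b a => LS R a b) xs := by
  induction xs with
  | nil =>
    refine Acc.intro _ ?_
    rintro y ⟨k, a, b, h1, _⟩
    simp at h1
  | cons x xs ih =>
    have hx := h x (by simp)
    have hxs := ih (fun y hy => h y (List.mem_cons_of_mem _ hy))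
    clear ih h
    induction hx generalizing xs with
    | intro x _ ihx =>
      induction hxs with
      | intro xs hxs' ihxs =>
        refine Acc.intro _ ?_
        rintro y ⟨k, a, b, h1, rfl, h3⟩
        cases k with
        | zero =>
          simp only [List.getElem?_cons_zero, Option.some.injEq] at h1
          subst h1
          rw [List.set_cons_zero]
          exact ihx b h3 xs (Acc.intro _ hxs')
        | succ k =>
          simp only [List.getElem?_cons_succ] at h1
          rw [List.set_cons_succ]
          exact ihxs _ ⟨k, a, b, h1, rfl, h3⟩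

theorem set_ofFn {α : Type} (f : Fin m → α) (i : Fin m) (b : α) :
    List.ofFn (Function.update f i b) = (List.ofFn f).set i.1 b := by
  refine List.ext_getElem (by simp) ?_
  intro k h1 h2
  rw [List.getElem_ofFn, List.getElem_set]
  simp only [List.getElem_ofFn]
  by_cases h : i.1 = k
  · rw [if_pos h]
    have : (⟨k, by simpa using h1⟩ : Fin m) = i := Fin.ext h.symm
    rw [this, Function.update_self]
  · rw [if_neg h, Function.update_of_ne]
    intro h3
    exact h (by rw [← h3])

/-- classification of the steps -/
theorem step_class (hl : lc ≠ []) (hr : rc ≠ [])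
    (hv : ∀ T ∈ rc, ∀ a, a < m → T a % 2 = 0 → ∃ T' ∈ lc, ∃ a', a' < m ∧ T' a' = T a)
    {t t' : Term (sg m)} (h : Step (tt m Y lc) (tt m Y rc) t t') :
    isA t = false ∧ isA t' = false ∧
    ((CSt m lc rc (sp t) (sp t') ∧ ∀ x ∈ sides t', x ∈ sides t ∨ x = cA ∨ x = cB) ∨
    (sp t' = sp t ∧ LS (Step (tt m Y lc) (tt m Y rc)) (sides t) (sides t'))) := by
  induction h with
  | root s =>
    refine ⟨?_, ?_, Or.inl ⟨⟨[], sp (s Y), fun v => isA (s v), ?_, ?_⟩, ?_⟩⟩
    · rw [tt_subst]; exact isA_chain (by simpa using hl) _
    · rw [tt_subst]; exact isA_chain (by simpa using hr) _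
    · rw [sp_tt]; rfl
    · rw [sp_tt]; rfl
    · intro x hx
      rw [tt_subst, mem_sides_chain] at hx ⊢
      rcases hx with ⟨c, hc, a, ha, rfl⟩ | hx
      · simp only [List.mem_map] at hc
        obtain ⟨T, hT, rfl⟩ := hc
        by_cases he : T a % 2 = 0
        · obtain ⟨T', hT', a', ha', e⟩ := hv T hT a ha he
          left; left
          refine ⟨_, List.mem_map.2 ⟨T', hT', rfl⟩, a', ha', ?_⟩
          rw [e]
        · right
          dsimp only
          unfold tm
          rw [if_neg he]
          split
          · left; exact subst_cA s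
          · right; exact subst_cB s
      · exact Or.inl (Or.inr hx)
  | arg f ts i t hstep ih =>
    obtain ⟨f, hf⟩ := f
    have hf' : f < 3 := hf
    interval_cases f
    · exact Fin.elim0 i
    · exact Fin.elim0 i
    · change Fin (m + 1) → Term (sg m) at ts
      change Fin (m + 1) at i
      refine ⟨rfl, rfl, ?_⟩
      change (CSt m lc rc (sp (ap ts)) (sp (ap (Function.update ts i t))) ∧
        ∀ x ∈ sides (ap (Function.update ts i t)), x ∈ sides (ap ts) ∨ x = cA ∨ x = cB) ∨
        (sp (ap (Function.update ts i t)) = sp (ap ts) ∧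
          LS (Step (tt m Y lc) (tt m Y rc)) (sides (ap ts)) (sides (ap (Function.update ts i t))))
      rw [sp_ap, sp_ap, sides_ap, sides_ap]
      obtain ⟨ia, ib, ic⟩ := ih
      induction i using Fin.lastCases with
      | last =>
        have e1 : ∀ a : Fin m, Function.update ts (Fin.last m) t a.castSucc = ts a.castSucc := by
          intro a
          rw [Function.update_of_ne]
          exact Fin.castSucc_ne_last a
        simp only [e1, Function.update_self]
        rcases ic with ⟨⟨u, v, e, h1, h2⟩, h3⟩ | ⟨h1, k, a, b, h2, h3, h4⟩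
        · left
          refine ⟨⟨(fun a : Fin m => isA (ts a.castSucc)) :: u, v, e, ?_, ?_⟩, ?_⟩
          · rw [h1]; rfl
          · rw [h2]; rfl
          · intro x hx
            rw [List.mem_append] at hx ⊢
            rcases hx with hx | hx
            · exact Or.inl (Or.inl hx)
            · rcases h3 x hx with h | h
              · exact Or.inl (Or.inr h)
              · exact Or.inr h
        · right
          refine ⟨by rw [h1], m + k, a, b, ?_, ?_, h4⟩
          · rw [List.getElem?_append_right (by simp)]
            simpa using h2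
          · rw [h3, List.set_append_right _ _ (by simp)]
            simp
      | cast a0 =>
        right
        have e2 : Function.update ts a0.castSucc t (Fin.last m) = ts (Fin.last m) := by
          rw [Function.update_of_ne]
          exact (Fin.castSucc_ne_last a0).symm
        have e3 : (fun a : Fin m => Function.update ts a0.castSucc t a.castSucc) =
            Function.update (fun a : Fin m => ts a.castSucc) a0 t := by
          funext a
          by_cases ha : a = a0
          · subst ha
            rw [Function.update_self, Function.update_self]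
          · rw [Function.update_of_ne ha, Function.update_of_ne]
            intro h
            exact ha (Fin.castSucc_injective m h)
        refine ⟨?_, a0.1, ts a0.castSucc, t, ?_, ?_, hstep⟩
        · rw [e2]
          congr 1
          funext a
          by_cases ha : a = a0
          · subst ha
            rw [Function.update_self, ia, ib]
          · rw [Function.update_of_ne]
            intro h
            exact ha (Fin.castSucc_injective m h)
        · rw [List.getElem?_append_left (by simp)]
          simp
        · rw [e2, e3, set_ofFn, List.set_append_left _ _ (by simp)]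

/-- strong normalisation from well foundedness on words -/
theorem all_sn (hl : lc ≠ []) (hr : rc ≠ [])
    (hv : ∀ T ∈ rc, ∀ a, a < m → T a % 2 = 0 → ∃ T' ∈ lc, ∃ a', a' < m ∧ T' a' = T a)
    (hW : WellFounded (fun b a => CSt m lc rc a b)) (t : Term (sg m)) :
    Acc (fun b a => Step (tt m Y lc) (tt m Y rc) a b) t := by
  have hnf : ∀ x : Term (sg m), sp x = [] → sides x = [] →
      Acc (fun b a => Step (tt m Y lc) (tt m Y rc) a b) x := by
    intro x h1 h2
    refine Acc.intro _ ?_
    intro y hy
    rcases (step_class hl hr hv hy).2.2 with ⟨⟨u, v, e, h3, _⟩, _⟩ | ⟨_, k, a, b, h3, _⟩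
    · rw [h1] at h3
      have := congrArg List.length h3
      simp only [List.length_nil, List.length_append, List.length_map] at this
      have hl' : lc.length ≠ 0 := by simpa using hl
      omega
    · rw [h2] at h3
      simp at h3
  have key : ∀ w : List (Fin m → Bool), ∀ xs : List (Term (sg m)), ∀ t : Term (sg m), sp t = w →
      sides t = xs → (∀ x ∈ sides t, Acc (fun b a => Step (tt m Y lc) (tt m Y rc) a b) x) →
      Acc (fun b a => Step (tt m Y lc) (tt m Y rc) a b) t := by
    intro w
    induction w using hW.induction with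
    | _ w ihw =>
      intro xs t ht hs hx
      have hacc := acc_LS (Step (tt m Y lc) (tt m Y rc)) xs (by rw [← hs]; exact hx)
      induction hacc generalizing t with
      | intro xs _ ihx =>
        refine Acc.intro _ ?_
        intro t' hst
        rcases (step_class hl hr hv hst).2.2 with ⟨h1, h2⟩ | ⟨h1, h2⟩
        · refine ihw (sp t') (by rw [← ht]; exact h1) _ t' rfl rfl ?_
          intro x hx'
          rcases h2 x hx' with h | h | h
          · exact hx x h
          · rw [h]; exact hnf _ rfl rfl
          · rw [h]; exact hnf _ rfl rfl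
        · refine ihx (sides t') (by rw [← hs]; exact h2) t' (by rw [h1, ht]) rfl ?_
          intro x hx'
          obtain ⟨k, a, b, g1, g2, g3⟩ := h2
          rw [g2] at hx'
          rcases List.mem_or_eq_of_mem_set hx' with h | h
          · exact hx x h
          · rw [h]
            exact (hx a (List.mem_of_getElem? g1)).inv g3
  have hsides : ∀ t : Term (sg m), (∀ x ∈ sides t,
      Acc (fun b a => Step (tt m Y lc) (tt m Y rc) a b) x) := by
    intro t
    induction t using tind with
    | hv v => intro x hx; simp [sides] at hx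
    | ha => intro x hx; simp [sides, cA] at hx
    | hb => intro x hx; simp [sides, cB] at hx
    | hap ts ih =>
      intro x hx
      rw [sides_ap, List.mem_append, List.mem_ofFn] at hx
      rcases hx with ⟨a, rfl⟩ | hx
      · exact key _ _ _ rfl rfl (ih _)
      · exact ih _ x hx
  exact key _ _ t rfl rfl (hsides t)

/-- a word as a term -/
def wt (w : List (Fin m → Bool)) (t : Term (sg m)) : Term (sg m) :=
  chain (w.map (fun c a => if h : a < m then con (c ⟨a, h⟩) else cB)) t

theorem chain_map_congr {α : Type} (l : List α) (f g : α → ℕ → Term (sg m)) (t : Term (sg m))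
    (h : ∀ x ∈ l, ∀ a, a < m → f x a = g x a) : chain (l.map f) t = chain (l.map g) t := by
  induction l with
  | nil => rfl
  | cons x l ih =>
    change nd (f x) (chain (l.map f) t) = nd (g x) (chain (l.map g) t)
    rw [ih (fun y hy => h y (List.mem_cons_of_mem _ hy)), nd_congr _ (h x (by simp))]

theorem wt_append (u w : List (Fin m → Bool)) (t : Term (sg m)) :
    wt (u ++ w) t = wt u (wt w t) := by
  simp [wt, chain]

theorem wt_templates (cs : List (ℕ → ℕ)) (e : ℕ → Bool) (t : Term (sg m))
    (hY : ∀ T ∈ cs, ∀ a, a < m → T a % 2 = 0 → T a / 2 < Y) :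
    wt (cs.map (fun T (a : Fin m) => ev e (T a))) t =
      (tt m Y cs).subst (fun x => if x = Y then t else con (e x)) := by
  rw [tt_subst, if_pos rfl]
  unfold wt
  rw [List.map_map]
  refine chain_map_congr _ _ _ _ fun T hT a ha => ?_
  simp only [Function.comp, dif_pos ha]
  unfold tm ev
  split
  · rename_i he
    simp only [Term.subst]
    rw [if_neg]
    have := hY T hT a ha he
    omega
  split
  · rename_i he
    rw [subst_cA, he]
    rfl
  · rename_i he
    rw [subst_cB]
    simp [con, he]

/-- steps of words are steps of terms -/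
theorem step_of_cst (hYl : ∀ T ∈ lc, ∀ a, a < m → T a % 2 = 0 → T a / 2 < Y)
    (hYr : ∀ T ∈ rc, ∀ a, a < m → T a % 2 = 0 → T a / 2 < Y) {w w' : List (Fin m → Bool)}
    (h : CSt m lc rc w w') (t : Term (sg m)) :
    Step (tt m Y lc) (tt m Y rc) (wt w t) (wt w' t) := by
  obtain ⟨u, v, e, rfl, rfl⟩ := h
  induction u with
  | nil =>
    rw [List.nil_append, List.nil_append, wt_append, wt_append, wt_templates _ _ _ hYl,
      wt_templates _ _ _ hYr]
    exact Step.root _
  | cons c u ih =>
    have h1 : ∀ X : Term (sg m), ∀ X', Step (tt m Y lc) (tt m Y rc) X X' →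
        ∀ d : ℕ → Term (sg m), Step (tt m Y lc) (tt m Y rc) (nd d X) (nd d X') := by
      intro X X' hs d
      have h2 := Step.arg (l := tt m Y lc) (r := tt m Y rc) ⟨2, by simp⟩
        (fun i : Fin (m + 1) => if i.1 < m then d i.1 else X) (Fin.last m) X'
        (by simpa using hs)
      have h3 : Function.update (fun i : Fin (m + 1) => if i.1 < m then d i.1 else X)
          (Fin.last m) X' = (fun i : Fin (m + 1) => if i.1 < m then d i.1 else X') := by
        funext i
        induction i using Fin.lastCases with
        | last => rw [Function.update_self]; simp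
        | cast a =>
          rw [Function.update_of_ne (Fin.castSucc_ne_last a)]
          simp
      have h4 : nd d X' = .app ⟨2, by simp⟩
          (Function.update (fun i : Fin (m + 1) => if i.1 < m then d i.1 else X)
          (Fin.last m) X') := by
        rw [h3]; rfl
      rw [h4]
      exact h2
    exact h1 _ _ ih (fun a => if h : a < m then con (c ⟨a, h⟩) else cB)

end Rule

end Pool.Agent.Helper462.OneRule
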